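import Pool.Agent.P.MP_f57657_co.Sw

/-! Chains of vertices of degree two, and three consecutive chains. -/

open Finset

namespace Pool.Agent.P.MP_f57657_co

variable {X : Type*} [Fintype X] [DecidableEq X] {F H : SimpleGraph X} {S : Finset X}
  {P : X → Prop} {u v w : ℕ → X} {d d' : ℕ}

/-- A maximal path through vertices of `P`. -/
structure Chain (F : SimpleGraph X) (P : X → Prop) (u : ℕ → X) (d : ℕ) : Prop
    extends Pth F u d where
  mem : ∀ i < d, P (u (i + 1))
  s0 : ¬P (u 0)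
  s1 : ¬P (u (d + 1))
  a0 : F.Adj (u 0) (u 1)

omit [Fintype X] [DecidableEq X] in
theorem Pth.step (h : Pth F u d) (a0 : F.Adj (u 0) (u 1)) {i : ℕ} (hi : i ≤ d) :
    F.Adj (u i) (u (i + 1)) := by
  rcases i with _ | i
  exacts [a0, (h.adj i hi _).2 (Or.inr rfl)]

omit [Fintype X] in
theorem exists_other {W : Finset X} {x a : X} (h : (nbr F W x).card = 2) (ha : a ∈ W)
    (hx : F.Adj x a) : ∃ y ∈ W, y ≠ a ∧ F.Adj x y ∧ ∀ z ∈ W, F.Adj x z → z = a ∨ z = y := by
  obtain ⟨b, c, hbc, e⟩ := card_eq_two.1 h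
  have hm : ∀ z, z ∈ W ∧ F.Adj x z ↔ z = b ∨ z = c := fun z => by
    rw [← mem_nbr, e]; simp
  rcases (hm a).1 ⟨ha, hx⟩ with rfl | rfl
  · exact ⟨c, ((hm c).2 (Or.inr rfl)).1, hbc.symm, ((hm c).2 (Or.inr rfl)).2,
      fun z h1 h2 => (hm z).1 ⟨h1, h2⟩⟩
  · exact ⟨b, ((hm b).2 (Or.inl rfl)).1, hbc, ((hm b).2 (Or.inl rfl)).2,
      fun z h1 h2 => ((hm z).1 ⟨h1, h2⟩).symm⟩

theorem exists_chain (hP : ∀ x, P x → (nbr F univ x).card = 2) {a b : X} (ha : ¬P a)
    (hab : F.Adj a b) : ∃ u d, Chain F P u d ∧ u 0 = a ∧ u 1 = b := by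
  by_contra hc
  have key : ∀ d, ∃ u, Pth F u d ∧ (∀ i < d, P (u (i + 1))) ∧ u 0 = a ∧ u 1 = b := by
    intro d
    induction d with
    | zero => exact ⟨fun i => if i = 0 then a else b, ⟨by simp, by simp, by simp⟩, by simp,
        by simp, by simp⟩
    | succ d ih =>
      obtain ⟨u, h1, h2, h3, h4⟩ := ih
      have a0 : F.Adj (u 0) (u 1) := by rwa [h3, h4]
      have hd : P (u (d + 1)) := by
        by_contra h
        exact hc ⟨u, d, ⟨h1, h2, h3 ▸ ha, h, a0⟩, h3, h4⟩
      have hl := h1.step a0 le_rfl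
      obtain ⟨y, -, y1, y2, y3⟩ := exists_other (hP _ hd) (mem_univ _) hl.symm
      have new : ∀ j < d, u (d + 1) ≠ u (j + 1) := by
        intro j hj e
        obtain ⟨c, rfl⟩ : ∃ c, d = c + 1 := ⟨d - 1, by omega⟩
        rcases (h1.adj j hj _).1 (e ▸ hl.symm) with e' | e'
        · rcases j with _ | j
          · exact ha (h3 ▸ e' ▸ h2 c (by omega))
          · have := h1.inj c (by omega) j (by omega) e'
            omega
        · rcases (show j + 1 < c + 1 ∨ j = c by omega) with hj' | rfl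
          · obtain rfl := h1.inj c (by omega) (j + 1) hj' e'
            exact h1.ne (j + 1) (by omega) e.symm
          · exact hl.ne e'
      have up : ∀ i ≤ d + 1, Function.update u (d + 2) y i = u i := fun i hi =>
        Function.update_of_ne (by omega) _ _
      refine ⟨Function.update u (d + 2) y, ⟨fun i hi z => ?_, fun i hi => ?_, fun i hi j hj => ?_⟩,
        fun i hi => ?_, by rw [up 0 (by omega), h3], by rw [up 1 (by omega), h4]⟩
      · rw [up (i + 1) (by omega), up i (by omega)]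
        rcases (show i < d ∨ i = d by omega) with hi | rfl
        · rw [up (i + 2) (by omega)]; exact h1.adj i hi z
        · rw [Function.update_self]
          exact ⟨y3 z (mem_univ _), by rintro (rfl | rfl); exacts [hl.symm, y2]⟩
      · rw [up i (by omega)]
        rcases (show i < d ∨ i = d by omega) with hi | rfl
        · rw [up (i + 2) (by omega)]; exact h1.ne i hi
        · rw [Function.update_self]; exact y1.symm
      · rw [up (i + 1) (by omega), up (j + 1) (by omega)]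
        intro e
        rcases (show i < d ∨ i = d by omega) with hi | rfl <;>
          rcases (show j < _ ∨ j = _ from Nat.lt_succ_iff_lt_or_eq.1 hj) with hj | rfl
        exacts [h1.inj i hi j hj e, absurd e.symm (new i hi), absurd e (new j hj), rfl]
      · rw [up (i + 1) (by omega)]
        rcases (show i < d ∨ i = d by omega) with hi | rfl
        exacts [h2 i hi, hd]
  obtain ⟨u, h1, -⟩ := key (Fintype.card X + 1)
  have := Fintype.card_le_of_injective (fun i : Fin (Fintype.card X + 1) => u (i + 1))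
    fun i j e => Fin.ext (h1.inj i i.2 j j.2 e)
  simp at this

omit [Fintype X] [DecidableEq X] in
theorem Chain.unique (h : Chain F P u d) (h' : Chain F P v d') (e0 : u 0 = v 0)
    (e1 : u 1 = v 1) : d = d' ∧ ∀ i ≤ d + 1, u i = v i := by
  have key : ∀ i, i ≤ d → i ≤ d' → u i = v i ∧ u (i + 1) = v (i + 1) := by
    intro i
    induction i with
    | zero => exact fun _ _ => ⟨e0, e1⟩
    | succ i ih =>
      intro a b
      obtain ⟨c1, c2⟩ := ih (by omega) (by omega)
      refine ⟨c2, ?_⟩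
      rcases (h'.adj i b _).1 (c2 ▸ (h.adj i a _).2 (Or.inr rfl)) with e | e
      exacts [absurd (c1.trans e.symm) (h.ne i a), e]
  have hd : d = d' := by
    rcases lt_trichotomy d d' with a | a | a
    · exact absurd ((key d le_rfl a.le).2 ▸ h'.mem d a) h.s1
    · exact a
    · exact absurd ((key d' a.le le_rfl).2 ▸ h.mem d' a) h'.s1
  subst hd
  refine ⟨rfl, fun i hi => ?_⟩
  rcases (show i ≤ d ∨ i = d + 1 by omega) with hi | rfl
  exacts [(key i hi hi).1, (key d le_rfl le_rfl).2]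

omit [Fintype X] [DecidableEq X] in
theorem Pth.rev (h : Pth F u d) : Pth F (fun i => u (d + 1 - i)) d := by
  refine ⟨fun i hi z => ?_, fun i hi => ?_, fun i hi j hj e => ?_⟩
  · obtain ⟨c, rfl⟩ : ∃ c, d = i + c + 1 := ⟨d - i - 1, by omega⟩
    rw [show i + c + 1 + 1 - (i + 1) = c + 1 by omega, show i + c + 1 + 1 - i = c + 2 by omega,
      show i + c + 1 + 1 - (i + 2) = c by omega, h.adj c (by omega), or_comm]
  · obtain ⟨c, rfl⟩ : ∃ c, d = i + c + 1 := ⟨d - i - 1, by omega⟩
    rw [show i + c + 1 + 1 - i = c + 2 by omega, show i + c + 1 + 1 - (i + 2) = c by omega]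
    exact (h.ne c (by omega)).symm
  · rw [show d + 1 - (i + 1) = d - i - 1 + 1 by omega,
      show d + 1 - (j + 1) = d - j - 1 + 1 by omega] at e
    have := h.inj _ (by omega) _ (by omega) e
    omega

omit [Fintype X] [DecidableEq X] in
theorem Chain.rev (h : Chain F P u d) : Chain F P (fun i => u (d + 1 - i)) d := by
  refine ⟨h.toPth.rev, fun i hi => ?_, h.s1, by simpa using h.s0,
    (h.toPth.step h.a0 le_rfl).symm⟩
  rw [show d + 1 - (i + 1) = d - i - 1 + 1 by omega]
  exact h.mem _ (by omega)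

/-- There is a walk of length `k` from `t` to `x` that stays in `S` after its first vertex. -/
def Wk (F : SimpleGraph X) (S : Finset X) (t : X) : ℕ → X → Prop
  | 0, x => x = t
  | k + 1, x => x ∈ S ∧ ∃ y, Wk F S t k y ∧ F.Adj x y

/-- The number of such walks. -/
noncomputable def bl (F : SimpleGraph X) (S : Finset X) (t : X) : ℕ → X → ℝ
  | 0 => uv t
  | k + 1 => pj S (ad F (bl F S t k))

theorem bl_nonneg (t : X) (k : ℕ) (x : X) : 0 ≤ bl F S t k x := by
  induction k generalizing x with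
  | zero => rw [bl, uv_apply]; split_ifs <;> norm_num
  | succ k ih =>
    rw [bl, pj_apply, ad_apply]
    split_ifs
    exacts [sum_nonneg fun y _ => ih y, le_rfl]

omit [DecidableEq X] in
theorem sum_le_ad {f : X → ℝ} (hf : ∀ x, 0 ≤ f x) {x : X} {Z : Finset X}
    (hZ : ∀ z ∈ Z, F.Adj x z) : ∑ z ∈ Z, f z ≤ ad F f x :=
  sum_le_sum_of_subset_of_nonneg (fun z hz => mem_nbr.2 ⟨mem_univ _, hZ z hz⟩) fun z _ _ => hf z

theorem bl_succ {t x : X} (hx : x ∈ S) (k : ℕ) : bl F S t (k + 1) x = ad F (bl F S t k) x := by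
  rw [bl, pj_apply, if_pos hx]

theorem bl_off {t x : X} (hx : x ∉ S) (k : ℕ) : bl F S t (k + 1) x = 0 := by
  rw [bl, pj_apply, if_neg hx]

theorem Wk.one_le {t : X} {k : ℕ} {x : X} (h : Wk F S t k x) : 1 ≤ bl F S t k x := by
  induction k generalizing x with
  | zero => rw [bl, uv_apply, if_pos (show x = t from h)]
  | succ k ih =>
    obtain ⟨hx, y, h1, h2⟩ := h
    rw [bl_succ hx]
    simpa using (ih h1).trans (le_trans (by simp) (sum_le_ad (bl_nonneg t k) (Z := {y})
      (by simpa using h2)))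

theorem wk_of_ne {t : X} {k : ℕ} {x : X} (h : bl F S t k x ≠ 0) : Wk F S t k x := by
  induction k generalizing x with
  | zero =>
    by_contra hc
    exact h (by rw [bl, uv_apply, if_neg (show ¬x = t from hc)])
  | succ k ih =>
    have hx : x ∈ S := by
      by_contra hc
      exact h (bl_off hc k)
    rw [bl_succ hx] at h
    obtain ⟨y, h1, h2⟩ := exists_ne_zero_of_sum_ne_zero h
    exact ⟨hx, y, ih h2, (mem_nbr.1 h1).2⟩

theorem Sw.bl {Φ : (X → ℝ) →ₗ[ℝ] (X → ℝ)} (h : Sw F H S Φ) {t t' : X} (ht : t ∉ S)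
    (ht' : t' ∉ S) (k : ℕ) : ad H (bl H S t k) t' = ad F (bl F S t k) t' := by
  have : Φ (MP_f57657_co.bl F S t k) = MP_f57657_co.bl H S t k := by
    induction k with
    | zero => exact h.fix t ht
    | succ k ih => rw [MP_f57657_co.bl, MP_f57657_co.bl, h.proj, h.com, ih]
  rw [← this, ← h.com, h.off _ ht']

/-- `t` and `t'` are joined by a walk with `k` inner vertices, all in `S`. -/
def Conn (F : SimpleGraph X) (S : Finset X) (t t' : X) (k : ℕ) : Prop :=
  ∃ x, Wk F S t k x ∧ F.Adj t' x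

theorem Sw.conn {Φ : (X → ℝ) →ₗ[ℝ] (X → ℝ)} (h : Sw F H S Φ) {t t' : X} (ht : t ∉ S)
    (ht' : t' ∉ S) {k : ℕ} (hc : Conn F S t t' k) : Conn H S t t' k := by
  obtain ⟨x, h1, h2⟩ := hc
  have a1 : 1 ≤ ad F (MP_f57657_co.bl F S t k) t' :=
    h1.one_le.trans (le_trans (by simp) (sum_le_ad (bl_nonneg t k) (Z := {x}) (by simpa using h2)))
  rw [← h.bl ht ht'] at a1
  obtain ⟨y, b1, b2⟩ := exists_ne_zero_of_sum_ne_zero (zero_lt_one.trans_le a1).ne'
  exact ⟨y, wk_of_ne b2, (mem_nbr.1 b1).2⟩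

omit [Fintype X] [DecidableEq X] in
theorem Wk.exists_seq {t : X} {k : ℕ} {x : X} (h : Wk F S t k x) : ∃ q : ℕ → X, q 0 = t ∧
    q k = x ∧ ∀ i < k, q (i + 1) ∈ S ∧ F.Adj (q (i + 1)) (q i) := by
  induction k generalizing x with
  | zero => exact ⟨fun _ => t, rfl, h.symm, by simp⟩
  | succ k ih =>
    obtain ⟨hx, y, h1, h2⟩ := h
    obtain ⟨q, q0, q1, q2⟩ := ih h1
    have up : ∀ i ≤ k, Function.update q (k + 1) x i = q i := fun i hi =>
      Function.update_of_ne (by omega) _ _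
    refine ⟨Function.update q (k + 1) x, by rw [up 0 (by omega), q0], by simp, fun i hi => ?_⟩
    rw [up i (by omega)]
    rcases (show i < k ∨ i = k by omega) with hi | rfl
    · rw [up (i + 1) hi]; exact q2 i hi
    · rw [Function.update_self, q1]; exact ⟨hx, h2⟩

/-- A chain in `S` with ends outside `S`. -/
abbrev Ch (F : SimpleGraph X) (S : Finset X) (u : ℕ → X) (d : ℕ) : Prop := Chain F (· ∈ S) u d

omit [Fintype X] [DecidableEq X] in
theorem Ch.att (h : Ch F S u d) {j : ℕ} (hj : j < d) {t : X} (ht : t ∉ S)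
    (ha : F.Adj t (u (j + 1))) : j = 0 ∧ t = u 0 ∨ j + 1 = d ∧ t = u (d + 1) := by
  rcases (h.adj j hj t).1 ha.symm with rfl | rfl
  · rcases j with _ | j
    exacts [Or.inl ⟨rfl, rfl⟩, absurd (h.mem j (by omega)) ht]
  · rcases (show j + 1 < d ∨ j + 1 = d by omega) with a | rfl
    exacts [absurd (h.mem _ a) ht, Or.inr ⟨rfl, rfl⟩]

omit [Fintype X] [DecidableEq X] in
theorem Ch.reach (h : Ch F S u d) (h' : Ch F S v d') (hd : 0 < d) (hd' : 0 < d')
    (hn : ∀ z ∈ S, F.Adj (u 0) z → z = u 1 ∨ z = v 1) {k : ℕ} {x : X}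
    (hw : Wk F S (u 0) (k + 1) x) : (∃ j < d, x = u (j + 1)) ∨ ∃ j < d', x = v (j + 1) := by
  have one : ∀ {u : ℕ → X} {d : ℕ}, Ch F S u d → ∀ j < d, ∀ x ∈ S, F.Adj x (u (j + 1)) →
      ∃ j < d, x = u (j + 1) := by
    intro u d h j hj x hx ha
    rcases (h.adj j hj x).1 ha.symm with rfl | rfl
    · rcases j with _ | j
      exacts [absurd hx h.s0, ⟨j, by omega, rfl⟩]
    · rcases (show j + 1 < d ∨ j + 1 = d by omega) with a | rfl
      exacts [⟨j + 1, a, rfl⟩, absurd hx h.s1]
  induction k generalizing x with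
  | zero =>
    obtain ⟨hx, y, rfl, h2⟩ := hw
    rcases hn x hx h2.symm with e | e
    exacts [Or.inl ⟨0, hd, e⟩, Or.inr ⟨0, hd', e⟩]
  | succ k ih =>
    obtain ⟨hx, y, h1, h2⟩ := hw
    rcases ih h1 with ⟨j, hj, rfl⟩ | ⟨j, hj, rfl⟩
    exacts [Or.inl (one h j hj x hx h2), Or.inr (one h' j hj x hx h2)]

theorem Ch.bl_zero (h : Ch F S u d) (hne : u (d + 1) ≠ u 0) (k : ℕ) :
    ∀ j, k < j → j ≤ d + 1 → bl F S (u 0) k (u j) = 0 := by
  induction k with
  | zero =>
    intro j a b
    rw [bl, uv_apply, if_neg]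
    obtain ⟨j, rfl⟩ : ∃ i, j = i + 1 := ⟨j - 1, by omega⟩
    rcases (show j < d ∨ j = d by omega) with hj | rfl
    exacts [fun e => h.s0 (e ▸ h.mem j hj), hne]
  | succ k ih =>
    intro j a b
    obtain ⟨j, rfl⟩ : ∃ i, j = i + 1 := ⟨j - 1, by omega⟩
    rcases (show j < d ∨ j = d by omega) with hj | rfl
    · rw [bl_succ (h.mem j hj), h.toPth.ad_eq hj, ih j (by omega) (by omega),
        ih (j + 2) (by omega) (by omega), add_zero]
    · exact bl_off h.s1 k

theorem Ch.bl_one (h : Ch F S u d) (hne : u (d + 1) ≠ u 0) (j : ℕ) (hj : j ≤ d) :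
    bl F S (u 0) j (u j) = 1 := by
  induction j with
  | zero => simp [bl, uv_apply]
  | succ j ih => rw [bl_succ (h.mem j hj), h.toPth.ad_eq hj, ih (by omega),
      h.bl_zero hne j (j + 2) (by omega) (by omega), add_zero]

theorem Ch.bl_two (h : Ch F S u d) (hne : u (d + 1) ≠ u 0) (j : ℕ) (hj : j < d) :
    bl F S (u 0) (j + 2) (u j) = j := by
  induction j with
  | zero => simpa using bl_off h.s0 1
  | succ j ih =>
    rw [bl_succ (h.mem j (by omega)), h.toPth.ad_eq (by omega), ih (by omega),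
      h.bl_one hne (j + 2) hj]
    simp

/-- Three consecutive chains contradict irreducibility. -/
theorem Irr.three (hI : Irr F H S) {d₀ d₂ : ℕ} (hu : Ch F S u d) (hv : Ch F S v d₀)
    (hw : Ch F S w d₂) (hd : 0 < d) (hd₀ : 0 < d₀) (hd₂ : 0 < d₂)
    (n1 : ∀ z ∈ S, F.Adj (u 0) z → z = u 1 ∨ z = v 1)
    (n2 : ∀ z ∈ S, F.Adj (u (d + 1)) z → z = u d ∨ z = w 1)
    (e1 : v 0 = u 0) (e2 : w 0 = u (d + 1)) (c1 : u (d + 1) ≠ u 0) (c2 : v (d₀ + 1) ≠ u (d + 1))
    (c3 : v (d₀ + 1) = w (d₂ + 1) → v (d₀ + 1) = u 0) : False := by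
  obtain ⟨Φ, h⟩ := hI.1
  obtain ⟨Ψ, h', -⟩ := h.symm
  obtain ⟨c, rfl⟩ : ∃ c, d = c + 1 := ⟨d - 1, by omega⟩
  have last : ∀ k x, bl F S (u 0) (k + 1) x ≠ 0 → F.Adj (u (c + 2)) x → x = u (c + 1) := by
    intro k x a b
    rcases hu.reach hv hd hd₀ n1 (wk_of_ne a) with ⟨j, hj, rfl⟩ | ⟨j, hj, rfl⟩
    · rcases hu.att hj hu.s1 b with ⟨-, e⟩ | ⟨e, -⟩
      exacts [absurd e c1, by rw [e]]
    · rcases hv.att hj hu.s1 b with ⟨-, e⟩ | ⟨-, e⟩
      exacts [absurd (e.trans e1) c1, absurd e.symm c2]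
  have hl := (hu.toPth.step hu.a0 le_rfl).symm
  have f1 : Conn H S (u 0) (u (c + 2)) (c + 1) := h.conn hu.s0 hu.s1
    ⟨_, wk_of_ne (by rw [hu.bl_one c1 _ le_rfl]; exact one_ne_zero), hl⟩
  have f2 : ∀ k, Conn H S (u 0) (u (c + 2)) (k + 1) → c ≤ k := by
    intro k a
    obtain ⟨x, a1, a2⟩ := h'.conn hu.s0 hu.s1 a
    have a3 := (zero_lt_one.trans_le a1.one_le).ne'
    by_contra hk
    exact a3 (by rw [last k x a3 a2]; exact hu.bl_zero c1 _ _ (by omega) (by omega))
  have f3 : ad H (bl H S (u 0) (c + 3)) (u (c + 2)) = c := by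
    rw [h.bl hu.s0 hu.s1, ad_apply, sum_eq_single (u (c + 1)), bl_succ (hu.mem c (by omega)),
      hu.toPth.ad_eq (by omega), hu.bl_two c1 c (by omega), bl_off hu.s1, add_zero]
    · intro x a b
      by_contra a'
      exact b (last _ x a' (mem_nbr.1 a).2)
    · exact fun a => absurd (mem_nbr.2 ⟨mem_univ _, hl⟩) a
  have f4 : ∀ t ∉ S, ∀ k k', Conn H S (u 0) t (k + 1) → Conn H S (u (c + 2)) t (k' + 1) →
      t = u 0 ∨ t = u (c + 2) := by
    intro t ht k k' a b
    obtain ⟨x, a1, a2⟩ := h'.conn hu.s0 ht a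
    obtain ⟨y, b1, b2⟩ := h'.conn hu.s1 ht b
    rcases hu.reach hv hd hd₀ n1 a1 with ⟨j, hj, rfl⟩ | ⟨j, hj, rfl⟩
    · exact (hu.att hj ht a2).imp And.right And.right
    rcases hv.att hj ht a2 with ⟨-, e⟩ | ⟨-, e⟩
    · exact Or.inl (e.trans e1)
    rcases Ch.reach hu.rev hw hd hd₂ n2 b1 with ⟨j, hj, rfl⟩ | ⟨j, hj, rfl⟩
    · rcases Ch.att hu.rev hj ht b2 with ⟨-, e⟩ | ⟨-, e⟩
      exacts [Or.inr e, Or.inl (by simpa using e)]
    · rcases hw.att hj ht b2 with ⟨-, e'⟩ | ⟨-, e'⟩
      exacts [Or.inr (e'.trans e2), Or.inl (e.trans (c3 (e.symm.trans e')))]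
  obtain ⟨q, q0, q1, q2, q3⟩ : ∃ q : ℕ → X, q 0 = u 0 ∧ q (c + 2) = u (c + 2) ∧
      (∀ i ≤ c, q (i + 1) ∈ S) ∧ ∀ i ≤ c + 1, H.Adj (q (i + 1)) (q i) := by
    obtain ⟨x, a1, a2⟩ := f1
    obtain ⟨q, q0, q1, q2⟩ := a1.exists_seq
    have up : ∀ i ≤ c + 1, Function.update q (c + 2) (u (c + 2)) i = q i := fun i hi =>
      Function.update_of_ne (by omega) _ _
    refine ⟨Function.update q (c + 2) (u (c + 2)), by rw [up 0 (by omega), q0], by simp,
      fun i hi => by rw [up _ (by omega)]; exact (q2 i (by omega)).1, fun i hi => ?_⟩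
    rw [up i hi]
    rcases (show i < c + 1 ∨ i = c + 1 by omega) with hi | rfl
    · rw [up (i + 1) hi]; exact (q2 i hi).2
    · rw [Function.update_self, q1]; exact a2
  have fw : ∀ l m j, j + l ≤ c + 1 → Wk H S (u 0) m (q j) → Wk H S (u 0) (m + l) (q (j + l)) := by
    intro l m j
    induction l with
    | zero => exact fun _ a => a
    | succ l ih => exact fun a b => ⟨q2 (j + l) (by omega), _, ih (by omega) b,
        q3 (j + l) (by omega)⟩
  have w0 : ∀ j ≤ c + 1, Wk H S (u 0) j (q j) := fun j hj => by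
    simpa using fw j 0 0 (by omega) q0
  have geo : ∀ m j, j ≤ c → Wk H S (u 0) (m + 1) (q (j + 1)) → j ≤ m := by
    intro m j a b
    have := fw (c - j) (m + 1) (j + 1) (by omega) b
    rw [show j + 1 + (c - j) = c + 1 by omega, show m + 1 + (c - j) = m + (c - j) + 1 by omega]
      at this
    have := f2 _ ⟨_, this, q1 ▸ q3 _ le_rfl⟩
    omega
  have bw : ∀ l ≤ c + 1, Wk H S (u (c + 2)) l (q (c + 2 - l)) := by
    intro l
    induction l with
    | zero => exact fun _ => q1
    | succ l ih =>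
      intro a
      have := q3 (c + 1 - l) (by omega)
      rw [show c + 1 - l + 1 = c + 2 - l by omega] at this
      rw [show c + 2 - (l + 1) = c + 1 - l by omega]
      refine ⟨?_, _, ih (by omega), this.symm⟩
      rw [show c + 1 - l = c - l + 1 by omega]
      exact q2 _ (by omega)
  have qi : ∀ i < c + 1, ∀ j < c + 1, q (i + 1) = q (j + 1) → i = j := fun i a j b e =>
    le_antisymm (geo j i (by omega) (e ▸ w0 (j + 1) (by omega)))
      (geo i j (by omega) (e ▸ w0 (i + 1) (by omega)))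
  have qn : ∀ i < c + 1, q i ≠ q (i + 2) := by
    intro i a e
    have hb : i + 1 < c + 1 ∨ i = c := by omega
    rcases i with _ | i <;> rcases hb with b | b
    · exact hu.s0 (q0 ▸ e ▸ q2 1 (by omega))
    · exact c1 (by rw [← q1, ← q0, e, ← b])
    · have := qi i (by omega) (i + 2) b e
      omega
    · exact hu.s1 (by rw [← q1, ← b, ← e]; exact q2 i (by omega))
  refine hI.not_match hd hu.toPth ⟨fun i hi z => ⟨fun a => ?_, ?_⟩, qn, qi⟩ q0.symm q1.symm
    hu.s0 hu.s1 hu.mem fun i hi => q2 i (by omega)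
  swap
  · rintro (rfl | rfl)
    exacts [q3 i (by omega), (q3 (i + 1) (by omega)).symm]
  by_contra hz
  rw [not_or] at hz
  by_cases hS : z ∈ S
  · have cnt : ∀ j ≤ c + 1, (min j c : ℕ) + (if i < j then (1 : ℝ) else 0) ≤
        bl H S (u 0) (j + 2) (q j) := by
      intro j
      induction j with
      | zero => exact fun _ => by simpa using bl_nonneg _ _ _
      | succ j ih =>
        intro a'
        have ih := ih (by omega)
        have one : ∀ y ∈ S, H.Adj (q (j + 1)) y → 1 ≤ bl H S (u 0) (j + 2) y := fun y b1 b2 =>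
          Wk.one_le (k := j + 2) ⟨b1, _, w0 (j + 1) a', b2.symm⟩
        have t1 : (min (j + 1) c : ℕ) ≤ (min j c : ℕ) + bl H S (u 0) (j + 2) (q (j + 2)) := by
          rcases (show j < c ∨ j = c by omega) with b | rfl
          · have := one _ (q2 (j + 1) b) (q3 (j + 1) a').symm
            rw [min_eq_left b, min_eq_left b.le]
            push_cast
            linarith
          · simpa using bl_nonneg _ _ _
        rw [bl_succ (q2 j (by omega))]
        by_cases e : j = i
        · subst e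
          have := sum_le_ad (F := H) (bl_nonneg (F := H) (S := S) (u 0) (j + 2))
            (x := q (j + 1)) (Z := {z, q j, q (j + 2)}) (by
              simpa using ⟨a, q3 j (by omega), (q3 (j + 1) a').symm⟩)
          rw [sum_insert (by simpa using hz), sum_pair (qn j hi)] at this
          have := one z hS a
          simp only [lt_irrefl, if_false, Nat.lt_succ_self, if_true] at ih ⊢
          linarith
        · have := sum_le_ad (F := H) (bl_nonneg (F := H) (S := S) (u 0) (j + 2))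
            (x := q (j + 1)) (Z := {q j, q (j + 2)}) (by
              simpa using ⟨q3 j (by omega), (q3 (j + 1) a').symm⟩)
          rw [sum_pair (qn j (by omega))] at this
          simp only [show i < j + 1 ↔ i < j by omega]
          linarith
    have a1 := cnt (c + 1) le_rfl
    have a2 := sum_le_ad (F := H) (bl_nonneg (F := H) (S := S) (u 0) (c + 3))
      (x := u (c + 2)) (Z := {q (c + 1)}) (by simpa using q1 ▸ q3 _ le_rfl)
    rw [sum_singleton, f3] at a2
    rw [if_pos hi, min_eq_right (by omega)] at a1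
    linarith
  · have b := bw (c - i + 1) (by omega)
    rw [show c + 2 - (c - i + 1) = i + 1 by omega] at b
    rcases f4 z hS i (c - i) ⟨_, w0 (i + 1) (by omega), a.symm⟩ ⟨_, b, a.symm⟩ with rfl | rfl
    · have := geo 0 i (by omega) ⟨q2 i (by omega), _, rfl, a⟩
      exact hz.1 (by rw [show i = 0 by omega, q0])
    · have := f2 i ⟨_, w0 (i + 1) (by omega), a.symm⟩
      exact hz.2 (by rw [show i = c by omega, q1])

end Pool.Agent.P.MP_f57657_co
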