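import Pool.Agent.P.MP_f57657_co.Zero

/-! Structure of an irreducible switching set. -/

open Finset Relation

namespace Pool.Agent.P.MP_f57657_co

variable {X : Type*} [Fintype X] [DecidableEq X] {F H : SimpleGraph X} {S : Finset X}

/-- The neighbours along edges that meet `S`. -/
noncomputable def kn (F : SimpleGraph X) (S : Finset X) (w : X) : Finset X :=
  if w ∈ S then nbr F univ w else nbr F S w

theorem mem_kn {w z : X} : z ∈ kn F S w ↔ F.Adj w z ∧ (w ∈ S ∨ z ∈ S) := by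
  unfold kn
  split_ifs with h <;> simp [h, and_comm]

/-- Branch vertices. -/
def Br (F : SimpleGraph X) (S : Finset X) (w : X) : Prop := 3 ≤ (kn F S w).card

/-- Plain vertices. -/
def Pl (F : SimpleGraph X) (S : Finset X) (w : X) : Prop := w ∈ S ∧ (nbr F univ w).card = 2

/-- Vertices joined to a branch vertex along edges that meet `S`. -/
def Good (F : SimpleGraph X) (S : Finset X) (w : X) : Prop :=
  ∃ w', ReflTransGen (fun a b => b ∈ kn F S a) w w' ∧ Br F S w'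

/-- The two ends of a chain of plain vertices. -/
def Link (F : SimpleGraph X) (S : Finset X) (a e : X) : Prop :=
  ∃ u d, Chain F (Pl F S) u d ∧ u 0 = a ∧ u (d + 1) = e ∧ u 1 ∈ kn F S a

theorem Good.head {a b : X} (h : Good F S b) (hab : b ∈ kn F S a) : Good F S a :=
  h.imp fun _ h => ⟨h.1.head hab, h.2⟩

theorem chain_last {u : ℕ → X} {d : ℕ} (h : Chain F (Pl F S) u d) (h1 : u 1 ∈ kn F S (u 0)) :
    u d ∈ kn F S (u (d + 1)) := by
  refine mem_kn.2 ⟨(h.toPth.step h.a0 le_rfl).symm, ?_⟩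
  rcases d with _ | d
  exacts [(mem_kn.1 h1).2.symm, Or.inr (h.mem d (by omega)).1]

theorem Link.symm {a e : X} (h : Link F S a e) : Link F S e a := by
  obtain ⟨u, d, h1, rfl, rfl, h2⟩ := h
  exact ⟨_, d, h1.rev, rfl, by simp, chain_last h1 h2⟩

open Classical in
theorem card_link (a : X) : (univ.filter (Link F S a)).card ≤ (kn F S a).card := by
  refine card_le_card_of_forall_subsingleton (fun e b => ∃ u d, Chain F (Pl F S) u d ∧ u 0 = a ∧
    u (d + 1) = e ∧ u 1 = b) (fun e he => ?_) fun b _ e he e' he' => ?_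
  · obtain ⟨u, d, h1, h2, h3, h4⟩ := (mem_filter.1 he).2
    exact ⟨_, h4, u, d, h1, h2, h3, rfl⟩
  · obtain ⟨u, d, h1, h2, rfl, h4⟩ := he.2
    obtain ⟨v, d', g1, g2, rfl, g4⟩ := he'.2
    obtain ⟨rfl, h⟩ := h1.unique g1 (h2.trans g2.symm) (h4.trans g4.symm)
    exact h _ le_rfl

theorem not_good {A I : X → Prop} (hA : ∀ a, A a → a ∉ S ∧ (nbr F S a).card = 2 ∧
    ∀ z ∈ S, F.Adj a z → I z) (hI : ∀ x, I x → Pl F S x ∧ ∀ y, F.Adj x y → I y ∨ A y) {t : X}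
    (ht : A t) : ¬Good F S t := by
  rintro ⟨w, h1, h2⟩
  have : I w ∨ A w := by
    clear h2
    induction h1 with
    | refl => exact Or.inr ht
    | tail _ h ih =>
      rcases ih with ih | ih
      · exact (hI _ ih).2 _ (mem_kn.1 h).1
      · exact Or.inl ((hA _ ih).2.2 _ ((mem_kn.1 h).2.resolve_left (hA _ ih).1) (mem_kn.1 h).1)
  rw [Br, kn] at h2
  rcases this with h | h
  · rw [if_pos (hI _ h).1.1, (hI _ h).1.2] at h2; omega
  · rw [if_neg (hA _ h).1, (hA _ h).2.1] at h2; omega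

omit [DecidableEq X] in
theorem chain_in {u : ℕ → X} {d : ℕ} (h : Chain F (Pl F S) u d) {x : X}
    (hx : ∃ i < d, x = u (i + 1)) : Pl F S x ∧ ∀ y, F.Adj x y →
      (∃ i < d, y = u (i + 1)) ∨ y = u 0 ∨ y = u (d + 1) := by
  obtain ⟨i, hi, rfl⟩ := hx
  refine ⟨h.mem i hi, fun y hy => ?_⟩
  rcases (h.adj i hi y).1 hy with rfl | rfl
  · rcases i with _ | i
    exacts [Or.inr (Or.inl rfl), Or.inl ⟨i, by omega, rfl⟩]
  · rcases (show i + 1 < d ∨ i + 1 = d by omega) with a | rfl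
    exacts [Or.inl ⟨i + 1, a, rfl⟩, Or.inr (Or.inr rfl)]

theorem Irr.next (hI : Irr F H S) (hm : ∀ x, 2 ≤ (nbr F univ x).card) {t b : X} (ht : t ∉ S)
    (hb : b ∈ S) (hab : F.Adj t b) (hn : ¬∃ w, Br F S w ∧ Link F S w t) :
    ∃ u d, Chain F (Pl F S) u d ∧ Ch F S u d ∧ u 0 = t ∧ u 1 = b ∧ 0 < d ∧
      (nbr F S (u (d + 1))).card = 2 ∧ Link F S (u (d + 1)) t := by
  obtain ⟨u, d, h, rfl, rfl⟩ := exists_chain (P := Pl F S) (fun _ h => h.2) (fun h => ht h.1) hab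
  have k1 : u 1 ∈ kn F S (u 0) := mem_kn.2 ⟨hab, Or.inr hb⟩
  have hl : Link F S (u (d + 1)) (u 0) := Link.symm ⟨u, d, h, rfl, rfl, k1⟩
  have hB : ¬3 ≤ (kn F S (u (d + 1))).card := fun a => hn ⟨_, a, hl⟩
  have hS : u (d + 1) ∉ S := fun a => by
    rw [kn, if_pos a] at hB
    exact h.s1 ⟨a, by have := hm (u (d + 1)); omega⟩
  have k2 := card_pos.2 ⟨_, chain_last h k1⟩
  rw [kn, if_neg hS] at hB k2
  have := hI.ne_one hS
  exact ⟨u, d, h, ⟨h.toPth, fun i hi => (h.mem i hi).1, ht, hS, h.a0⟩, rfl, rfl,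
    Nat.pos_of_ne_zero fun e => hS (by rw [e]; exact hb), by omega, hl⟩

theorem Irr.near (hI : Irr F H S) (hm : ∀ x, 2 ≤ (nbr F univ x).card) {t : X} (ht : t ∉ S)
    (hg : Good F S t) (h2 : (nbr F S t).card = 2) : (∃ w, Br F S w ∧ Link F S w t) ∨
      ∃ a ∉ S, (nbr F S a).card = 2 ∧ (∃ w, Br F S w ∧ Link F S w a) ∧ Link F S a t := by
  by_contra hc
  rw [not_or] at hc
  obtain ⟨b, hb⟩ := card_pos.1 (show 0 < (nbr F S t).card by omega)
  obtain ⟨b1, b2⟩ := mem_nbr.1 hb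
  obtain ⟨b', y0, y1, y2, n1⟩ := exists_other h2 b1 b2
  obtain ⟨u, d, u1, u2, rfl, rfl, hd, u3, u4⟩ := hI.next hm ht b1 b2 hc.1
  obtain ⟨v, d₀, v1, v2, e1, rfl, hd₀, v3, -⟩ := hI.next hm ht y0 y2 hc.1
  have last : ∀ {u : ℕ → X} {d : ℕ}, Ch F S u d → 0 < d →
      u d ∈ S ∧ F.Adj (u (d + 1)) (u d) ∧ ∃ i < d, u d = u (i + 1) := by
    intro u d h hd
    obtain ⟨c, rfl⟩ : ∃ c, d = c + 1 := ⟨d - 1, by omega⟩
    exact ⟨h.mem c (by omega), (h.toPth.step h.a0 le_rfl).symm, c, by omega, rfl⟩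
  obtain ⟨l1, l2, l3⟩ := last u2 hd
  obtain ⟨m1, m2, m3⟩ := last v2 hd₀
  obtain ⟨b'', z0, z1, z2, n2⟩ := exists_other u3 l1 l2
  obtain ⟨w, d₂, w1, w2, e2, rfl, hd₂, w3, -⟩ := hI.next hm u2.s1 z0 z2
    fun a => hc.2 ⟨_, u2.s1, u3, a, u4⟩
  obtain ⟨o1, o2, o3⟩ := last w2 hd₂
  by_cases c1 : u (d + 1) = u 0
  · refine not_good (A := (· = u 0)) (I := fun x => ∃ i < d, x = u (i + 1)) ?_
      (fun x hx => ⟨(chain_in u1 hx).1, fun y hy => ((chain_in u1 hx).2 y hy).imp_right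
        fun a => a.elim id (·.trans c1)⟩) rfl hg
    rintro _ rfl
    refine ⟨ht, h2, fun z hz ha => ?_⟩
    have ne : u 1 ≠ u d := by
      rcases d with _ | _ | d
      · omega
      · exact absurd c1.symm (u1.ne 0 one_pos)
      · exact fun e => by have := u1.inj 0 hd (d + 1) (by omega) e; omega
    rcases n2 z hz (c1 ▸ ha) with rfl | rfl
    · exact l3
    · exact ⟨0, hd, ((n2 _ b1 (c1 ▸ b2)).resolve_left ne).symm⟩
  by_cases c2 : v (d₀ + 1) = u (d + 1)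
  · have ne : v d₀ ≠ u d := fun e => by
      obtain ⟨rfl, a⟩ := v1.rev.unique u1.rev c2 e
      exact y1 (by simpa using a d₀ (by omega))
    refine not_good (A := fun a => a = u 0 ∨ a = u (d + 1))
      (I := fun x => (∃ i < d, x = u (i + 1)) ∨ ∃ i < d₀, x = v (i + 1)) ?_ ?_ (Or.inl rfl) hg
    · rintro _ (rfl | rfl)
      · exact ⟨ht, h2, fun z hz ha => (n1 z hz ha).imp (fun e => ⟨0, hd, e⟩) fun e => ⟨0, hd₀, e⟩⟩
      · refine ⟨u2.s1, u3, fun z hz ha => (n2 z hz ha).imp (fun e => by rw [e]; exact l3) fun e => ?_⟩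
        rw [e, ← (n2 _ m1 (c2 ▸ m2)).resolve_left ne]
        exact m3
    · rintro x (hx | hx)
      · exact ⟨(chain_in u1 hx).1, fun y hy => ((chain_in u1 hx).2 y hy).imp_left Or.inl⟩
      · exact ⟨(chain_in v1 hx).1, fun y hy => ((chain_in v1 hx).2 y hy).imp Or.inr
          (Or.imp (·.trans e1) (·.trans c2))⟩
  refine hI.three u2 v2 w2 hd hd₀ hd₂ n1 n2 e1 e2 c1 c2 fun c3 => ?_
  exfalso
  have ne : w d₂ ≠ v d₀ := fun e => by
    obtain ⟨rfl, a⟩ := v1.rev.unique w1.rev c3 e.symm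
    exact c1 (by simpa [e1, e2] using (a (d₀ + 1) le_rfl).symm)
  obtain ⟨y, -, -, -, n3⟩ := exists_other v3 m1 m2
  refine not_good (A := fun a => a = u 0 ∨ a = u (d + 1) ∨ a = v (d₀ + 1))
    (I := fun x => (∃ i < d, x = u (i + 1)) ∨ (∃ i < d₀, x = v (i + 1)) ∨
      ∃ i < d₂, x = w (i + 1)) ?_ ?_ (Or.inl rfl) hg
  · rintro _ (rfl | rfl | rfl)
    · exact ⟨ht, h2, fun z hz ha => (n1 z hz ha).imp (fun e => ⟨0, hd, e⟩)
        fun e => Or.inl ⟨0, hd₀, e⟩⟩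
    · exact ⟨u2.s1, u3, fun z hz ha => (n2 z hz ha).imp (fun e => by rw [e]; exact l3)
        fun e => Or.inr ⟨0, hd₂, e⟩⟩
    · refine ⟨v2.s1, v3, fun z hz ha => Or.inr ((n3 z hz ha).imp (fun e => by rw [e]; exact m3) fun e => ?_)⟩
      rw [e, ← (n3 _ o1 (c3 ▸ o2)).resolve_left ne]
      exact o3
  · rintro x (hx | hx | hx)
    · exact ⟨(chain_in u1 hx).1, fun y hy => ((chain_in u1 hx).2 y hy).imp Or.inl
        (Or.imp_right Or.inl)⟩
    · exact ⟨(chain_in v1 hx).1, fun y hy => ((chain_in v1 hx).2 y hy).imp (Or.inr ∘ Or.inl)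
        (Or.imp (·.trans e1) Or.inr)⟩
    · exact ⟨(chain_in w1 hx).1, fun y hy => ((chain_in w1 hx).2 y hy).imp (Or.inr ∘ Or.inr)
        fun a => Or.inr (a.imp (·.trans e2) (·.trans c3.symm))⟩

/-- A set without private neighbours, with positive excess and few roots. -/
def Alpha (F : SimpleGraph X) (T : Finset X) : Prop :=
  T.Nonempty ∧ (∀ t ∉ T, (nbr F T t).card ≠ 1) ∧ ∃ Rt ⊆ T, ∃ E : ℕ, 1 ≤ E ∧ Rt.card ≤ 22 * E ∧
    2 * T.card + E ≤ ∑ u ∈ T, (nbr F T u).card + 2 * ∑ t ∈ Tᶜ, ((nbr F T t).card - 1) ∧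
    ∀ u ∈ T, ∃ r ∈ Rt, ReflTransGen (fun a b => F.Adj a b ∧ a ∈ T ∧ b ∈ T) u r

theorem Irr.alpha (hI : Irr F H S) (hm : ∀ x, 2 ≤ (nbr F univ x).card) {u₀ : X} (h0 : u₀ ∈ S)
    (hg : Good F S u₀) : ∃ T ⊆ S, Alpha F T := by
  classical
  set T := S.filter (Good F S) with hT
  have mT : ∀ u, u ∈ T ↔ u ∈ S ∧ Good F S u := fun u => mem_filter
  have a1 : ∀ t, ¬Good F S t → nbr F T t = ∅ := fun t ht => eq_empty_of_forall_notMem fun u hu =>
    ht (((mT u).1 (mem_nbr.1 hu).1).2.head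
      (mem_kn.2 ⟨(mem_nbr.1 hu).2, Or.inr ((mT u).1 (mem_nbr.1 hu).1).1⟩))
  have a2 : ∀ t, Good F S t → nbr F T t = nbr F S t := fun t ht => ext fun u => by
    simp only [mem_nbr, mT]
    exact ⟨fun h => ⟨h.1.1, h.2⟩, fun h => ⟨⟨h.1, ht.head (mem_kn.2 ⟨h.2.symm, Or.inl h.1⟩)⟩, h.2⟩⟩
  have a3 : ∀ t ∉ T, (nbr F T t).card ≠ 1 := fun t ht => by
    by_cases h : Good F S t
    · rw [a2 t h]; exact hI.ne_one fun h' => ht ((mT t).2 ⟨h', h⟩)
    · rw [a1 t h]; simp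
  set E := ∑ u ∈ T, ((nbr F univ u).card - 2) + ∑ t ∈ Tᶜ, ((nbr F T t).card - 2) with hE
  set B := univ.filter (Br F S) with hB
  have b0 : ∀ w, w ∈ B ↔ Br F S w := fun w => by simp [hB]
  have b1 : ∑ w ∈ B, ((kn F S w).card - 2) ≤ E := by
    have : E = ∑ w, if w ∈ T then (nbr F univ w).card - 2 else (nbr F T w).card - 2 := by
      rw [hE, ← sum_add_sum_compl T]
      congr 1
      exacts [sum_congr rfl fun w h => (if_pos h).symm,
        sum_congr rfl fun w h => (if_neg (mem_compl.1 h)).symm]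
    rw [this]
    refine le_trans (le_of_eq (sum_congr rfl fun w hw => ?_)) (sum_le_sum_of_subset (subset_univ B))
    have g : Good F S w := ⟨w, .refl, (b0 w).1 hw⟩
    by_cases h : w ∈ S
    · rw [kn, if_pos h, if_pos ((mT w).2 ⟨h, g⟩)]
    · rw [kn, if_neg h, if_neg fun h' => h ((mT w).1 h').1, a2 w g]
  have b2 : B.card ≤ E := by
    rw [card_eq_sum_ones]
    exact (sum_le_sum fun w hw => by have : 3 ≤ _ := (b0 w).1 hw; omega).trans b1
  have b3 : ∑ w ∈ B, (kn F S w).card ≤ 3 * E := by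
    refine le_trans ?_ (Nat.mul_le_mul_left 3 b1)
    rw [mul_sum]
    exact sum_le_sum fun w hw => by have : 3 ≤ _ := (b0 w).1 hw; omega
  set N := B.biUnion fun w => univ.filter (Link F S w) with hN
  have c1 : N.card ≤ 3 * E := card_biUnion_le.trans ((sum_le_sum fun w _ => card_link w).trans b3)
  set C := univ.filter fun t => t ∉ S ∧ Good F S t ∧ (nbr F S t).card = 2 with hC
  have c2 : C.card ≤ 9 * E := by
    have : C ⊆ N ∪ (N.filter fun a => a ∉ S ∧ (nbr F S a).card = 2).biUnion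
        fun a => univ.filter (Link F S a) := by
      intro t ht
      obtain ⟨-, t1, t2, t3⟩ := mem_filter.1 ht
      have hN' : ∀ a, (∃ w, Br F S w ∧ Link F S w a) → a ∈ N := fun a ⟨w, x, y⟩ =>
        mem_biUnion.2 ⟨w, (b0 w).2 x, by simpa using y⟩
      rcases hI.near hm t1 t2 t3 with h | ⟨a, x1, x2, x3, x4⟩
      · exact mem_union_left _ (hN' t h)
      · exact mem_union_right _ (mem_biUnion.2 ⟨a, mem_filter.2 ⟨hN' a x3, x1, x2⟩,
          by simpa using x4⟩)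
    refine (card_le_card this).trans ((card_union_le _ _).trans ?_)
    have := (card_biUnion_le_card_mul (N.filter fun a => a ∉ S ∧ (nbr F S a).card = 2)
      (fun a => univ.filter (Link F S a)) 2 fun a ha => (card_link a).trans (by
        rw [kn, if_neg (mem_filter.1 ha).2.1, (mem_filter.1 ha).2.2])).trans
      (Nat.mul_le_mul_right 2 (card_filter_le _ _))
    omega
  refine ⟨T, filter_subset _ _, ⟨u₀, (mT _).2 ⟨h0, hg⟩⟩, a3,
    T.filter fun u => Br F S u ∨ ∃ t ∉ S, F.Adj t u, filter_subset _ _, E, ?_, ?_, ?_, ?_⟩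
  · obtain ⟨w, -, hw⟩ := hg
    exact (card_pos.2 ⟨w, (b0 w).2 hw⟩).trans_le b2
  · have : (T.filter fun u => Br F S u ∨ ∃ t ∉ S, F.Adj t u) ⊆
        B ∪ B.biUnion (kn F S) ∪ C.biUnion (nbr F S) := by
      intro u hu
      obtain ⟨u1, h | ⟨t, t1, t2⟩⟩ := mem_filter.1 hu
      · exact mem_union_left _ (mem_union_left _ ((b0 u).2 h))
      · obtain ⟨u2, u3⟩ := (mT u).1 u1
        have k : u ∈ kn F S t := mem_kn.2 ⟨t2, Or.inr u2⟩
        by_cases h : Br F S t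
        · exact mem_union_left _ (mem_union_right _ (mem_biUnion.2 ⟨t, (b0 t).2 h, k⟩))
        · refine mem_union_right _ (mem_biUnion.2 ⟨t, mem_filter.2 ⟨mem_univ _, t1, u3.head k, ?_⟩,
            mem_nbr.2 ⟨u2, t2⟩⟩)
          have := card_pos.2 ⟨u, mem_nbr.2 ⟨u2, t2⟩⟩
          have := hI.ne_one t1
          rw [Br, kn, if_neg t1] at h
          omega
    have d1 := (card_le_card this).trans ((card_union_le _ _).trans
      (Nat.add_le_add_right (card_union_le _ _) _))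
    have d2 : (B.biUnion (kn F S)).card ≤ 3 * E := card_biUnion_le.trans b3
    have d3 := card_biUnion_le_card_mul C (nbr F S) 2 fun a ha => (mem_filter.1 ha).2.2.2.le
    omega
  · have e1 : ∑ u ∈ T, (nbr F univ u).card =
        ∑ u ∈ T, (nbr F T u).card + ∑ t ∈ Tᶜ, (nbr F T t).card := by
      rw [← sum_nbr_comm T Tᶜ, ← sum_add_distrib]
      exact sum_congr rfl fun u _ => card_nbr_compl T u
    have e2 : ∑ u ∈ T, (nbr F univ u).card = 2 * T.card + ∑ u ∈ T, ((nbr F univ u).card - 2) := by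
      rw [card_eq_sum_ones, mul_sum, ← sum_add_distrib]
      exact sum_congr rfl fun u _ => by have := hm u; omega
    have e3 : 2 * ∑ t ∈ Tᶜ, ((nbr F T t).card - 1) =
        ∑ t ∈ Tᶜ, (nbr F T t).card + ∑ t ∈ Tᶜ, ((nbr F T t).card - 2) := by
      rw [mul_sum, ← sum_add_distrib]
      exact sum_congr rfl fun t ht => by have := a3 t (mem_compl.1 ht); omega
    omega
  · intro u hu
    obtain ⟨u1, w, h1, h2⟩ := (mT u).1 hu
    clear hu
    induction h1 using ReflTransGen.head_induction_on with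
    | refl => exact ⟨w, mem_filter.2 ⟨(mT w).2 ⟨u1, w, .refl, h2⟩, Or.inl h2⟩, .refl⟩
    | @head a b hab hb ih =>
      have ha : a ∈ T := (mT a).2 ⟨u1, w, hb.head hab, h2⟩
      by_cases h : b ∈ S
      · obtain ⟨r, r1, r2⟩ := ih h
        exact ⟨r, r1, r2.head ⟨(mem_kn.1 hab).1, ha, (mT b).2 ⟨h, w, hb, h2⟩⟩⟩
      · exact ⟨a, mem_filter.2 ⟨ha, Or.inr ⟨b, h, (mem_kn.1 hab).1.symm⟩⟩, .refl⟩

omit [Fintype X] in
theorem exists_union {τ : Type*} (J : Finset τ) (R : τ → Finset X) {L : ℕ}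
    (h1 : ∀ j ∈ J, (R j).card ≤ L) (h2 : L ≤ (J.biUnion R).card) :
    ∃ J' ⊆ J, L ≤ (J'.biUnion R).card ∧ (J'.biUnion R).card ≤ 2 * L := by
  classical
  induction J using Finset.induction_on with
  | empty => exact ⟨∅, Subset.rfl, h2, by simp⟩
  | insert j J hj ih =>
    by_cases h : L ≤ (J.biUnion R).card
    · obtain ⟨J', a1, a2⟩ := ih (fun i hi => h1 i (mem_insert_of_mem hi)) h
      exact ⟨J', a1.trans (subset_insert _ _), a2⟩
    · refine ⟨_, Subset.rfl, h2, ?_⟩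
      rw [biUnion_insert]
      have := card_union_le (R j) (J.biUnion R)
      have := h1 j (mem_insert_self _ _)
      omega

/-- A fragile condition holds for all rows. -/
def Beta (F : SimpleGraph X) (S : Finset X) (k : ℕ) : Prop :=
  ∃ R ⊆ S, k ≤ R.card ∧ R.card ≤ 2 * k ∧ ((∀ t ∉ S, (nbr F R t).card ≠ 1) ∨
    ∃ ρ : X → ℝ, (∀ u ∈ R, ¬∃ m : ℤ, ρ u = m) ∧
      ∀ t ∉ S, ∑ u ∈ nbr F S t, ρ u = 0 ∨ ∑ u ∈ nbr F S t, ρ u = 1)

theorem Irr.beta (hI : Irr F H S) {k : ℕ} (hk : 1 ≤ k) (hS : k ≤ S.card) : Beta F S k := by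
  classical
  obtain ⟨Φ, h⟩ := hI.1
  obtain ⟨Ψ, h', a1, a2⟩ := h.symm
  have off : ∀ i ∈ S, ∀ t ∉ S, Ψ (uv i) t = 0 := fun i hi t ht => by
    rw [h'.off _ ht, uv_apply, if_neg fun e : t = i => ht (e ▸ hi)]
  have nrm : ∀ i, ∑ u, Ψ (uv i) u * Ψ (uv i) u = 1 := fun i => by
    have := h'.dot (uv i) (uv i)
    rw [uv_dot, uv_apply, if_pos rfl] at this
    exact this
  have val : ∀ i ∈ S, ∀ t ∉ S, ∑ u ∈ nbr F S t, Ψ (uv i) u = 0 ∨
      ∑ u ∈ nbr F S t, Ψ (uv i) u = 1 := by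
    intro i hi t ht
    have : ∑ u ∈ nbr F S t, Ψ (uv i) u = ad H (uv i) t := by
      rw [← h'.off (ad H _) ht, h'.com, ad_apply]
      exact sum_subset (fun u hu => mem_nbr.2 ⟨mem_univ _, (mem_nbr.1 hu).2⟩) fun u u1 u2 =>
        off i hi u fun a => u2 (mem_nbr.2 ⟨a, (mem_nbr.1 u1).2⟩)
    rw [this, ad_uv]
    split_ifs <;> simp
  have big : ∀ i u, 1 ≤ Ψ (uv i) u * Ψ (uv i) u → ∀ u' ≠ u, Ψ (uv i) u' = 0 := by
    intro i u a u' b
    have := sum_le_sum_of_subset_of_nonneg (f := fun u => Ψ (uv i) u * Ψ (uv i) u)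
      (subset_univ {u', u}) fun x _ _ => mul_self_nonneg _
    rw [nrm, sum_pair b] at this
    exact mul_self_eq_zero.1 (le_antisymm (by linarith) (mul_self_nonneg _))
  let R : X → Finset X := fun i => S.filter fun u => Ψ (uv i) u ≠ 0
  by_cases hb : ∃ i ∈ S, k < (R i).card
  · obtain ⟨i, hi, hb⟩ := hb
    obtain ⟨R₀, r1, r2⟩ := exists_subset_card_eq hb.le
    refine ⟨R₀, r1.trans (filter_subset _ _), r2.ge, by omega, Or.inr ⟨Ψ (uv i), ?_, val i hi⟩⟩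
    rintro u hu ⟨m, hm⟩
    obtain ⟨u', b1, b2⟩ := exists_mem_ne (show 1 < (R i).card by omega) u
    have m0 : m ≠ 0 := fun e => (mem_filter.1 (r1 hu)).2 (by simp [hm, e])
    refine (mem_filter.1 b1).2 (big i u ?_ u' b2)
    rw [hm]
    exact_mod_cast (show 1 ≤ m * m from Int.add_one_le_of_lt (mul_self_pos.2 m0))
  · obtain ⟨J, j1, j2, j3⟩ := exists_union S R (L := k)
      (fun i hi => le_of_not_gt fun a => hb ⟨i, hi, a⟩) (hS.trans (card_le_card fun u hu => by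
        by_contra hc
        have : Φ (uv u) = 0 := funext fun i => by
          by_cases hi : i ∈ S
          · by_contra a
            refine hc (mem_biUnion.2 ⟨i, hi, mem_filter.2 ⟨hu, fun b => a ?_⟩⟩)
            rw [← dot_uv (Φ _), ← h'.dot, a1, uv_dot, b, Pi.zero_apply]
          · rw [h.off _ hi, uv_apply, if_neg fun e : i = u => hi (e ▸ hu), Pi.zero_apply]
        have b := h.dot (uv u) (uv u)
        simp [this, uv_apply] at b))
    refine ⟨_, biUnion_subset.2 fun i _ => filter_subset _ _, j2, j3, Or.inl fun t ht e => ?_⟩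
    obtain ⟨u, hu⟩ := card_eq_one.1 e
    obtain ⟨u1, u2⟩ := mem_nbr.1 (hu ▸ mem_singleton_self u)
    obtain ⟨i, i1, i2⟩ := mem_biUnion.1 u1
    obtain ⟨i3, i4⟩ := mem_filter.1 i2
    have s : ∑ x ∈ nbr F S t, Ψ (uv i) x = Ψ (uv i) u :=
      sum_eq_single_of_mem u (mem_nbr.2 ⟨i3, u2⟩) fun x x1 x2 => by
        by_contra a
        exact x2 (mem_singleton.1 (hu ▸ mem_nbr.2 ⟨mem_biUnion.2 ⟨i, i1,
          mem_filter.2 ⟨(mem_nbr.1 x1).1, a⟩⟩, (mem_nbr.1 x1).2⟩))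
    have one : Ψ (uv i) u = 1 := (s ▸ val i (j1 i1) t ht).resolve_left i4
    refine hI.symm.2 Ψ h' i (j1 i1) u i3 (funext fun x => ?_)
    rw [uv_apply]
    split_ifs with a
    exacts [a ▸ one, big i u (by rw [one]; norm_num) x a]

/-- The deterministic part. -/
theorem det {Φ : (X → ℝ) →ₗ[ℝ] (X → ℝ)} (h : Sw F H S Φ) (hc : F.Preconnected)
    (hm : ∀ x, 2 ≤ (nbr F univ x).card) (hn : ¬Nonempty (H ≃g F)) : ∃ S' ⊆ S, S'.Nonempty ∧
      (∃ T ⊆ S', Alpha F T) ∧ ∀ k, 1 ≤ k → k ≤ S'.card → Beta F S' k := by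
  obtain ⟨S', a1, H', a2, ⟨i⟩, hI⟩ := (exists_irr h).resolve_left hn
  refine ⟨S', a1, a2, ?_, fun k => hI.beta⟩
  by_cases hg : ∃ u ∈ S', Good F S' u
  · obtain ⟨u, u1, u2⟩ := hg
    exact hI.alpha hm u1 u2
  · refine (hI.zero hc a2 ⟨fun u hu => ?_, fun t ht => ?_⟩).elim
      fun j => absurd ⟨i.symm.trans j⟩ hn
    · have : ¬Br F S' u := fun a => hg ⟨u, hu, u, .refl, a⟩
      rw [Br, kn, if_pos hu] at this
      have := hm u
      omega
    · by_contra hc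
      have := hI.ne_one ht
      obtain ⟨u, hu⟩ := card_pos.1 (show 0 < (nbr F S' t).card by omega)
      refine hg ⟨u, (mem_nbr.1 hu).1, Good.head ⟨t, .refl, ?_⟩
        (mem_kn.2 ⟨(mem_nbr.1 hu).2.symm, Or.inl (mem_nbr.1 hu).1⟩)⟩
      rw [Br, kn, if_neg ht]
      omega

end Pool.Agent.P.MP_f57657_co
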