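import Pool.Agent.P.MP_f57657_co.Trans

/-! Choice of the parameters and the limit. -/

open Finset Matrix

namespace Pool.Agent.P.MP_f57657_co

theorem IsSwitching.sw {X : Type*} [Finite X] [Fintype X] [DecidableEq X] {F H : SimpleGraph X}
    {m : ℝ} (h : IsSwitching F H m) : ∃ S Φ, (S.card : ℝ) ≤ m ∧ Sw F H S Φ := by
  obtain rfl : ‹Fintype X› = Fintype.ofFinite X := Subsingleton.elim _ _
  obtain rfl : ‹DecidableEq X› = fun a b => Classical.propDecidable (a = b) :=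
    Subsingleton.elim _ _
  classical
  let := Fintype.ofFinite X
  obtain ⟨S, U, h1, h2, h3, h4⟩ := h
  have h5 : U * Uᵀ = 1 := mul_eq_one_comm.1 h2
  have h6 : ∀ (G : SimpleGraph X) v, ad G v = G.adjMatrix ℝ *ᵥ v := fun G v => by
    funext i
    simp [ad_ite, mulVec, dotProduct]
  refine ⟨S, Uᵀ.mulVecLin, h1, fun v w => ?_, fun t ht => ?_, fun v => ?_⟩
  · rw [mulVecLin_apply, mulVecLin_apply, mulVec_transpose, ← dotProduct_mulVec, mulVec_mulVec, h5,
      one_mulVec]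
  · have : U *ᵥ uv t = uv t := by
      funext i
      rw [mulVec, dot_uv, h3 t ht, uv_apply]
    rw [mulVecLin_apply, ← this, mulVec_mulVec, h2, one_mulVec, this]
  · rw [mulVecLin_apply, mulVecLin_apply, h6, h6, h4, mulVec_mulVec, mulVec_mulVec,
      Matrix.mul_assoc _ U, h5, Matrix.mul_one]

variable {V : Type*} [Fintype V] [DecidableEq V]

open MeasureTheory in
theorem real_le_Pr (p : unitInterval) (A : Set (SimpleGraph V)) :
    (SimpleGraph.binomialRandom V p).real A ≤ Pr p fun ω => gr ω ∈ A := by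
  classical
  set D : Finset (Sym2 V) := univ.filter fun e => ¬e.IsDiag with hD
  have h1 : ∀ G : SimpleGraph V, (SimpleGraph.binomialRandom V p).real {G} =
      Ex p fun ω => ∏ e ∈ D, if (ω e = true ↔ e ∈ G.edgeSet) then 1 else 0 := by
    intro G
    rw [Ex_prod D fun e b => if (b = true ↔ e ∈ G.edgeSet) then 1 else 0,
      prod_congr rfl (g := fun e => if e ∈ G.edgeSet then (p : ℝ) else 1 - p)
        fun e _ => by by_cases h : e ∈ G.edgeSet <;> simp [h],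
      prod_ite, prod_const, prod_const, measureReal_def, SimpleGraph.binomialRandom_apply',
      Set.image_singleton, ← measureReal_def, ProbabilityTheory.setBernoulli_real_singleton p
        G.edgeSet_subset_compl_diagSet (Set.toFinite _), ← Set.ncard_coe_finset,
      ← Set.ncard_coe_finset]
    congr 3
    · ext e
      simpa [hD] using G.not_isDiag_of_mem_edgeSet
    · ext e
      simp [hD]
  have h2 := measureReal_biUnion_finset_le (μ := SimpleGraph.binomialRandom V p)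
    (Set.toFinite A).toFinset fun G => {G}
  simp only [Set.Finite.mem_toFinset, Set.biUnion_of_singleton, h1] at h2
  refine h2.trans ?_
  rw [← Ex_sum]
  refine Ex_mono p.2.1 p.2.2 fun ω => ?_
  refine (sum_le_sum (g := fun G => if gr ω = G then 1 else 0) fun G _ => ?_).trans ?_
  · rw [prod_boole]
    split_ifs with a b
    any_goals norm_num
    refine b (SimpleGraph.ext (funext₂ fun u v => propext ?_))
    rw [gr_adj, ← G.mem_edgeSet]
    by_cases e : u = v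
    · simp [e]
    · simpa [e] using a s(u, v) (by simpa [hD] using e)
  · rw [sum_ite_eq]
    simp only [Set.Finite.mem_toFinset, le_refl]

theorem exists_theta {a : ℝ} (ha : 1 < a) : ∃ θ : ℝ, 0 < θ ∧ θ ≤ 1 / 8 ∧
    ∀ l, a ≤ l → Real.exp 1 * l ≤ Real.exp ((1 - 8 * θ) * l) := by
  have h0 : 0 < a := by linarith
  have h1 := Real.log_lt_sub_one_of_pos h0 ha.ne'
  have h2 := Real.log_pos ha
  refine ⟨(a - 1 - Real.log a) / a / 8, by have := sub_pos.2 h1; positivity,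
    by rw [div_le_div_iff_of_pos_right (by norm_num), div_le_one h0]; linarith, fun l hl => ?_⟩
  have h3 : 0 < l := by linarith
  have h4 := Real.log_le_sub_one_of_pos (div_pos h3 h0)
  rw [Real.log_div h3.ne' h0.ne'] at h4
  have h5 : 1 ≤ l / a := (one_le_div h0).2 hl
  have h6 : (1 - 8 * ((a - 1 - Real.log a) / a / 8)) * l = l / a + Real.log a * (l / a) := by
    field_simp
    ring
  rw [h6]
  conv_lhs => rw [← Real.exp_log h3, ← Real.exp_add]
  exact Real.exp_le_exp.2 (by nlinarith)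

theorem exists_small {c : ℝ} (hc : 0 < c) : ∃ b d : ℝ, 0 < b ∧ b ≤ 1 ∧ 0 < d ∧
    ∀ k n : ℝ, 0 ≤ n → k ≤ d * n → k * (1 - Real.log b) + b * n ≤ c * n := by
  have h0 : 0 < min (c / 2) 1 := by positivity
  have h1 : 0 < 1 - Real.log (min (c / 2) 1) := by
    have := Real.log_nonpos h0.le (min_le_right _ _)
    linarith
  refine ⟨min (c / 2) 1, c / 2 / (1 - Real.log (min (c / 2) 1)), h0, min_le_right _ _,
    by positivity, fun k n hn hk => ?_⟩
  rw [div_mul_eq_mul_div, le_div_iff₀ h1] at hk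
  have := mul_le_mul_of_nonneg_right (min_le_left (c / 2) 1) hn
  linarith

theorem lin_exp {c n x : ℝ} (hc : 0 < c) (hn : 1 ≤ n) (hx : x ≤ 1 - c * n) :
    (n + 1) * Real.exp x ≤ 12 / c ^ 2 / n := by
  have h1 : (c * n) ^ 2 / 2 ≤ Real.exp (c * n) := by
    simpa using Real.pow_div_factorial_le_exp (c * n) (by positivity) 2
  have h2 : Real.exp x * Real.exp (c * n) ≤ 3 := by
    rw [← Real.exp_add]
    exact (Real.exp_le_exp.2 (by linarith)).trans (Real.exp_one_lt_three.le)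
  have h3 := Real.exp_pos x
  have h4 : Real.exp x * ((c * n) ^ 2 / 2) ≤ 3 := (mul_le_mul_of_nonneg_left h1 h3.le).trans h2
  rw [le_div_iff₀ (by positivity), le_div_iff₀ (by positivity)]
  have h5 : (n + 1) * n ≤ 2 * n ^ 2 := by nlinarith
  nlinarith [mul_le_mul_of_nonneg_left h5 (mul_nonneg h3.le (sq_nonneg c))]

/-- Every small switching of the 2-core of a component is isomorphic to it. -/
def Rigid (G : SimpleGraph V) (m : ℝ) : Prop :=
  ∀ (c : G.ConnectedComponent) (H : SimpleGraph (core2 G c.supp)),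
    IsSwitching (G.induce (core2 G c.supp)) H m → Nonempty (H ≃g G.induce (core2 G c.supp))

theorem Pr_bad {a : ℝ} (ha : 1 < a) : ∃ δ C : ℝ, 0 < δ ∧ ∀ (n : ℕ) (p : ℝ), a ≤ n * p →
    p ≤ 1 / 2 → Pr p (fun ω : Sym2 (Fin n) → Bool => ¬Rigid (gr ω) (δ * n)) ≤ C / n := by
  obtain ⟨θ, t0, t1, t2⟩ := exists_theta ha
  obtain ⟨η, hη⟩ : ∃ η, η = θ ^ (2 * 44 + 1) := ⟨_, rfl⟩
  have e0 : 0 < η := by rw [hη]; positivity
  have e1 : η ≤ θ := by rw [hη]; exact pow_le_of_le_one t0.le (by linarith) (by norm_num)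
  obtain ⟨b₀, d₀, x0, x1, x2, x3⟩ := exists_small (c := θ * η / 2) (by positivity)
  obtain ⟨δ, f0, f1, f2⟩ : ∃ δ, 0 < δ ∧ δ ≤ d₀ ∧ δ ≤ η / 4 :=
    ⟨min d₀ (η / 4), by positivity, min_le_left _ _, min_le_right _ _⟩
  obtain ⟨κ, hκ⟩ : ∃ κ, κ = δ * Real.exp (-4) := ⟨_, rfl⟩
  have k0 : 0 < κ := by rw [hκ]; positivity
  obtain ⟨b₁, d₁, y0, y1, y2, y3⟩ := exists_small (c := κ / 8) (by positivity)
  obtain ⟨γ, g0, g1, g2⟩ : ∃ γ, 0 < γ ∧ γ ≤ d₁ / 2 ∧ γ ≤ θ :=
    ⟨min (d₁ / 2) θ, by positivity, min_le_left _ _, min_le_right _ _⟩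
  obtain ⟨b₂, d₂, z0, z1, z2, z3⟩ := exists_small (c := θ * γ) (by positivity)
  obtain ⟨σ, s0, s1, s2⟩ : ∃ σ, 0 < σ ∧ σ ≤ d₂ ∧ σ ≤ γ :=
    ⟨min d₂ γ, by positivity, min_le_left _ _, min_le_right _ _⟩
  refine ⟨σ, 1 / θ ^ (2 * 44 + 2) * (1 - Real.exp (-θ))⁻¹ + (12 / (θ * η / 2) ^ 2 +
    (12 / (κ / 4) ^ 2 + 12 / (θ * γ) ^ 2)), s0, fun n p hl hp => ?_⟩
  have n0 : (0 : ℝ) ≤ n := n.cast_nonneg
  have l1 : 1 ≤ n * p := by linarith
  have p0 : 0 < p := pos_of_mul_pos_left (show 0 < p * n by linarith) n0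
  have p1 : p ≤ 1 := by linarith
  have n1 : (1 : ℝ) ≤ n := by nlinarith
  have fl : ∀ x : ℝ, 0 ≤ x → ⌊x / p⌋₊ * p ≤ x ∧ x ≤ (⌊x / p⌋₊ + 1) * p := fun x hx =>
    ⟨(le_div_iff₀ p0).1 (Nat.floor_le (by positivity)),
      (div_le_iff₀ p0).1 (Nat.lt_floor_add_one _).le⟩
  obtain ⟨a1, a2⟩ := fl δ f0.le
  obtain ⟨a3, a4⟩ := fl (η / 2) (by positivity)
  have a5 : ⌊δ / p⌋₊ ≤ ⌊η / 2 / p⌋₊ := Nat.floor_mono (by gcongr; linarith)
  have a6 : (⌊σ * n⌋₊ : ℝ) ≤ σ * n := Nat.floor_le (by positivity)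
  have a7 : (⌊γ * n⌋₊ : ℝ) ≤ γ * n := Nat.floor_le (by positivity)
  have a8 : γ * n < ⌊γ * n⌋₊ + 1 := Nat.lt_floor_add_one _
  have a9 : ⌊σ * n⌋₊ ≤ ⌊γ * n⌋₊ := Nat.floor_mono (by gcongr)
  have a10 : ∀ k : ℕ, (k : ℝ) ≤ σ * n → k ≤ ⌊σ * n⌋₊ := fun k => Nat.le_floor
  generalize ⌊δ / p⌋₊ = s₀ at *
  generalize ⌊η / 2 / p⌋₊ = L₀ at *
  generalize ⌊σ * n⌋₊ = s₁ at *
  generalize ⌊γ * n⌋₊ = L₁ at *
  have lin : ∀ (k : ℕ) (x : ℝ), k * p ≤ x → k ≤ x * n := fun k x h => by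
    have : (0 : ℝ) ≤ k := k.cast_nonneg
    nlinarith
  have hγ := t2 _ hl
  have hn : (Fintype.card (Fin n) : ℝ) = n := by simp
  refine (Pr_mono p0.le p1 (B := fun ω => EvA p θ 44 ω ∨ (1 ≤ s₀ ∧ EvB s₀ L₀ ω) ∨
    EvC p δ (s₁ + L₁) ω ∨ EvB s₁ L₁ ω) fun ω h => ?_).trans ?_
  · classical
    simp only [Rigid, not_forall] at h
    obtain ⟨c, H, h1, h2⟩ := h
    obtain ⟨S, Φ, h3, h4⟩ := h1.sw
    exact (core_core2 c).bad h4 h2 p0.le (a10 _ h3) (by rw [← hη]; linarith) a2 (by linarith)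
  simp only [add_div]
  refine (Pr_or p0.le p1 _ _).trans (add_le_add ?_ ((Pr_or p0.le p1 _ _).trans (add_le_add ?_
    ((Pr_or p0.le p1 _ _).trans (add_le_add ?_ ?_)))))
  · simpa only [hn] using Pr_EvA (V := Fin n) p0 p1 t0 t1 44 (hn ▸ l1) (hn ▸ hγ)
  · by_cases h : 1 ≤ s₀
    · have b1 := lin _ _ a3
      have b2 : (1 : ℝ) ≤ s₀ := by exact_mod_cast h
      have b3 : η / 4 ≤ L₀ * p := by nlinarith
      have b4 := x3 s₀ n n0 ((lin _ _ a1).trans (by gcongr))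
      have b5 := mul_le_mul_of_nonneg_left b3 (mul_nonneg t0.le n0)
      refine (Pr_mono p0.le p1 fun ω => And.right).trans ((Pr_EvB (V := Fin n) p0 p1 t0 x0 x1 a5
        (by rw [hn]; nlinarith) (hn ▸ hγ)).trans ?_)
      rw [hn]
      exact lin_exp (by positivity) n1 (by nlinarith)
    · rw [Pr_false fun ω a => h a.1]
      positivity
  · have b1 : σ * n ≤ γ * n := by gcongr
    have b2 : γ * n ≤ d₁ / 2 * n := by gcongr
    have b3 : γ * n ≤ 1 / 8 * n := by gcongr; linarith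
    have b4 := y3 (s₁ + L₁ : ℕ) n n0 (by push_cast; linarith)
    have b5 : κ * (n / 2) ≤ κ * (n - 2 * (s₁ + L₁ : ℕ)) := by gcongr; push_cast; linarith
    refine (Pr_EvC (V := Fin n) p0.le hp f0.le (by linarith) y0 y1 _).trans ?_
    rw [hn, ← hκ]
    exact (mul_le_mul_of_nonneg_right (by linarith) (Real.exp_pos _).le).trans
      (lin_exp (by positivity) n1 (by linarith))
  · have b1 := z3 s₁ n n0 (a6.trans (by gcongr))
    have b2 : γ * n ≤ θ * n := by gcongr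
    have b3 : θ * L₁ ≤ θ * (n * p) * L₁ := by
      gcongr
      exact le_mul_of_one_le_right t0.le l1
    have b4 := mul_le_mul_of_nonneg_left a8.le t0.le
    have b5 : 0 ≤ θ * γ * n := by positivity
    refine (Pr_EvB (V := Fin n) p0 p1 t0 z0 z1 a9 (by rw [hn]; nlinarith) (hn ▸ hγ)).trans ?_
    rw [hn]
    exact lin_exp (by positivity) n1 (by linarith)

open Filter Topology MeasureTheory in
theorem main {ε : ℝ} (hε : 0 < ε) : ∃ δ : ℝ, 0 < δ ∧ ∀ p : ℕ → unitInterval,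
    (∀ᶠ n : ℕ in atTop, 1 + ε ≤ n * (p n : ℝ) ∧ (p n : ℝ) ≤ 1 / 2) →
    Tendsto (fun n : ℕ => (SimpleGraph.binomialRandom (Fin n) (p n)).real {G | Rigid G (δ * n)})
      atTop (𝓝 1) := by
  obtain ⟨δ, C, h0, h1⟩ := Pr_bad (a := 1 + ε) (by linarith)
  refine ⟨δ, h0, fun p hp => ?_⟩
  refine tendsto_of_tendsto_of_tendsto_of_le_of_le' (g := fun n : ℕ => 1 - C / n)
    (by simpa using (tendsto_const_div_atTop_nhds_zero_nat C).const_sub 1) tendsto_const_nhds ?_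
    (Eventually.of_forall fun n => measureReal_le_one)
  filter_upwards [hp] with n hn
  have h2 := (real_le_Pr (p n) {G | Rigid G (δ * n)}ᶜ).trans (h1 n _ hn.1 hn.2)
  have h3 := measureReal_union_le (μ := SimpleGraph.binomialRandom (Fin n) (p n))
    {G | Rigid G (δ * n)} {G | Rigid G (δ * n)}ᶜ
  rw [Set.union_compl_self, probReal_univ] at h3
  linarith

end Pool.Agent.P.MP_f57657_co
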