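import Mathlib

/-! The 2-core and switchings. -/

open Matrix

namespace Pool.Agent.P.MP_f57657_co

/-- The vertex set of the 2-core of the subgraph of `G` induced on `C`: the union of all
`W ⊆ C` in which every vertex has two distinct neighbours. -/
def core2 {V : Type*} (G : SimpleGraph V) (C : Set V) : Set V :=
  {v | ∃ W ⊆ C, v ∈ W ∧ ∀ w ∈ W, ∃ a ∈ W, ∃ b ∈ W, a ≠ b ∧ G.Adj w a ∧ G.Adj w b}

open Classical in
/-- `A_H = Uᵀ A_F U` for a real orthogonal matrix `U` that is the identity off a set `S` of at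
most `m` vertices. -/
def IsSwitching {X : Type*} [Finite X] (F H : SimpleGraph X) (m : ℝ) : Prop :=
  letI := Fintype.ofFinite X
  ∃ (S : Finset X) (U : Matrix X X ℝ), (S.card : ℝ) ≤ m ∧ Uᵀ * U = 1 ∧
    (∀ t ∉ S, ∀ i, U i t = if i = t then 1 else 0) ∧ H.adjMatrix ℝ = Uᵀ * F.adjMatrix ℝ * U

end Pool.Agent.P.MP_f57657_co
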