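import Pool.Agent.P.MP_f57657_co.PA

/-! Large pendant forests, and large sets whose rows satisfy a fragile condition. -/

open Finset

namespace Pool.Agent.P.MP_f57657_co

variable {V : Type*} [Fintype V] [DecidableEq V] {p : ℝ}

/-- A large forest `W` hanging from a small set `R`. -/
def EvB (s L : ℕ) (ω : Sym2 V → Bool) : Prop :=
  ∃ R W : Finset V, R.card ≤ s ∧ L ≤ W.card ∧ W.card ≤ 2 * L ∧ ∃ f ∈ maps W (W ∪ R),
    (fe W f).card = W.card ∧ (∀ e ∈ fe W f, ω e = true) ∧ ∀ t ∉ W ∪ R, (row ω W t).card = 0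

theorem Pr_EvB (h0 : 0 < p) (h1 : p ≤ 1) {θ a : ℝ} (hθ0 : 0 < θ) (ha0 : 0 < a) (ha : a ≤ 1)
    {s L : ℕ} (hs : s ≤ L) (hL : (3 * L : ℝ) ≤ 4 * θ * Fintype.card V)
    (hγ : Real.exp 1 * (Fintype.card V * p) ≤ Real.exp ((1 - 8 * θ) * (Fintype.card V * p))) :
    Pr p (EvB (V := V) s L) ≤ (Fintype.card V + 1) * Real.exp
      (s * (1 - Real.log a) + a * Fintype.card V - 4 * θ * (Fintype.card V * p) * L) := by
  classical
  set n := Fintype.card V with hn
  set φ : ℕ → ℝ := fun k => if L ≤ k then ((k : ℝ) + s) ^ k * p ^ k *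
    Real.exp (-(1 - 4 * θ) * (n * p) * k) else 0 with hφ
  have step : ∀ R : Finset V, R.card ≤ s → ∀ W : Finset V, Pr p (fun ω => L ≤ W.card ∧
      W.card ≤ 2 * L ∧ ∃ f ∈ maps W (W ∪ R), (fe W f).card = W.card ∧
      (∀ e ∈ fe W f, ω e = true) ∧ ∀ t ∉ W ∪ R, (row ω W t).card = 0) ≤ φ W.card := by
    intro R hR W
    by_cases hW : L ≤ W.card ∧ W.card ≤ 2 * L
    swap
    · rw [Pr_false fun ω h => hW ⟨h.1, h.2.1⟩, hφ]
      dsimp only
      split_ifs <;> positivity
    have hu : (W ∪ R).card ≤ W.card + s := (card_union_le _ _).trans (by omega)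
    refine (Pr_union h0.le h1 _ _ fun ω h => h.2.2).trans ((sum_le_card_nsmul _ _
      (p ^ W.card * Real.exp (-(1 - 4 * θ) * (n * p) * W.card)) fun f hf => ?_).trans ?_)
    · by_cases hc : (fe W f).card = W.card
      swap
      · rw [Pr_false fun ω h => hc h.1]
        positivity
      have hsub := fe_subset hf subset_union_left
      have hf0 : ∀ ω : Sym2 V → Bool, 0 ≤ ∏ e ∈ fe W f, if ω e then (1 : ℝ) else 0 :=
        fun ω => prod_nonneg fun e _ => by split_ifs <;> norm_num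
      refine (Pr_le h0.le h1 (f := fun ω => (∏ e ∈ fe W f, if ω e then (1 : ℝ) else 0) *
        ∏ t ∈ (W ∪ R)ᶜ, (0 : ℝ) ^ (row ω W t).card)
        (fun ω => mul_nonneg (hf0 ω) (by positivity)) fun ω h => ?_).trans ?_
      · rw [prod_congr rfl (g := fun _ => 1) fun e he => by simp [h.2.1 e he], prod_const_one,
          one_mul, prod_congr rfl (g := fun _ => 1) fun t ht => by
            rw [h.2.2 t (mem_compl.1 ht), pow_zero], prod_const_one]
      · refine (rows_peel h0.le h1 (fun t ht h => mem_compl.1 ht (mem_union_left _ h)) _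
          (fun _ b => (0 : ℝ) ^ b.card) (Real.exp_pos (-(W.card * p))).le hf0
          (fun _ _ => by positivity) (fun t ht ω ω' => prod_congr rfl fun e he => by
            rw [mix_of_sym2 (mem_compl.1 ht) (hsub he)]) (fun _ _ _ _ => rfl)
          fun t _ _ => ?_).trans ?_
        · simp only [card_row]
          rw [Ex_pow, card_star, mul_zero, add_zero, ← mul_neg, sub_eq_add_neg]
          exact one_add_pow_le (by linarith) _
        · have := Ex_forest (p := p) (fe W f) ∅ 1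
          simp only [one_pow, mul_one, empty_sdiff, card_empty, pow_zero] at this
          rw [this, hc, mul_comm, ← Real.exp_nat_mul, card_compl, Nat.cast_sub (card_le_univ _),
            ← hn]
          refine mul_le_mul_of_nonneg_left (Real.exp_le_exp.2 ?_) (by positivity)
          have b1 : ((W ∪ R).card : ℝ) ≤ 3 * L := by exact_mod_cast (by omega)
          have b2 : 0 ≤ W.card * p := by positivity
          nlinarith [mul_le_mul_of_nonneg_left (b1.trans hL) b2]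
    · rw [card_maps, nsmul_eq_mul, hφ]
      simp only [if_pos hW.1, mul_assoc]
      gcongr
      exact_mod_cast Nat.pow_le_pow_left hu _
  refine (Pr_union h0.le h1 (univ.filter fun R : Finset V => R.card ≤ s) _
    fun ω ⟨R, W, a1, a2⟩ => ⟨R, by simpa using a1, show ∃ W, _ from ⟨W, a2⟩⟩).trans ?_
  refine (sum_le_card_nsmul _ _ ((n + 1) * Real.exp (s - 4 * θ * (n * p) * L))
    fun R hR => ?_).trans ?_
  · refine (Pr_union h0.le h1 univ _ fun ω ⟨W, h⟩ => ⟨W, mem_univ _, h⟩).trans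
      ((sum_le_sum fun W _ => step R (mem_filter.1 hR).2 W).trans ?_)
    rw [sum_card φ, ← hn]
    refine (sum_le_card_nsmul _ _ (Real.exp (s - 4 * θ * (n * p) * L)) fun k _ => ?_).trans
      (by simp)
    rw [hφ]
    dsimp only
    split_ifs with hk
    swap
    · rw [mul_zero]; positivity
    have b0 : (L : ℝ) ≤ k := by exact_mod_cast hk
    have b1 := choose_mul_pow_le n k (a := k + s) (by positivity)
    have b2 : (n : ℝ) ^ k * Real.exp k * p ^ k ≤ Real.exp ((1 - 8 * θ) * (n * p) * k) := by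
      have := pow_le_pow_left₀ (by positivity) hγ k
      rw [← Real.exp_nat_mul, mul_pow, mul_pow, ← Real.exp_nat_mul, mul_one] at this
      calc _ = Real.exp k * ((n : ℝ) ^ k * p ^ k) := by ring
        _ ≤ _ := this.trans (le_of_eq (by ring_nf))
    calc _ = (n.choose k : ℝ) * ((k : ℝ) + s) ^ k * p ^ k *
          Real.exp (-(1 - 4 * θ) * (n * p) * k) := by ring
      _ ≤ (n : ℝ) ^ k * Real.exp (k + s) * p ^ k * Real.exp (-(1 - 4 * θ) * (n * p) * k) := by
          gcongr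
      _ = (n : ℝ) ^ k * Real.exp k * p ^ k *
          (Real.exp s * Real.exp (-(1 - 4 * θ) * (n * p) * k)) := by rw [Real.exp_add]; ring
      _ ≤ Real.exp ((1 - 8 * θ) * (n * p) * k) *
          (Real.exp s * Real.exp (-(1 - 4 * θ) * (n * p) * k)) := by gcongr
      _ ≤ _ := by
          rw [← Real.exp_add, ← Real.exp_add, Real.exp_le_exp]
          nlinarith [mul_le_mul_of_nonneg_left b0 (show 0 ≤ θ * (n * p) by positivity)]
  · rw [nsmul_eq_mul]
    refine (mul_le_mul_of_nonneg_right (card_small ha0 ha s) (by positivity)).trans (le_of_eq ?_)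
    rw [← hn, show 1 / a = Real.exp (-Real.log a) by rw [Real.exp_neg, Real.exp_log ha0, one_div],
      ← Real.exp_nat_mul, ← Real.exp_add, mul_left_comm, ← Real.exp_add]
    congr 2
    ring

theorem two_bounds (h0 : 0 ≤ p) (h1 : p ≤ 1 / 2) {δ : ℝ} (hδ : δ ≤ 1) {w : ℕ}
    (hw : δ ≤ w * p) (hw' : w * p ≤ 2) : δ * Real.exp (-4) ≤ (1 - p) ^ w ∧
      δ * Real.exp (-4) ≤ w * (p * (1 - p) ^ (w - 1)) := by
  have a1 : Real.exp (-(2 * p)) ≤ 1 - p := by
    rw [Real.exp_neg, inv_le_iff_one_le_mul₀ (Real.exp_pos _)]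
    nlinarith [Real.add_one_le_exp (2 * p)]
  have a2 : Real.exp (-4) ≤ (1 - p) ^ w := by
    refine le_trans ?_ (pow_le_pow_left₀ (Real.exp_pos _).le a1 w)
    rw [← Real.exp_nat_mul, Real.exp_le_exp]
    linarith
  have a3 : (1 - p) ^ w ≤ (1 - p) ^ (w - 1) :=
    pow_le_pow_of_le_one (by linarith) (by linarith) (Nat.sub_le _ _)
  have a4 := Real.exp_pos (-4)
  refine ⟨by nlinarith, ?_⟩
  rw [← mul_assoc]
  exact mul_le_mul hw (a2.trans a3) a4.le (by positivity)

theorem Ex_ne_one (h0 : 0 ≤ p) (h1 : p ≤ 1 / 2) {δ : ℝ} (hδ : δ ≤ 1)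
    {R : Finset V} (hw : δ ≤ R.card * p) (hw' : R.card * p ≤ 2) (t : V) :
    Ex p (fun ω => if (row ω R t).card ≠ 1 then (1 : ℝ) else 0) ≤ 1 - δ * Real.exp (-4) := by
  have e1 : ∀ N : ℕ, (if N ≠ 1 then (1 : ℝ) else 0) ≤ 1 - N * (0 : ℝ) ^ (N - 1) := by
    intro N
    rcases N with _ | _ | N <;> simp
  refine (Ex_mono h0 (by linarith) fun ω => e1 _).trans ?_
  simp only [card_row]
  rw [Ex_sub, Ex_const, Ex_nb_mul, card_star, mul_zero, add_zero]
  linarith [(two_bounds h0 h1 hδ hw hw').2]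

/-- Being an integer. -/
def IsInt (x : ℝ) : Prop := ∃ m : ℤ, x = m

theorem Pr_int (h0 : 0 ≤ p) (h1 : p ≤ 1 / 2) {δ : ℝ} (hδ : δ ≤ 1)
    {Y R : Finset V} (hR : R ⊆ Y) (hw : δ ≤ R.card * p) (hw' : R.card * p ≤ 2) (t : V)
    {ρ : V → ℝ} (hρ : ∀ u ∈ R, ¬IsInt (ρ u)) :
    Pr p (fun ω => IsInt (∑ u ∈ row ω Y t, ρ u)) ≤ 1 - δ * Real.exp (-4) := by
  classical
  have h1' : p ≤ 1 := by linarith
  rw [Pr, Ex_mix (star R t), ← Ex_const (ι := Sym2 V) (p := p) (1 - δ * Real.exp (-4))]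
  refine Ex_mono h0 h1' fun ω => ?_
  have e : ∀ ω', ∑ u ∈ row (mix (star R t) ω ω') Y t, ρ u =
      ∑ u ∈ row ω (Y \ R) t, ρ u + ∑ u ∈ row ω' R t, ρ u := by
    intro ω'
    rw [← row_mix_self ω ω' R t, row, row, row, sum_filter, sum_filter, sum_filter,
      ← sum_sdiff hR]
    congr 1
    refine sum_congr rfl fun u hu => ?_
    have : s(t, u) ∉ star R t := fun h => by
      obtain ⟨v, hv, e⟩ := mem_image.1 h
      exact (mem_sdiff.1 hu).2 (Sym2.congr_right.1 e ▸ hv)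
    rw [mix, if_neg this]
  simp only [e]
  by_cases hσ : IsInt (∑ u ∈ row ω (Y \ R) t, ρ u)
  · refine le_trans (Ex_mono h0 h1' fun ω' => ?_) (Ex_ne_one h0 h1 hδ hw hw' t)
    split_ifs with a1 a2
    · rfl
    · exfalso
      obtain ⟨u, hu⟩ := card_eq_one.1 (not_not.1 a2)
      have hu' : u ∈ R := (mem_filter.1 (show u ∈ row ω' R t by simp [hu])).1
      obtain ⟨m, hm⟩ := a1
      obtain ⟨m', hm'⟩ := hσ
      rw [hu, sum_singleton, hm'] at hm
      exact hρ u hu' ⟨m - m', by push_cast; linarith⟩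
    · norm_num
    · rfl
  · refine le_trans (Ex_mono h0 h1' (g := fun ω' => 1 - (0 : ℝ) ^ (row ω' R t).card)
      fun ω' => ?_) ?_
    · rcases (row ω' R t).eq_empty_or_nonempty with h | h
      · simp [h, hσ]
      · rw [zero_pow h.card_pos.ne', sub_zero]
        split_ifs <;> norm_num
    · simp only [card_row]
      rw [Ex_sub, Ex_const, Ex_pow, card_star, mul_zero, add_zero]
      linarith [(two_bounds h0 h1 hδ hw hw').1]

/-- All rows outside `Y` satisfy a fragile condition. -/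
def EvC (p δ : ℝ) (K : ℕ) (ω : Sym2 V → Bool) : Prop :=
  ∃ Y R : Finset V, Y.card ≤ K ∧ R ⊆ Y ∧ δ ≤ R.card * p ∧ R.card * p ≤ 2 ∧
    ((∀ t ∉ Y, (row ω R t).card ≠ 1) ∨ ∃ ρ : V → ℝ, (∀ u ∈ R, ¬IsInt (ρ u)) ∧
      ∀ t ∉ Y, ∑ u ∈ row ω Y t, ρ u = 0 ∨ ∑ u ∈ row ω Y t, ρ u = 1)

/-- `ρ` takes the prescribed values on the rows of `I`. -/
def Fits (ω : Sym2 V → Bool) (Y I β : Finset V) (ρ : V → ℝ) : Prop :=
  ∀ i ∈ I, ∑ u ∈ row ω Y i, ρ u = if i ∈ β then 1 else 0

omit [DecidableEq V] in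
theorem exists_span (ω : Sym2 V → Bool) (Y : Finset V) : ∃ I : Finset V, I.card ≤ Y.card ∧
    (∀ i ∈ I, i ∉ Y) ∧ ∀ ρ ρ' : V → ℝ, (∀ i ∈ I, ∑ u ∈ row ω Y i, ρ u = ∑ u ∈ row ω Y i, ρ' u) →
      ∀ t ∉ Y, ∑ u ∈ row ω Y t, ρ u = ∑ u ∈ row ω Y t, ρ' u := by
  classical
  let v : V → Y → ℝ := fun t u => if ω s(t, u) then 1 else 0
  obtain ⟨b, hb, -, h3, h4⟩ := exists_linearIndepOn_extension (K := ℝ) (v := v) (s := ∅)
    (t := {t | t ∉ Y}) (linearIndepOn_empty _ _) (Set.empty_subset _)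
  let l : (V → ℝ) → (Y → ℝ) →ₗ[ℝ] ℝ := fun ρ => ∑ u : Y, ρ u • LinearMap.proj u
  have hl : ∀ ρ t, l ρ (v t) = ∑ u ∈ row ω Y t, ρ u := by
    intro ρ t
    rw [row, sum_filter, ← sum_coe_sort Y]
    simp [l, v]
  refine ⟨b.toFinset, ?_, fun i hi => hb (Set.mem_toFinset.1 hi), fun ρ ρ' h t ht => ?_⟩
  · simpa using h4.linearIndependent.fintype_card_le_finrank
  · rw [← hl, ← hl]
    refine LinearMap.eqOn_span ?_ (h3 ⟨t, ht, rfl⟩)
    rintro _ ⟨i, hi, rfl⟩
    rw [hl, hl]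
    exact h i (Set.mem_toFinset.2 hi)

theorem Pr_EvC (h0 : 0 ≤ p) (h1 : p ≤ 1 / 2) {δ a : ℝ} (hδ0 : 0 ≤ δ) (hδ : δ ≤ 1) (ha0 : 0 < a)
    (ha : a ≤ 1) (K : ℕ) : Pr p (EvC (V := V) p δ K) ≤ 2 * Real.exp
      (2 * (K * (1 - Real.log a) + a * Fintype.card V) -
        δ * Real.exp (-4) * (Fintype.card V - 2 * K)) := by
  classical
  have h1' : p ≤ 1 := by linarith
  set n := Fintype.card V with hn
  set κ := δ * Real.exp (-4) with hκ
  have hκ0 : 0 ≤ κ := by positivity
  have hκ1 : 1 - κ ≤ Real.exp (-κ) := by linarith [Real.add_one_le_exp (-κ)]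
  set N : ℝ := Real.exp (K * (1 - Real.log a) + a * n) with hN
  set sm := univ.filter fun R : Finset V => R.card ≤ K with hsm
  have hpair : ∀ c : ℝ, 0 ≤ c → ∀ g : Finset V → Finset V → ℝ,
      (∀ Y ∈ sm, ∀ R ∈ Y.powerset, g Y R ≤ c) → ∑ Y ∈ sm, ∑ R ∈ Y.powerset, g Y R ≤ N * c := by
    intro c hc g hg
    refine (sum_le_card_nsmul _ _ (Real.exp K * c) fun Y hY => (sum_le_card_nsmul _ _ c
      (hg Y hY)).trans ?_).trans ?_
    · rw [card_powerset, nsmul_eq_mul]
      gcongr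
      push_cast
      calc (2 : ℝ) ^ Y.card ≤ (1 + 1) ^ K := by
            rw [one_add_one_eq_two]; exact pow_le_pow_right₀ one_le_two (mem_filter.1 hY).2
        _ ≤ _ := by simpa using one_add_pow_le (b := 1) (by norm_num) K
    · rw [nsmul_eq_mul, ← mul_assoc]
      gcongr
      refine (mul_le_mul_of_nonneg_right (card_small ha0 ha K) (by positivity)).trans (le_of_eq ?_)
      rw [← hn, show 1 / a = Real.exp (-Real.log a) by
        rw [Real.exp_neg, Real.exp_log ha0, one_div], ← Real.exp_nat_mul, ← Real.exp_add,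
        ← Real.exp_add, hN]
      congr 1
      ring
  have hN1 : 1 ≤ N := Real.one_le_exp (add_nonneg (mul_nonneg K.cast_nonneg
    (by linarith [Real.log_nonpos ha0.le ha])) (by positivity))
  set c : ℝ := Real.exp (-κ * (n - 2 * K)) with hc
  have hrows : ∀ Z : Finset V, Z.card ≤ 2 * K → Real.exp (-κ) ^ (Zᶜ).card * 1 ≤ c := by
    intro Z hZ
    rw [mul_one, ← Real.exp_nat_mul, card_compl, Nat.cast_sub (card_le_univ _), ← hn, hc,
      Real.exp_le_exp]
    have : (Z.card : ℝ) ≤ 2 * K := by exact_mod_cast hZ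
    nlinarith
  have step : ∀ Y ∈ sm, ∀ R ∈ Y.powerset, Pr p (fun ω => δ ≤ R.card * p ∧ R.card * p ≤ 2 ∧
      ((∀ t ∉ Y, (row ω R t).card ≠ 1) ∨ ∃ ρ : V → ℝ, (∀ u ∈ R, ¬IsInt (ρ u)) ∧
      ∀ t ∉ Y, ∑ u ∈ row ω Y t, ρ u = 0 ∨ ∑ u ∈ row ω Y t, ρ u = 1)) ≤ 2 * (N * c) := by
    intro Y hY R hR
    have hY' : Y.card ≤ K := (mem_filter.1 hY).2
    have hR' := mem_powerset.1 hR
    by_cases hw : δ ≤ R.card * p ∧ R.card * p ≤ 2
    swap
    · rw [Pr_false fun ω h => hw ⟨h.1, h.2.1⟩]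
      positivity
    refine (Pr_mono h0 h1' fun ω h => h.2.2).trans ((Pr_or h0 h1' _ _).trans ?_)
    rw [two_mul]
    refine add_le_add (le_trans ?_ (le_mul_of_one_le_left (Real.exp_pos _).le hN1)) ?_
    · refine (Pr_le h0 h1' (f := fun ω => 1 * ∏ t ∈ Yᶜ, if (row ω R t).card ≠ 1 then (1 : ℝ)
        else 0) (fun ω => mul_nonneg zero_le_one (prod_nonneg fun t _ => by
          split_ifs <;> norm_num)) fun ω h => ?_).trans ?_
      · rw [prod_congr rfl (g := fun _ => 1) fun t ht => if_pos (h t (mem_compl.1 ht))]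
        simp
      · refine (rows_peel h0 h1' (fun t ht h => mem_compl.1 ht (hR' h)) _
          (fun _ b => if b.card ≠ 1 then (1 : ℝ) else 0) (Real.exp_pos (-κ)).le
          (fun _ => zero_le_one) (fun _ _ => by split_ifs <;> norm_num) (fun _ _ _ _ => rfl)
          (fun _ _ _ _ => rfl) fun t _ _ =>
            (Ex_ne_one h0 h1 hδ hw.1 hw.2 t).trans hκ1).trans ?_
        rw [Ex_const]
        exact hrows Y (by omega)
    · let B : Finset V → Finset V → (Sym2 V → Bool) → Prop := fun I β ω =>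
        (∀ i ∈ I, i ∉ Y) ∧ (∃ ρ, (∀ u ∈ R, ¬IsInt (ρ u)) ∧ Fits ω Y I β ρ) ∧
          ∀ t ∉ Y, ∀ ρ, Fits ω Y I β ρ → IsInt (∑ u ∈ row ω Y t, ρ u)
      refine (Pr_union h0 h1' sm (fun I ω => ∃ β ∈ I.powerset, B I β ω) ?_).trans
        ((sum_le_sum fun I _ => Pr_union h0 h1' _ _ fun ω h => h).trans
          (hpair c (Real.exp_pos _).le _ fun I hI β _ => ?_))
      · rintro ω ⟨ρ, r1, r2⟩
        obtain ⟨I, i1, i2, i3⟩ := exists_span ω Y
        have hf : Fits ω Y I (I.filter fun i => ∑ u ∈ row ω Y i, ρ u = 1) ρ := by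
          intro i hi
          rcases r2 i (i2 i hi) with h | h <;> simp [h, hi]
        refine ⟨I, by simpa [hsm] using i1.trans hY', _, mem_powerset.2 (filter_subset _ _), i2,
          ⟨ρ, r1, hf⟩, fun t ht ρ' h' => ?_⟩
        rw [i3 ρ' ρ (fun i hi => (h' i hi).trans (hf i hi).symm) t ht]
        rcases r2 t ht with h | h
        exacts [⟨0, by simpa using h⟩, ⟨1, by simpa using h⟩]
      · let φ : (Sym2 V → Bool) → Finset V → ℝ := fun ω b =>
          if (∃ ρ, (∀ u ∈ R, ¬IsInt (ρ u)) ∧ Fits ω Y I β ρ) ∧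
            ∀ ρ, Fits ω Y I β ρ → IsInt (∑ u ∈ b, ρ u) then 1 else 0
        have hφ0 : ∀ ω b, 0 ≤ φ ω b := fun ω b => by
          simp only [φ]; split_ifs <;> norm_num
        refine (Pr_le h0 h1' (f := fun ω => 1 * ∏ t ∈ (Y ∪ I)ᶜ, φ ω (row ω Y t))
          (fun ω => mul_nonneg zero_le_one (prod_nonneg fun t _ => hφ0 _ _))
          fun ω h => ?_).trans ?_
        · rw [prod_congr rfl (g := fun _ => 1) fun t ht =>
            if_pos ⟨h.2.1, h.2.2 t fun h' => mem_compl.1 ht (mem_union_left _ h')⟩]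
          simp
        · refine (rows_peel h0 h1' (fun t ht h => mem_compl.1 ht (mem_union_left _ h)) _ φ
            (Real.exp_pos (-κ)).le (fun _ => zero_le_one) hφ0 (fun _ _ _ _ => rfl)
            (fun t ht ω ω' => ?_) fun t _ ω => ?_).trans ?_
          · have : Fits (mix (star Y t) ω ω') Y I β = Fits ω Y I β := by
              funext ρ
              refine propext (forall₂_congr fun i hi => ?_)
              rw [row_mix_ne (fun h => mem_compl.1 ht (mem_union_left _ h))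
                (fun e : i = t => mem_compl.1 ht (mem_union_right _ (e ▸ hi)))]
            simp only [φ, this]
          · by_cases hex : ∃ ρ, (∀ u ∈ R, ¬IsInt (ρ u)) ∧ Fits ω Y I β ρ
            · obtain ⟨ρ, r1, r2⟩ := hex
              refine le_trans (Ex_mono h0 h1' fun ω' => ?_)
                ((Pr_int h0 h1 hδ hR' hw.1 hw.2 t r1).trans hκ1)
              simp only [φ]
              split_ifs with a1 a2
              · rfl
              · exact absurd (a1.2 ρ r2) a2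
              · norm_num
              · rfl
            · simp only [φ, hex, false_and, if_false, Ex_const]
              exact (Real.exp_pos _).le
          · rw [Ex_const]
            exact hrows _ ((card_union_le _ _).trans (by
              have := (mem_filter.1 hI).2; omega))
  refine (Pr_union h0 h1' sm (fun Y ω => ∃ R ∈ Y.powerset, _) fun ω ⟨Y, R, a1, a2, a3⟩ =>
    ⟨Y, by simpa [hsm] using a1, R, mem_powerset.2 a2, a3⟩).trans
    ((sum_le_sum fun Y _ => Pr_union h0 h1' _ _ fun ω h => h).trans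
      ((hpair _ (by positivity) _ step).trans (le_of_eq ?_)))
  rw [mul_left_comm, hN, hc, ← Real.exp_add, ← Real.exp_add]
  congr 2
  ring

end Pool.Agent.P.MP_f57657_co
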