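import Pool.Agent.P.MP_f57657_co.Defs
import Pool.Agent.P.MP_f57657_co.PB
import Pool.Agent.P.MP_f57657_co.Count

/-! The trees that hang on the 2-core. -/

open Finset Relation

namespace Pool.Agent.P.MP_f57657_co

variable {V : Type*} {G : SimpleGraph V} {X T : Set V}

/-- Reaching `R` in exactly `n` steps. -/
def St (rel : V → V → Prop) (R : Set V) : ℕ → V → Prop
  | 0, w => w ∈ R
  | n + 1, w => ∃ z, rel w z ∧ St rel R n z

theorem exists_par (rel : V → V → Prop) (R : Set V) : ∃ (par : V → V) (ht : V → ℕ), ∀ w ∉ R,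
    (∃ r ∈ R, ReflTransGen rel w r) → rel w (par w) ∧ ht (par w) < ht w := by
  have key : ∀ w, ∃ z, w ∉ R → (∃ r ∈ R, ReflTransGen rel w r) →
      rel w z ∧ sInf {n | St rel R n z} < sInf {n | St rel R n w} := by
    intro w
    by_cases h : w ∉ R ∧ ∃ r ∈ R, ReflTransGen rel w r
    · obtain ⟨h1, r, h2, h3⟩ := h
      have : {n | St rel R n w}.Nonempty := by
        clear h1
        induction h3 using ReflTransGen.head_induction_on with
        | refl => exact ⟨0, h2⟩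
        | head h _ ih => exact ih.elim fun n hn => ⟨n + 1, _, h, hn⟩
      have hm := Nat.sInf_mem this
      generalize sInf {n | St rel R n w} = k at hm
      rcases k with _ | k
      · exact absurd hm h1
      · obtain ⟨z, a, b⟩ := hm
        exact ⟨z, fun _ _ => ⟨a, Nat.lt_succ_of_le (Nat.sInf_le b)⟩⟩
    · exact ⟨w, fun a b => absurd ⟨a, b⟩ h⟩
  choose par h using key
  exact ⟨par, fun w => sInf {n | St rel R n w}, h⟩

/-- The properties of the 2-core of a component. -/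
structure Core (G : SimpleGraph V) (X : Set V) : Prop where
  two : ∀ x ∈ X, ∃ a ∈ X, ∃ b ∈ X, a ≠ b ∧ G.Adj x a ∧ G.Adj x b
  ext : ∀ A : Set V, (∀ v ∈ A, ∃ x ∈ X, G.Reachable v x) → (∀ v ∈ A, v ∉ X →
    ∃ a ∈ X ∪ A, ∃ b ∈ X ∪ A, a ≠ b ∧ G.Adj v a ∧ G.Adj v b) → A ⊆ X
  conn : ∀ x ∈ X, ∀ y ∈ X, G.Reachable x y

theorem core_core2 (c : G.ConnectedComponent) : Core G (core2 G c.supp) := by
  have h1 : core2 G c.supp ⊆ c.supp := fun _ ⟨_, a, b, _⟩ => a b
  have h2 : ∀ x ∈ core2 G c.supp, ∃ a ∈ core2 G c.supp, ∃ b ∈ core2 G c.supp,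
      a ≠ b ∧ G.Adj x a ∧ G.Adj x b := fun x ⟨W, a, b, h⟩ => by
    obtain ⟨y, y1, z, z1, e⟩ := h x b
    exact ⟨y, ⟨W, a, y1, h⟩, z, ⟨W, a, z1, h⟩, e⟩
  refine ⟨h2, fun A a b v hv => ⟨core2 G c.supp ∪ A, Set.union_subset h1 fun w hw => ?_,
    Or.inr hv, fun w hw => ?_⟩, fun x hx y hy => ?_⟩
  · obtain ⟨x, x1, x2⟩ := a w hw
    exact (SimpleGraph.ConnectedComponent.sound x2).trans (h1 x1)
  · by_cases h : w ∈ core2 G c.supp
    · obtain ⟨y, y1, z, z1, e⟩ := h2 w h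
      exact ⟨y, Or.inl y1, z, Or.inl z1, e⟩
    · exact b w (hw.resolve_left h) h
  · exact SimpleGraph.ConnectedComponent.exact ((h1 hx).trans (h1 hy).symm)

/-- The edges that are not inside `X`. -/
def out (G : SimpleGraph V) (X : Set V) : SimpleGraph V where
  Adj a b := G.Adj a b ∧ (a ∉ X ∨ b ∉ X)
  symm := ⟨fun _ _ h => ⟨h.1.symm, h.2.symm⟩⟩
  loopless := ⟨fun _ h => h.1.ne rfl⟩

theorem out_le : out G X ≤ G := fun _ _ h => h.1

theorem Core.ear (h : Core G X) {s t : V} (hs : s ∈ X) (ht : t ∈ X)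
    (hr : (out G X).Reachable s t) : s = t := by
  classical
  by_contra hne
  obtain ⟨q, hq⟩ := hr.exists_isPath
  have hl : 0 < q.length := Nat.pos_of_ne_zero fun e => hne (q.eq_of_length_eq_zero e)
  have := h.ext {v | ∃ i ≤ q.length, v = q.getVert i} ?_ ?_ ⟨1, hl, rfl⟩
  · have a := (q.adj_getVert_succ hl).2
    rw [q.getVert_zero] at a
    exact a.elim (· hs) (· this)
  · rintro _ ⟨i, -, rfl⟩
    exact ⟨t, ht, (q.drop i).reachable.mono out_le⟩
  · rintro _ ⟨i, hi, rfl⟩ hX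
    rcases i with _ | i
    · exact absurd (q.getVert_zero.symm ▸ hs) hX
    have hi' : i + 1 < q.length :=
      lt_of_le_of_ne hi fun e => hX (by rw [e, q.getVert_length]; exact ht)
    refine ⟨_, Or.inr ⟨i, by omega, rfl⟩, _, Or.inr ⟨i + 2, hi', rfl⟩, fun e => ?_,
      (q.adj_getVert_succ (by omega)).1.symm, (q.adj_getVert_succ hi').1⟩
    have := hq.getVert_injOn (show i ≤ q.length by omega) (show i + 2 ≤ q.length from hi') e
    omega

theorem Core.pre (h : Core G X) : (G.induce X).Preconnected := by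
  intro x y
  have : ∀ v, ReflTransGen G.Adj x.1 v →
      ∃ z : X, (G.induce X).Reachable x z ∧ (out G X).Reachable z.1 v := by
    intro v hv
    induction hv with
    | refl => exact ⟨x, .rfl, .rfl⟩
    | @tail a b _ hab ih =>
      obtain ⟨z, z1, z2⟩ := ih
      by_cases hc : a ∉ X ∨ b ∉ X
      · exact ⟨z, z1, z2.trans (SimpleGraph.Adj.reachable ⟨hab, hc⟩)⟩
      · push Not at hc
        obtain rfl := h.ear z.2 hc.1 z2
        exact ⟨⟨b, hc.2⟩, z1.trans (SimpleGraph.Adj.reachable hab), .rfl⟩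
  obtain ⟨z, z1, z2⟩ := this y ((G.reachable_iff_reflTransGen _ _).1 (h.conn _ x.2 _ y.2))
  obtain rfl : z = y := Subtype.ext (h.ear z.2 y.2 z2)
  exact z1

/-- The vertices of the trees that hang on `T`. -/
def Pn (G : SimpleGraph V) (X T : Set V) : Set V :=
  {w | w ∉ X ∧ ∃ s ∈ T, (out G X).Reachable w s}

theorem Pn_adj {y t : V} (hy : y ∈ T ∪ Pn G X T) (ht : t ∉ X) (h : G.Adj t y) : t ∈ Pn G X T := by
  have a : (out G X).Reachable t y := SimpleGraph.Adj.reachable ⟨h, Or.inl ht⟩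
  rcases hy with hy | ⟨-, s, s1, s2⟩
  exacts [⟨ht, y, hy, a⟩, ⟨ht, s, s1, a.trans s2⟩]

theorem Core.pn_adj (h : Core G X) (hT : T ⊆ X) {y t : V} (hy : y ∈ Pn G X T) (ha : G.Adj y t) :
    t ∈ T ∪ Pn G X T := by
  by_cases ht : t ∈ X
  · obtain ⟨y1, s, s1, s2⟩ := hy
    have a : (out G X).Adj t y := ⟨ha.symm, Or.inr y1⟩
    rw [h.ear ht (hT s1) (a.reachable.trans s2)]
    exact Or.inl s1
  · exact Or.inr (Pn_adj (Or.inr hy) ht ha.symm)

theorem Core.pn_reach (h : Core G X) (hT : T ⊆ X) {w : V} (hw : w ∈ T ∪ Pn G X T) :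
    ∃ s ∈ T, ReflTransGen (fun a b => G.Adj a b ∧ b ∈ T ∪ Pn G X T) w s := by
  rcases hw with hw | ⟨w1, s, s1, s2⟩
  · exact ⟨w, hw, .refl⟩
  refine ⟨s, s1, ?_⟩
  rw [SimpleGraph.reachable_iff_reflTransGen] at s2
  clear w1
  induction s2 using ReflTransGen.head_induction_on with
  | refl => exact .refl
  | @head a b hab hb ih =>
    refine ih.head ⟨hab.1, ?_⟩
    rw [← SimpleGraph.reachable_iff_reflTransGen] at hb
    by_cases hX : b ∈ X
    · exact Or.inl (h.ear hX (hT s1) hb ▸ s1)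
    · exact Or.inr ⟨hX, s, s1, hb⟩

/-- A parent function on the hanging trees. -/
def Par (G : SimpleGraph V) (X T : Set V) (par : V → V) (ht : V → ℕ) : Prop :=
  ∀ w ∈ Pn G X T, G.Adj w (par w) ∧ ht (par w) < ht w

theorem Core.par (h : Core G X) (hT : T ⊆ X) : ∃ par ht, Par G X T par ht := by
  obtain ⟨par, ht, a⟩ := exists_par (fun a b => G.Adj a b ∧ b ∈ T ∪ Pn G X T) T
  exact ⟨par, ht, fun w hw => (a w (fun b => hw.1 (hT b)) (h.pn_reach hT (Or.inr hw))).imp_left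
    And.left⟩

variable {par : V → V} {ht : V → ℕ}

theorem Core.tree (h : Core G X) (hT : T ⊆ X) (hp : Par G X T par ht) {w z : V}
    (hw : w ∈ Pn G X T) (ha : G.Adj w z) : z = par w ∨ z ∈ Pn G X T ∧ par z = w := by
  by_contra hc
  rw [not_or] at hc
  let r : V → V → Prop := fun a b => a ∈ Pn G X T ∧ par a = b
  have hz := h.pn_adj hT hw ha
  have up : ∀ a ∈ T ∪ Pn G X T, ∀ v, ReflTransGen r a v → v ∈ T ∪ Pn G X T := by
    intro a ha v hv
    rcases hv.cases_tail with rfl | ⟨b, -, b1, rfl⟩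
    exacts [ha, h.pn_adj hT b1 (hp b b1).1]
  have mem : ∀ v ∈ {v | ReflTransGen r w v ∨ ReflTransGen r z v}, v ∈ T ∪ Pn G X T :=
    fun v hv => hv.elim (up w (Or.inr hw) v) (up z hz v)
  refine hw.1 (h.ext {v | ReflTransGen r w v ∨ ReflTransGen r z v} (fun v hv => ?_)
    (fun v hv hX => ?_) (Or.inl .refl))
  · rcases mem v hv with a | ⟨-, s, s1, s2⟩
    exacts [⟨v, hT a, .rfl⟩, ⟨s, hT s1, s2.mono out_le⟩]
  · have v1 : v ∈ Pn G X T := (mem v hv).resolve_left fun a => hX (hT a)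
    refine ⟨par v, Or.inr (hv.imp (·.tail ⟨v1, rfl⟩) (·.tail ⟨v1, rfl⟩)), ?_⟩
    have e : ∀ b ∈ Pn G X T, par b = v → par v ≠ b ∧ G.Adj v (par v) ∧ G.Adj v b := by
      rintro b b1 rfl
      refine ⟨fun e => ?_, (hp _ v1).1, (hp b b1).1.symm⟩
      have := (hp _ v1).2
      have := (hp b b1).2
      rw [e] at *
      omega
    rcases hv with hv | hv
    · rcases hv.cases_tail with rfl | ⟨b, b0, b1, b2⟩
      · exact ⟨z, Or.inr (Or.inr .refl), Ne.symm hc.1, (hp _ v1).1, ha⟩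
      · exact ⟨b, Or.inr (Or.inl b0), e b b1 b2⟩
    · rcases hv.cases_tail with rfl | ⟨b, b0, b1, b2⟩
      · exact ⟨w, Or.inr (Or.inl .refl), fun e => hc.2 ⟨v1, e⟩, (hp _ v1).1, ha.symm⟩
      · exact ⟨b, Or.inr (Or.inr b0), e b b1 b2⟩

variable [Fintype V] [DecidableEq V]

/-- The graph of a configuration. -/
def gr (ω : Sym2 V → Bool) : SimpleGraph V := SimpleGraph.fromEdgeSet {e | ω e = true}

variable {ω : Sym2 V → Bool}

omit [Fintype V] [DecidableEq V] in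
theorem gr_adj {a b : V} : (gr ω).Adj a b ↔ ω s(a, b) = true ∧ a ≠ b := by simp [gr]

omit [Fintype V] [DecidableEq V] in
theorem mem_row {Y : Finset V} {t u : V} (ht : t ∉ Y) :
    u ∈ row ω Y t ↔ u ∈ Y ∧ (gr ω).Adj t u := by
  rw [row, mem_filter, gr_adj]
  exact ⟨fun h => ⟨h.1, h.2, fun e => ht (e ▸ h.1)⟩, fun h => ⟨h.1, h.2.1⟩⟩

omit [Fintype V] in
theorem card_fe {W : Finset V} (h : ∀ w ∈ W, ht (par w) < ht w) : (fe W par).card = W.card := by
  refine card_image_of_injOn fun a ha b hb e => ?_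
  rcases Sym2.eq_iff.1 e with e | e
  · exact e.1
  · have := h a ha
    have := h b hb
    rw [e.2, ← e.1] at *
    omega

theorem exists_maps {W Z : Finset V}
    (h : ∀ w ∈ W, par w ∈ Z ∧ (gr ω).Adj w (par w) ∧ ht (par w) < ht w) :
    ∃ f ∈ maps W Z, (fe W f).card = W.card ∧ ∀ e ∈ fe W f, ω e = true := by
  have e : fe W (fun w => if w ∈ W then par w else w) = fe W par :=
    image_congr fun w hw => by simp only [mem_coe.1 hw, if_true]
  refine ⟨fun w => if w ∈ W then par w else w, Fintype.mem_piFinset.2 fun w => ?_, ?_⟩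
  · split_ifs with a
    exacts [(h w a).1, mem_singleton_self _]
  · rw [e]
    refine ⟨card_fe fun w hw => (h w hw).2.2, fun x hx => ?_⟩
    obtain ⟨w, hw, rfl⟩ := mem_image.1 hx
    exact (gr_adj.1 (h w hw).2.1).1

theorem Core.evB (h : Core (gr ω) X) {S P : Finset V} (hS : ↑S ⊆ X)
    (hP : ∀ w, w ∈ P ↔ w ∈ Pn (gr ω) X S) {s L : ℕ} (hs : S.card ≤ s) (hL : L < P.card) :
    EvB s L ω := by
  classical
  obtain ⟨par, ht, hp⟩ := h.par hS
  let r : V → V → Prop := fun a b => a ∈ P ∧ par a = b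
  let D : V → Finset V := fun c => P.filter fun y => ReflTransGen r y c
  have up : ∀ c ∈ P, ∀ y ∈ D c, y = c ∨ par y ∈ D c := by
    intro c hc y hy
    rcases (mem_filter.1 hy).2.cases_head with e | ⟨_, ⟨-, rfl⟩, b⟩
    · exact Or.inl e
    · refine Or.inr (mem_filter.2 ⟨?_, b⟩)
      rcases b.cases_head with e | ⟨_, a, -⟩
      exacts [e ▸ hc, a.1]
  have key : ∀ R : Finset V, R.card ≤ s → (∀ c ∈ P, par c ∈ R → (D c).card ≤ L) →
      L ≤ ((P.filter fun c => par c ∈ R).biUnion D).card → EvB s L ω := by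
    intro R r1 r2 r3
    obtain ⟨J, j1, j2, j3⟩ := exists_union _ D
      (fun c hc => r2 c (mem_filter.1 hc).1 (mem_filter.1 hc).2) r3
    have pa : ∀ w ∈ J.biUnion D, w ∈ Pn (gr ω) X S ∧ par w ∈ J.biUnion D ∪ R := fun w hw => by
      obtain ⟨c, c1, c2⟩ := mem_biUnion.1 hw
      refine ⟨(hP w).1 (mem_filter.1 c2).1, ?_⟩
      rcases up c (mem_filter.1 (j1 c1)).1 w c2 with rfl | a
      exacts [mem_union_right _ (mem_filter.1 (j1 c1)).2, mem_union_left _ (mem_biUnion.2 ⟨c, c1, a⟩)]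
    obtain ⟨f, f1, f2, f3⟩ := exists_maps (ω := ω) (ht := ht)
      fun w hw => ⟨(pa w hw).2, hp w (pa w hw).1⟩
    refine ⟨R, _, r1, j2, j3, f, f1, f2, f3, fun t ht => ?_⟩
    rw [card_eq_zero, eq_empty_iff_forall_notMem]
    intro y hy
    obtain ⟨y1, y2⟩ := (mem_row fun a => ht (mem_union_left _ a)).1 hy
    rcases h.tree hS hp (pa y y1).1 y2.symm with rfl | ⟨a, b⟩
    · exact ht (pa y y1).2
    · obtain ⟨c, c1, c2⟩ := mem_biUnion.1 y1
      exact ht (mem_union_left _ (mem_biUnion.2 ⟨c, c1, mem_filter.2 ⟨(hP t).2 a,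
        (mem_filter.1 c2).2.head ⟨(hP t).2 a, b⟩⟩⟩))
  by_cases hb : (P.filter fun c => L < (D c).card).Nonempty
  · obtain ⟨c, c1, c2⟩ := exists_max_image _ ht hb
    obtain ⟨c3, c4⟩ := mem_filter.1 c1
    obtain ⟨-, x, x1, -⟩ := (hP c).1 c3
    refine key {c} ((card_pos.2 ⟨x, x1⟩).trans_le hs) (fun d d1 d2 => le_of_not_gt fun a => ?_) ?_
    · have := c2 d (mem_filter.2 ⟨d1, a⟩)
      have := (hp d ((hP d).1 d1)).2
      rw [mem_singleton.1 d2] at this
      omega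
    · have : D c ⊆ insert c ((P.filter fun d => par d ∈ ({c} : Finset V)).biUnion D) := by
        intro y hy
        rcases (mem_filter.1 hy).2.cases_tail with e | ⟨b, b1, b2⟩
        · exact e ▸ mem_insert_self _ _
        · exact mem_insert_of_mem (mem_biUnion.2 ⟨b, mem_filter.2 ⟨b2.1, mem_singleton.2 b2.2⟩,
            mem_filter.2 ⟨(mem_filter.1 hy).1, b1⟩⟩)
      have := (card_le_card this).trans (card_insert_le _ _)
      omega
  · refine key S hs (fun c c1 _ => le_of_not_gt fun a => hb ⟨c, mem_filter.2 ⟨c1, a⟩⟩)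
      (hL.le.trans (card_le_card fun y hy => ?_))
    induction hn : ht y using Nat.strong_induction_on generalizing y with
    | _ n ih =>
      have y1 := (hP y).1 hy
      rcases h.pn_adj hS y1 (hp y y1).1 with a | a
      · exact mem_biUnion.2 ⟨y, mem_filter.2 ⟨hy, a⟩, mem_filter.2 ⟨hy, .refl⟩⟩
      · obtain ⟨c, c1, c2⟩ := mem_biUnion.1 (ih _ (hn ▸ (hp y y1).2) _ ((hP _).2 a) rfl)
        exact mem_biUnion.2 ⟨c, c1, mem_filter.2 ⟨hy, (mem_filter.1 c2).2.head ⟨hy, rfl⟩⟩⟩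

end Pool.Agent.P.MP_f57657_co
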