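import Pool.Agent.P.MP_f57657_co.Prob

/-! First moment bound for small sets with positive excess and no private neighbour. -/

open Finset

namespace Pool.Agent.P.MP_f57657_co

variable {V : Type*} [Fintype V] [DecidableEq V] {p : ℝ}

/-- The edges of a parent function. -/
def fe (W : Finset V) (f : V → V) : Finset (Sym2 V) := W.image fun w => s(w, f w)

theorem Ex_forest {ι : Type*} [Fintype ι] [DecidableEq ι] (E D : Finset ι) (z : ℝ) :
    Ex p (fun ω => (∏ e ∈ E, if ω e then (1 : ℝ) else 0) * z ^ nb (D \ E) ω) =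
      p ^ E.card * (1 - p + p * z) ^ (D \ E).card := by
  have := Ex_prod (p := p) (E ∪ (D \ E))
    (fun e b => if e ∈ E then (if b then 1 else 0) else if b then z else 1)
  simp only [prod_union disjoint_sdiff] at this
  have e1 : ∀ ω : ι → Bool, (∏ e ∈ E, if ω e then (1 : ℝ) else 0) * z ^ nb (D \ E) ω =
      (∏ e ∈ E, if e ∈ E then (if ω e then (1 : ℝ) else 0) else if ω e then z else 1) *
        ∏ e ∈ D \ E, if e ∈ E then (if ω e then (1 : ℝ) else 0) else if ω e then z else 1 := by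
    intro ω
    rw [pow_nb]
    congr 1
    · exact prod_congr rfl fun e he => (if_pos he).symm
    · exact prod_congr rfl fun e he => (if_neg (mem_sdiff.1 he).2).symm
  simp only [e1]
  rw [this, ← prod_const, ← prod_const]
  congr 1
  · exact prod_congr rfl fun e he => by simp [he]
  · exact prod_congr rfl fun e he => by simp [(mem_sdiff.1 he).2, add_comm]

theorem add_pow_le_aux {q b : ℝ} (h0 : 0 ≤ q) (h1 : q ≤ 1) (hb : 0 ≤ b) (m : ℕ) :
    (q + b) ^ m ≤ q ^ m + ((1 + b) ^ m - 1) := by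
  induction m with
  | zero => simp
  | succ m ih =>
    have a1 : q ^ m ≤ 1 := pow_le_one₀ h0 h1
    have a2 : 1 ≤ (1 + b) ^ m := one_le_pow₀ (by linarith)
    have a3 := mul_le_mul_of_nonneg_left ih (show 0 ≤ q + b by linarith)
    rw [pow_succ', pow_succ', pow_succ']
    nlinarith [mul_le_mul_of_nonneg_left a1 hb, mul_nonneg (sub_nonneg.2 h1) (sub_nonneg.2 a2)]

theorem one_add_pow_le {b : ℝ} (hb : -1 ≤ b) (m : ℕ) : (1 + b) ^ m ≤ Real.exp (m * b) := by
  rw [Real.exp_nat_mul]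
  exact pow_le_pow_left₀ (by linarith) (by linarith [Real.add_one_le_exp b]) _

/-- The weight of a row. -/
noncomputable def gw (z : ℝ) (N : ℕ) : ℝ := if N = 1 then 0 else z ^ (N - 1)

theorem Ex_gw (h0 : 0 ≤ p) (h1 : p ≤ 1) {θ z : ℝ} (hθ : θ ≤ 1) (hz : 0 ≤ z) (Y : Finset V) (t : V)
    (hP : Y.card * p ≤ θ) (hzp : Y.card * (p * z) ≤ θ) :
    Ex p (fun ω => gw z (row ω Y t).card) ≤ Real.exp (-(Y.card * p) * (1 - 3 * θ)) := by
  have e1 : ∀ N : ℕ, gw z N ≤ (0 : ℝ) ^ N + (N * z ^ (N - 1) - N * (0 : ℝ) ^ (N - 1)) := by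
    intro N
    rcases N with _ | _ | N
    · simp [gw]
    · simp [gw]
    · have : 0 ≤ z ^ (N + 1) := by positivity
      have h2 : (0 : ℝ) ≤ N := N.cast_nonneg
      simp only [gw, show N + 1 + 1 ≠ 1 by omega, if_false, add_tsub_cancel_right]
      push_cast
      rw [zero_pow (by omega), zero_pow (by omega)]
      nlinarith
  refine (Ex_mono h0 h1 fun ω => e1 _).trans ?_
  simp only [card_row]
  rw [Ex_add, Ex_sub, Ex_pow, Ex_nb_mul, Ex_nb_mul, card_star, mul_zero, add_zero]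
  set y := Y.card
  have hP0 : 0 ≤ y * p := by positivity
  have hb : 0 ≤ p * z := by positivity
  have a1 := add_pow_le_aux (sub_nonneg.2 h1) (by linarith : 1 - p ≤ 1) hb (y - 1)
  have a2 : (1 + p * z) ^ (y - 1) ≤ 1 + 2 * θ := by
    have b1 : (1 + p * z) ^ (y - 1) ≤ (1 + p * z) ^ y :=
      pow_le_pow_right₀ (by linarith) (Nat.sub_le _ _)
    have b2 := one_add_pow_le (show -1 ≤ p * z by linarith) y
    have b3 := Real.exp_le_exp.2 hzp
    have b4 := (abs_le.1 (Real.abs_exp_sub_one_sub_id_le (x := θ)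
      (by rw [abs_of_nonneg (by linarith)]; exact hθ))).2
    nlinarith
  have a3 : (1 - p) ^ y ≤ 1 - y * p + y * p * θ := by
    have b2 := one_add_pow_le (show -1 ≤ -p by linarith) y
    have b4 := (abs_le.1 (Real.abs_exp_sub_one_sub_id_le (x := y * -p)
      (by rw [mul_neg, abs_neg, abs_of_nonneg hP0]; linarith))).2
    rw [← sub_eq_add_neg] at b2
    nlinarith [mul_le_mul_of_nonneg_left hP hP0]
  have a4 := Real.add_one_le_exp (-(y * p) * (1 - 3 * θ))
  nlinarith [mul_le_mul_of_nonneg_left (a1.trans (add_le_add_right (sub_le_sub_right a2 1) _)) hP0]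

/-- The event of the first moment bound, for given data. -/
def EvA0 (M : ℕ) (Y Rt : Finset V) (f : V → V) (ω : Sym2 V → Bool) : Prop :=
  (fe (Y \ Rt) f).card = (Y \ Rt).card ∧ (∀ e ∈ fe (Y \ Rt) f, ω e = true) ∧
    (∀ t ∉ Y, (row ω Y t).card ≠ 1) ∧ ∃ x : ℕ, 1 ≤ x ∧ Rt.card ≤ M * x ∧
      Y.card + x ≤ nb Y.sym2 ω + ∑ t ∈ Yᶜ, ((row ω Y t).card - 1)

omit [Fintype V] in
theorem mix_of_sym2 {Y Z : Finset V} {t : V} (ht : t ∉ Z) {e : Sym2 V} (he : e ∈ Z.sym2)
    (ω ω' : Sym2 V → Bool) : mix (star Y t) ω ω' e = ω e := by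
  induction e using Sym2.ind with
  | _ a b =>
    rw [mk_mem_sym2_iff] at he
    exact mix_star (fun h : a = t => ht (h ▸ he.1)) (fun h : b = t => ht (h ▸ he.2)) ω ω'

omit [DecidableEq V] in
theorem mem_maps [DecidableEq V] {W Z : Finset V} {f : V → V} (h : f ∈ maps W Z) {w : V}
    (hw : w ∈ W) : f w ∈ Z := by
  simpa [hw] using Fintype.mem_piFinset.1 h w

theorem fe_subset {W Z : Finset V} {f : V → V} (h : f ∈ maps W Z) (hW : W ⊆ Z) :
    fe W f ⊆ Z.sym2 := by
  intro e he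
  obtain ⟨w, hw, rfl⟩ := mem_image.1 he
  exact mk_mem_sym2_iff.2 ⟨hW hw, mem_maps h hw⟩

theorem Pr_EvA0 (h0 : 0 < p) (h1 : p ≤ 1) {θ : ℝ} (hθ0 : 0 < θ) (hθ : θ ≤ 1) (M : ℕ)
    {Y Rt : Finset V} (hY : Y.Nonempty) (hP : Y.card * p ≤ θ ^ (2 * M + 1)) (hR : Rt ⊆ Y)
    {f : V → V} (hf : f ∈ maps (Y \ Rt) Y) :
    Pr p (EvA0 M Y Rt f) ≤ Y.card * p / θ ^ (2 * M + 1) * (Y.card * p * θ) ^ Rt.card *
      (Real.exp (-(Y.card * p) * (1 - 3 * θ)) ^ (Yᶜ).card *
        (p ^ (Y \ Rt).card * Real.exp (θ * Y.card))) := by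
  have hy : (1 : ℝ) ≤ Y.card := by exact_mod_cast hY.card_pos
  have hP0 : 0 < Y.card * p := by positivity
  have hPθ : Y.card * p ≤ θ :=
    hP.trans (by simpa using pow_le_pow_of_le_one hθ0.le hθ (show 1 ≤ 2 * M + 1 by omega))
  set z : ℝ := θ / (Y.card * p) with hz
  have hz1 : 1 ≤ z := (one_le_div hP0).2 hPθ
  have hzp : Y.card * (p * z) = θ := by rw [hz]; field_simp
  by_cases hc : (fe (Y \ Rt) f).card = (Y \ Rt).card
  swap
  · rw [Pr_false fun ω h => hc h.1]
    positivity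
  have hsub := fe_subset hf sdiff_subset
  set K : ℝ := Y.card * p / θ ^ (2 * M + 1) * (Y.card * p * θ) ^ Rt.card with hK
  have hK0 : 0 ≤ K := by positivity
  have hg0 : ∀ N, 0 ≤ gw z N := fun N => by unfold gw; split_ifs <;> positivity
  refine (Pr_le h0.le h1 (f := fun ω => K * (((∏ e ∈ fe (Y \ Rt) f, if ω e then (1 : ℝ) else 0) *
    z ^ nb (Y.sym2 \ fe (Y \ Rt) f) ω) * ∏ t ∈ Yᶜ, gw z (row ω Y t).card)) (fun ω => ?_)
    fun ω h => ?_).trans ?_
  · exact mul_nonneg hK0 (mul_nonneg (mul_nonneg (prod_nonneg fun e _ => by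
      split_ifs <;> norm_num) (by positivity)) (prod_nonneg fun t _ => hg0 _))
  · obtain ⟨-, h2, h3, x, hx, hM, h4⟩ := h
    rw [prod_congr rfl (g := fun _ => 1) fun e he => by simp [h2 e he], prod_const_one, one_mul,
      prod_congr rfl (f := fun t => gw z (row ω Y t).card)
        (g := fun t => z ^ ((row ω Y t).card - 1)) fun t ht =>
        if_neg (h3 t (mem_compl.1 ht)), prod_pow_eq_pow_sum, ← pow_add]
    have h5 : nb Y.sym2 ω ≤ nb (Y.sym2 \ fe (Y \ Rt) f) ω + (fe (Y \ Rt) f).card := by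
      refine le_trans (card_le_card fun e he => ?_) (card_union_le _ _)
      rw [mem_filter] at he
      by_cases h : e ∈ fe (Y \ Rt) f
      · exact mem_union_right _ h
      · exact mem_union_left _ (mem_filter.2 ⟨mem_sdiff.2 ⟨he.1, h⟩, he.2⟩)
    have h6 := card_sdiff_add_card_eq_card hR
    refine le_trans ?_ (mul_le_mul_of_nonneg_left (pow_le_pow_right₀ hz1
      (show Rt.card + x ≤ _ by omega)) hK0)
    obtain ⟨x, rfl⟩ : ∃ x', x = x' + 1 := ⟨x - 1, by omega⟩
    have h7 : Y.card * p * θ * z = θ ^ 2 := by rw [hz]; field_simp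
    have h8 : K * z ^ (Rt.card + (x + 1)) = (θ ^ 2) ^ Rt.card * z ^ x / (θ ^ 2) ^ M := by
      have h7' : Y.card * p * z = θ := by rw [hz]; field_simp
      calc K * z ^ (Rt.card + (x + 1)) = (Y.card * p * z) * (Y.card * p * θ * z) ^ Rt.card *
            z ^ x / θ ^ (2 * M + 1) := by rw [hK]; ring
        _ = _ := by rw [h7, h7']; field_simp; ring
    have h9 : 1 ≤ (θ ^ 2) ^ M * z := by
      rw [hz, ← mul_div_assoc, one_le_div hP0, ← pow_mul, ← pow_succ]
      exact hP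
    rw [h8, one_le_div (by positivity)]
    calc (θ ^ 2) ^ M ≤ (θ ^ 2) ^ M * ((θ ^ 2) ^ M * z) ^ x :=
          le_mul_of_one_le_right (by positivity) (one_le_pow₀ h9)
      _ = (θ ^ 2) ^ (M * (x + 1)) * z ^ x := by ring
      _ ≤ _ := mul_le_mul_of_nonneg_right
          (pow_le_pow_of_le_one (by positivity) (pow_le_one₀ hθ0.le hθ) hM) (by positivity)
  · rw [Ex_mul]
    refine mul_le_mul_of_nonneg_left ((rows_peel h0.le h1 (fun t ht => mem_compl.1 ht) _
      (fun _ a => gw z a.card) (Real.exp_pos _).le (fun ω => mul_nonneg (prod_nonneg fun e _ => by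
        split_ifs <;> norm_num) (by positivity)) (fun _ _ => hg0 _) (fun t ht ω ω' => ?_)
      (fun _ _ _ _ => rfl) fun t _ _ => Ex_gw h0.le h1 hθ (by linarith) Y t hPθ hzp.le).trans
      (mul_le_mul_of_nonneg_left ?_ (by positivity))) hK0
    · rw [prod_congr rfl fun e he => by rw [mix_of_sym2 (mem_compl.1 ht) (hsub he)], nb, nb,
        filter_congr fun e he => by rw [mix_of_sym2 (mem_compl.1 ht) (mem_sdiff.1 he).1]]
    · rw [Ex_forest, hc]
      refine mul_le_mul_of_nonneg_left ?_ (by positivity)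
      have b1 : (Y.sym2 \ fe (Y \ Rt) f).card ≤ Y.card * Y.card := by
        refine (card_le_card sdiff_subset).trans ?_
        rw [card_sym2, Nat.choose_two_right, add_tsub_cancel_right]
        have := hY.card_pos
        refine Nat.div_le_of_le_mul ?_
        nlinarith
      calc (1 - p + p * z) ^ (Y.sym2 \ fe (Y \ Rt) f).card
          ≤ (1 + p * z) ^ (Y.sym2 \ fe (Y \ Rt) f).card :=
            pow_le_pow_left₀ (by nlinarith) (by linarith) _
        _ ≤ (1 + p * z) ^ (Y.card * Y.card) := pow_le_pow_right₀ (by nlinarith) b1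
        _ ≤ _ := (one_add_pow_le (by nlinarith) _).trans (le_of_eq (by
            rw [← hzp]; push_cast; ring_nf))

/-- The event of the first moment bound. -/
def EvA (p θ : ℝ) (M : ℕ) (ω : Sym2 V → Bool) : Prop :=
  ∃ Y Rt : Finset V, Y.Nonempty ∧ Y.card * p ≤ θ ^ (2 * M + 1) ∧ Rt ⊆ Y ∧
    ∃ f ∈ maps (Y \ Rt) Y, EvA0 M Y Rt f ω

omit [DecidableEq V] in
theorem sum_card (φ : ℕ → ℝ) : ∑ Y : Finset V, φ Y.card =
    ∑ y ∈ range (Fintype.card V + 1), ((Fintype.card V).choose y : ℝ) * φ y := by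
  have := sum_powerset_apply_card φ (x := (univ : Finset V))
  simpa using this

theorem Pr_EvA (h0 : 0 < p) (h1 : p ≤ 1) {θ : ℝ} (hθ0 : 0 < θ) (hθ : θ ≤ 1 / 8) (M : ℕ)
    (hl : 1 ≤ Fintype.card V * p)
    (hγ : Real.exp 1 * (Fintype.card V * p) ≤ Real.exp ((1 - 8 * θ) * (Fintype.card V * p))) :
    Pr p (EvA (V := V) p θ M) ≤
      1 / θ ^ (2 * M + 2) * (1 - Real.exp (-θ))⁻¹ / Fintype.card V := by
  classical
  set n := Fintype.card V with hn
  have hn0 : (0 : ℝ) < n := pos_of_mul_pos_left (show 0 < n * p by linarith) h0.le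
  set φ : ℕ → ℝ := fun y => y * p / θ ^ (2 * M + 1) * (p ^ y * (y : ℝ) ^ y *
    Real.exp (2 * θ * y - (1 - 4 * θ) * (n * p) * y)) with hφ
  have step : ∀ Y : Finset V, Pr p (fun ω => Y.Nonempty ∧ Y.card * p ≤ θ ^ (2 * M + 1) ∧
      ∃ Rt ⊆ Y, ∃ f ∈ maps (Y \ Rt) Y, EvA0 M Y Rt f ω) ≤ φ Y.card := by
    intro Y
    by_cases hY : Y.Nonempty ∧ Y.card * p ≤ θ ^ (2 * M + 1)
    swap
    · rw [Pr_false fun ω h => hY ⟨h.1, h.2.1⟩]
      positivity
    have hPθ : Y.card * p ≤ θ := hY.2.trans (by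
      simpa using pow_le_pow_of_le_one hθ0.le (by linarith) (show 1 ≤ 2 * M + 1 by omega))
    refine (Pr_union h0.le h1 Y.powerset (fun Rt ω => ∃ f ∈ maps (Y \ Rt) Y, EvA0 M Y Rt f ω)
      fun ω ⟨_, _, Rt, hR, h⟩ => ⟨Rt, mem_powerset.2 hR, h⟩).trans ?_
    set Q : ℝ := Y.card * p / θ ^ (2 * M + 1) * (p ^ Y.card * (Y.card : ℝ) ^ Y.card *
      (Real.exp (-(Y.card * p) * (1 - 3 * θ)) ^ (Yᶜ).card * Real.exp (θ * Y.card))) with hQ
    refine (sum_le_sum (g := fun Rt => Q * θ ^ Rt.card) fun Rt hR => ?_).trans ?_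
    · refine (Pr_union h0.le h1 _ _ fun ω h => h).trans ((sum_le_card_nsmul _ _ _ fun f hf =>
        Pr_EvA0 h0 h1 hθ0 (by linarith) M hY.1 hY.2 (mem_powerset.1 hR) hf).trans (le_of_eq ?_))
      have h6 := card_sdiff_add_card_eq_card (mem_powerset.1 hR)
      rw [card_maps, nsmul_eq_mul, hQ]
      generalize Real.exp (θ * Y.card) = A
      generalize Real.exp (-(Y.card * p) * (1 - 3 * θ)) ^ (Yᶜ).card = B
      have e1 : p ^ Y.card = p ^ (Y \ Rt).card * p ^ Rt.card := by rw [← pow_add, h6]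
      have e2 : (Y.card : ℝ) ^ Y.card = (Y.card : ℝ) ^ (Y \ Rt).card * (Y.card : ℝ) ^ Rt.card := by
        rw [← pow_add, h6]
      rw [e1, e2]
      push_cast
      ring
    · have e1 : ∑ Rt ∈ Y.powerset, θ ^ Rt.card = (1 + θ) ^ Y.card := by
        simpa [add_comm] using Finset.sum_pow_mul_eq_add_pow θ 1 Y
      rw [← mul_sum, e1, hQ, hφ, mul_assoc, mul_assoc (p ^ Y.card * _)]
      refine mul_le_mul_of_nonneg_left (mul_le_mul_of_nonneg_left ?_ (by positivity))
        (by positivity)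
      refine (mul_le_mul_of_nonneg_left (one_add_pow_le (by linarith) _) (by positivity)).trans ?_
      rw [← Real.exp_nat_mul, ← Real.exp_add, ← Real.exp_add, Real.exp_le_exp, card_compl,
        Nat.cast_sub (card_le_univ Y), ← hn]
      have b0 : (0 : ℝ) ≤ Y.card := Nat.cast_nonneg _
      have b1 : (Y.card : ℝ) ≤ θ * n := by nlinarith
      have b2 : (1 - 4 * θ) * n ≤ (n - Y.card) * (1 - 3 * θ) := by nlinarith
      nlinarith [mul_le_mul_of_nonneg_left b2 (mul_nonneg b0 h0.le)]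
  refine (Pr_union h0.le h1 univ _ fun ω ⟨Y, Rt, a1, a2, a3, a4⟩ =>
    ⟨Y, mem_univ _, a1, a2, Rt, a3, a4⟩).trans ((sum_le_sum fun Y _ => step Y).trans ?_)
  rw [sum_card φ, ← hn]
  have hr : Real.exp (-θ) < 1 := Real.exp_lt_one_iff.2 (by linarith)
  refine (sum_le_sum (g := fun y => 1 / θ ^ (2 * M + 2) / n * Real.exp (-θ) ^ y)
    fun y _ => ?_).trans ?_
  · have b0 : (0 : ℝ) ≤ y := Nat.cast_nonneg _
    have b1 := choose_mul_pow_le n y b0
    have b2 : (n : ℝ) ^ y * Real.exp y * p ^ y ≤ Real.exp ((1 - 8 * θ) * (n * p) * y) := by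
      have := pow_le_pow_left₀ (by positivity) hγ y
      rw [← Real.exp_nat_mul, mul_pow, mul_pow, ← Real.exp_nat_mul, mul_one] at this
      calc _ = Real.exp y * ((n : ℝ) ^ y * p ^ y) := by ring
        _ ≤ _ := this.trans (le_of_eq (by ring_nf))
    have b3 : θ * (n * p) * y ≤ Real.exp (θ * (n * p) * y) := by
      linarith [Real.add_one_le_exp (θ * (n * p) * y)]
    calc (n.choose y : ℝ) * φ y = 1 / θ ^ (2 * M + 2) / n * (θ * (n * p) * y *
          ((n.choose y : ℝ) * (y : ℝ) ^ y * p ^ y *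
            Real.exp (2 * θ * y - (1 - 4 * θ) * (n * p) * y))) := by
          rw [hφ]; field_simp; ring
      _ ≤ 1 / θ ^ (2 * M + 2) / n * (Real.exp (θ * (n * p) * y) *
          (Real.exp ((1 - 8 * θ) * (n * p) * y) *
            Real.exp (2 * θ * y - (1 - 4 * θ) * (n * p) * y))) := by
          gcongr
          exact (mul_le_mul_of_nonneg_right b1 (by positivity)).trans b2
      _ ≤ _ := by
          rw [← Real.exp_nat_mul, ← Real.exp_add, ← Real.exp_add]
          gcongr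
          nlinarith [mul_le_mul_of_nonneg_left hl (mul_nonneg hθ0.le b0)]
  · rw [← mul_sum, div_mul_eq_mul_div]
    gcongr
    rw [← tsum_geometric_of_lt_one (Real.exp_pos _).le hr]
    exact (summable_geometric_of_lt_one (Real.exp_pos _).le hr).sum_le_tsum _
      fun _ _ => by positivity

end Pool.Agent.P.MP_f57657_co
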