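import Mathlib

/-! Finite product measure on `ι → Bool`: expectation, resampling, rows of a random graph. -/

open Finset

namespace Pool.Agent.P.MP_f57657_co

section General

variable {ι : Type*} [Fintype ι] [DecidableEq ι] {p : ℝ}

/-- The weight of a configuration. -/
noncomputable def wt (p : ℝ) (ω : ι → Bool) : ℝ := ∏ e, if ω e then p else 1 - p

/-- The expectation. -/
noncomputable def Ex (p : ℝ) (f : (ι → Bool) → ℝ) : ℝ := ∑ ω, wt p ω * f ω

omit [DecidableEq ι] in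
theorem wt_nonneg (h0 : 0 ≤ p) (h1 : p ≤ 1) (ω : ι → Bool) : 0 ≤ wt p ω :=
  prod_nonneg fun e _ => by split_ifs <;> linarith

theorem Ex_prod (D : Finset ι) (h : ι → Bool → ℝ) :
    Ex p (fun ω => ∏ e ∈ D, h e (ω e)) = ∏ e ∈ D, (p * h e true + (1 - p) * h e false) := by
  have e1 : ∀ ω : ι → Bool, wt p ω * ∏ e ∈ D, h e (ω e) =
      ∏ e, ((if ω e then p else 1 - p) * if e ∈ D then h e (ω e) else 1) := by
    intro ω
    rw [prod_mul_distrib, wt, prod_ite_mem, univ_inter]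
  have e2 := prod_univ_sum (fun _ : ι => (univ : Finset Bool))
    (fun e b => (if b then p else 1 - p) * if e ∈ D then h e b else 1)
  rw [Fintype.piFinset_univ] at e2
  simp only [Ex, e1]
  rw [← e2, ← univ_inter D, ← prod_ite_mem, univ_inter]
  refine prod_congr rfl fun e _ => ?_
  by_cases he : e ∈ D <;> simp [he]

theorem Ex_mul (c : ℝ) (f : (ι → Bool) → ℝ) : Ex p (fun ω => c * f ω) = c * Ex p f := by
  simp only [Ex, mul_sum]
  exact sum_congr rfl fun ω _ => by ring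

theorem Ex_const (c : ℝ) : Ex p (fun _ : ι → Bool => c) = c := by
  have := Ex_prod (p := p) (∅ : Finset ι) (fun _ _ => 1)
  simp only [prod_empty] at this
  have h2 := Ex_mul (p := p) c (fun _ : ι → Bool => 1)
  simpa [this] using h2

theorem Ex_add (f g : (ι → Bool) → ℝ) : Ex p (fun ω => f ω + g ω) = Ex p f + Ex p g := by
  simp only [Ex, mul_add, sum_add_distrib]

theorem Ex_sub (f g : (ι → Bool) → ℝ) : Ex p (fun ω => f ω - g ω) = Ex p f - Ex p g := by
  simp only [Ex, mul_sub, sum_sub_distrib]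

theorem Ex_sum {τ : Type*} (T : Finset τ) (f : τ → (ι → Bool) → ℝ) :
    Ex p (fun ω => ∑ t ∈ T, f t ω) = ∑ t ∈ T, Ex p (f t) := by
  simp only [Ex, mul_sum]
  exact sum_comm

theorem Ex_mono (h0 : 0 ≤ p) (h1 : p ≤ 1) {f g : (ι → Bool) → ℝ} (h : ∀ ω, f ω ≤ g ω) :
    Ex p f ≤ Ex p g :=
  sum_le_sum fun ω _ => mul_le_mul_of_nonneg_left (h ω) (wt_nonneg h0 h1 ω)

theorem Ex_nonneg (h0 : 0 ≤ p) (h1 : p ≤ 1) {f : (ι → Bool) → ℝ} (h : ∀ ω, 0 ≤ f ω) :
    0 ≤ Ex p f := by
  simpa [Ex_const] using Ex_mono h0 h1 (f := fun _ => 0) h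

/-- Resampling the coordinates in `D`. -/
def mix (D : Finset ι) (ω ω' : ι → Bool) : ι → Bool := fun e => if e ∈ D then ω' e else ω e

theorem Ex_mix (D : Finset ι) (f : (ι → Bool) → ℝ) :
    Ex p f = Ex p (fun ω => Ex p (fun ω' => f (mix D ω ω'))) := by
  let σ : (ι → Bool) × (ι → Bool) → (ι → Bool) × (ι → Bool) :=
    fun x => (mix D x.1 x.2, mix D x.2 x.1)
  have hσ : Function.Involutive σ := by
    rintro ⟨a, b⟩
    refine Prod.ext (funext fun e => ?_) (funext fun e => ?_) <;>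
      by_cases he : e ∈ D <;> simp [σ, mix, he]
  have hw : ∀ a b : ι → Bool, wt p (mix D a b) * wt p (mix D b a) = wt p a * wt p b := by
    intro a b
    simp only [wt, ← prod_mul_distrib]
    refine prod_congr rfl fun e _ => ?_
    by_cases he : e ∈ D <;> simp [mix, he, mul_comm]
  have h1 : Ex p f = ∑ x : (ι → Bool) × (ι → Bool), wt p x.1 * wt p x.2 * f x.1 := by
    rw [Fintype.sum_prod_type]
    refine sum_congr rfl fun a _ => ?_
    have := Ex_const (ι := ι) (p := p) (wt p a * f a)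
    rw [← this, Ex]
    exact sum_congr rfl fun b _ => by ring
  rw [h1, ← Equiv.sum_comp hσ.toPerm, Fintype.sum_prod_type]
  simp only [Ex, mul_sum]
  refine sum_congr rfl fun a _ => sum_congr rfl fun b _ => ?_
  simp only [Function.Involutive.coe_toPerm, σ, hw]
  ring

theorem peel (h0 : 0 ≤ p) (h1 : p ≤ 1) {τ : Type*} (T : Finset τ) (D : τ → Finset ι)
    (f : (ι → Bool) → ℝ) (g : τ → (ι → Bool) → ℝ) {c : ℝ} (hc0 : 0 ≤ c) (hf0 : ∀ ω, 0 ≤ f ω)
    (hg0 : ∀ t ω, 0 ≤ g t ω) (hf : ∀ t ∈ T, ∀ ω ω', f (mix (D t) ω ω') = f ω)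
    (hg : ∀ t ∈ T, ∀ s ∈ T, s ≠ t → ∀ ω ω', g s (mix (D t) ω ω') = g s ω)
    (hc : ∀ t ∈ T, ∀ ω, Ex p (fun ω' => g t (mix (D t) ω ω')) ≤ c) :
    Ex p (fun ω => f ω * ∏ t ∈ T, g t ω) ≤ c ^ T.card * Ex p f := by
  classical
  induction T using Finset.induction_on with
  | empty => simp
  | insert t T ht ih =>
    have ih' := ih (fun s hs => hf s (mem_insert_of_mem hs))
      (fun s hs r hr => hg s (mem_insert_of_mem hs) r (mem_insert_of_mem hr))
      (fun s hs => hc s (mem_insert_of_mem hs))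
    rw [card_insert_of_notMem ht, pow_succ', mul_assoc]
    refine le_trans ?_ (mul_le_mul_of_nonneg_left ih' hc0)
    rw [Ex_mix (D t), ← Ex_mul]
    refine Ex_mono h0 h1 fun ω => ?_
    have e : ∀ ω', f (mix (D t) ω ω') * ∏ s ∈ insert t T, g s (mix (D t) ω ω') =
        (f ω * ∏ s ∈ T, g s ω) * g t (mix (D t) ω ω') := by
      intro ω'
      rw [prod_insert ht, hf t (mem_insert_self _ _), prod_congr rfl fun s hs =>
        hg t (mem_insert_self _ _) s (mem_insert_of_mem hs) (fun e => ht (e ▸ hs)) ω ω']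
      ring
    simp only [e]
    rw [Ex_mul, mul_comm c]
    exact mul_le_mul_of_nonneg_left (hc t (mem_insert_self _ _) ω)
      (mul_nonneg (hf0 ω) (prod_nonneg fun s _ => hg0 s ω))

/-- The number of open coordinates in `D`. -/
def nb (D : Finset ι) (ω : ι → Bool) : ℕ := (D.filter fun e => ω e = true).card

omit [Fintype ι] [DecidableEq ι] in
theorem pow_nb (D : Finset ι) (ω : ι → Bool) (z : ℝ) :
    z ^ nb D ω = ∏ e ∈ D, if ω e then z else 1 := by
  rw [nb, prod_ite, prod_const, prod_const_one, mul_one]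

theorem Ex_pow (D : Finset ι) (z : ℝ) :
    Ex p (fun ω => z ^ nb D ω) = (1 - p + p * z) ^ D.card := by
  simp only [pow_nb]
  rw [Ex_prod D (fun _ b => if b then z else 1)]
  simp [add_comm]

theorem Ex_one_pow {D : Finset ι} {e : ι} (he : e ∈ D) (z : ℝ) :
    Ex p (fun ω => (if ω e then 1 else 0) * z ^ nb (D.erase e) ω) =
      p * (1 - p + p * z) ^ (D.card - 1) := by
  have := Ex_prod (p := p) D
    (fun e' b => if e' = e then (if b then 1 else 0) else if b then z else 1)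
  have e1 : ∀ ω : ι → Bool, (∏ e' ∈ D, if e' = e then (if ω e' then (1 : ℝ) else 0)
      else if ω e' then z else 1) = (if ω e then 1 else 0) * z ^ nb (D.erase e) ω := by
    intro ω
    rw [← mul_prod_erase D _ he, pow_nb, if_pos rfl]
    congr 1
    exact prod_congr rfl fun e' h => if_neg (ne_of_mem_erase h)
  simp only [e1] at this
  rw [this, ← mul_prod_erase D _ he, prod_congr rfl (g := fun _ => 1 - p + p * z)
    fun e' h => by simp [ne_of_mem_erase h, add_comm]]
  simp [card_erase_of_mem he]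

omit [Fintype ι] in
theorem nb_erase {D : Finset ι} {e : ι} (he : e ∈ D) {ω : ι → Bool} (h : ω e = true) :
    nb (D.erase e) ω = nb D ω - 1 := by
  rw [nb, nb, filter_erase, card_erase_of_mem (by simp [he, h])]

omit [Fintype ι] in
theorem sum_one_pow (D : Finset ι) (ω : ι → Bool) (z : ℝ) :
    ∑ e ∈ D, (if ω e then 1 else 0) * z ^ nb (D.erase e) ω = nb D ω * z ^ (nb D ω - 1) := by
  rw [sum_congr rfl (g := fun e => if ω e then z ^ (nb D ω - 1) else 0) fun e he => by
    by_cases h : ω e = true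
    · simp [h, nb_erase he h]
    · simp [h]]
  rw [← sum_filter, sum_const, nsmul_eq_mul, nb]

theorem Ex_nb_mul (D : Finset ι) (z : ℝ) :
    Ex p (fun ω => nb D ω * z ^ (nb D ω - 1)) = D.card * (p * (1 - p + p * z) ^ (D.card - 1)) := by
  simp only [← sum_one_pow]
  rw [Ex_sum, sum_congr rfl fun e he => Ex_one_pow he z, sum_const, nsmul_eq_mul]

open Classical in
/-- The probability of an event. -/
noncomputable def Pr (p : ℝ) (A : (ι → Bool) → Prop) : ℝ := Ex p fun ω => if A ω then 1 else 0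

theorem Pr_le (h0 : 0 ≤ p) (h1 : p ≤ 1) {A : (ι → Bool) → Prop} {f : (ι → Bool) → ℝ}
    (hf : ∀ ω, 0 ≤ f ω) (h : ∀ ω, A ω → 1 ≤ f ω) : Pr p A ≤ Ex p f := by
  refine Ex_mono h0 h1 fun ω => ?_
  split_ifs with hA
  exacts [h ω hA, hf ω]

theorem Pr_nonneg (h0 : 0 ≤ p) (h1 : p ≤ 1) (A : (ι → Bool) → Prop) : 0 ≤ Pr p A :=
  Ex_nonneg h0 h1 fun ω => by split_ifs <;> norm_num

theorem Pr_mono (h0 : 0 ≤ p) (h1 : p ≤ 1) {A B : (ι → Bool) → Prop} (h : ∀ ω, A ω → B ω) :
    Pr p A ≤ Pr p B :=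
  Pr_le h0 h1 (fun ω => by split_ifs <;> norm_num) fun ω hA => by rw [if_pos (h ω hA)]

theorem Pr_union (h0 : 0 ≤ p) (h1 : p ≤ 1) {τ : Type*} (T : Finset τ) {A : (ι → Bool) → Prop}
    (B : τ → (ι → Bool) → Prop) (h : ∀ ω, A ω → ∃ t ∈ T, B t ω) :
    Pr p A ≤ ∑ t ∈ T, Pr p (B t) := by
  classical
  simp only [Pr]
  rw [← Ex_sum]
  refine Pr_le h0 h1 (fun ω => sum_nonneg fun t _ => by split_ifs <;> norm_num) fun ω hA => ?_
  obtain ⟨t, ht, hB⟩ := h ω hA
  refine le_trans ?_ (single_le_sum (f := fun t => if B t ω then (1 : ℝ) else 0)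
    (fun t _ => by split_ifs <;> norm_num) ht)
  simp [hB]

theorem Pr_or (h0 : 0 ≤ p) (h1 : p ≤ 1) (A B : (ι → Bool) → Prop) :
    Pr p (fun ω => A ω ∨ B ω) ≤ Pr p A + Pr p B := by
  simp only [Pr]
  rw [← Ex_add]
  refine Pr_le h0 h1 (fun ω => by split_ifs <;> norm_num) fun ω h => ?_
  rcases h with h | h <;> simp only [h, if_true] <;> split_ifs <;> norm_num

theorem Pr_false {A : (ι → Bool) → Prop} (h : ∀ ω, ¬A ω) : Pr p A = 0 := by
  simp [Pr, h, Ex_const]

end General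

section Rows

variable {V : Type*} [Fintype V] [DecidableEq V] {p : ℝ}

/-- The pairs from `t` to `Y`. -/
def star (Y : Finset V) (t : V) : Finset (Sym2 V) := Y.image fun u => s(t, u)

/-- The neighbours of `t` in `Y`. -/
def row (ω : Sym2 V → Bool) (Y : Finset V) (t : V) : Finset V :=
  Y.filter fun u => ω s(t, u) = true

omit [Fintype V] in
theorem card_star (Y : Finset V) (t : V) : (star Y t).card = Y.card :=
  card_image_of_injective _ fun _ _ h => Sym2.congr_right.1 h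

omit [Fintype V] in
theorem card_row (ω : Sym2 V → Bool) (Y : Finset V) (t : V) :
    (row ω Y t).card = nb (star Y t) ω := by
  rw [nb, star, filter_image, card_image_of_injective _ fun _ _ h => Sym2.congr_right.1 h, row]

omit [Fintype V] in
theorem row_mix_self (ω ω' : Sym2 V → Bool) (Y : Finset V) (t : V) :
    row (mix (star Y t) ω ω') Y t = row ω' Y t :=
  filter_congr fun u hu => by rw [mix, if_pos (show s(t, u) ∈ star Y t from mem_image_of_mem _ hu)]

omit [Fintype V] in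
theorem mix_star {Y : Finset V} {t a b : V} (ha : a ≠ t) (hb : b ≠ t) (ω ω' : Sym2 V → Bool) :
    mix (star Y t) ω ω' s(a, b) = ω s(a, b) := by
  rw [mix, if_neg]
  intro h
  obtain ⟨u, -, hu⟩ := mem_image.1 h
  rcases Sym2.eq_iff.1 hu with h | h
  exacts [ha h.1.symm, hb h.1.symm]

omit [Fintype V] in
theorem row_mix_ne {Y : Finset V} {s t : V} (ht : t ∉ Y) (h : s ≠ t) (ω ω' : Sym2 V → Bool) :
    row (mix (star Y t) ω ω') Y s = row ω Y s :=
  filter_congr fun u hu => by rw [mix_star h (fun e => ht (e ▸ hu))]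

theorem rows_peel (h0 : 0 ≤ p) (h1 : p ≤ 1) {Y T : Finset V} (hT : ∀ t ∈ T, t ∉ Y)
    (f : (Sym2 V → Bool) → ℝ) (φ : (Sym2 V → Bool) → Finset V → ℝ) {c : ℝ} (hc0 : 0 ≤ c)
    (hf0 : ∀ ω, 0 ≤ f ω) (hφ0 : ∀ ω a, 0 ≤ φ ω a)
    (hf : ∀ t ∈ T, ∀ ω ω', f (mix (star Y t) ω ω') = f ω)
    (hφ : ∀ t ∈ T, ∀ ω ω', φ (mix (star Y t) ω ω') = φ ω)
    (hc : ∀ t ∈ T, ∀ ω, Ex p (fun ω' => φ ω (row ω' Y t)) ≤ c) :
    Ex p (fun ω => f ω * ∏ t ∈ T, φ ω (row ω Y t)) ≤ c ^ T.card * Ex p f :=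
  peel h0 h1 T (star Y) f (fun t ω => φ ω (row ω Y t)) hc0 hf0 (fun _ _ => hφ0 _ _) hf
    (fun t ht s _ hs ω ω' => by rw [hφ t ht, row_mix_ne (hT t ht) hs])
    fun t ht ω => by simpa only [hφ t ht, row_mix_self] using hc t ht ω

omit [DecidableEq V] in
/-- Counting small sets. -/
theorem card_small {a : ℝ} (h0 : 0 < a) (h1 : a ≤ 1) (k : ℕ) :
    (((univ : Finset (Finset V)).filter fun R => R.card ≤ k).card : ℝ) ≤
      (1 / a) ^ k * Real.exp (a * Fintype.card V) := by
  have e1 : ∑ R : Finset V, a ^ R.card = (a + 1) ^ Fintype.card V := by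
    have := Finset.sum_pow_mul_eq_add_pow a 1 (univ : Finset V)
    simpa using this
  have e2 : (a + 1) ^ Fintype.card V ≤ Real.exp (a * Fintype.card V) := by
    rw [mul_comm, Real.exp_nat_mul]
    exact pow_le_pow_left₀ (by linarith) (Real.add_one_le_exp a) _
  refine le_trans ?_ (mul_le_mul_of_nonneg_left (e1.le.trans e2) (by positivity))
  rw [mul_sum, card_eq_sum_ones, Nat.cast_sum]
  refine le_trans (sum_le_sum fun R hR => ?_)
    (sum_le_sum_of_subset_of_nonneg (filter_subset _ _) fun R _ _ => by positivity)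
  have hk : R.card ≤ k := (mem_filter.1 hR).2
  rw [Nat.cast_one, one_div, inv_pow, ← div_eq_inv_mul, le_div_iff₀ (by positivity), one_mul]
  exact pow_le_pow_of_le_one h0.le h1 hk

/-- The maps from `W` to `Z`, extended by the identity. -/
def maps (W Z : Finset V) : Finset (V → V) := Fintype.piFinset fun w => if w ∈ W then Z else {w}

theorem card_maps (W Z : Finset V) : (maps W Z).card = Z.card ^ W.card := by
  rw [maps, Fintype.card_piFinset, prod_congr rfl (g := fun w => if w ∈ W then Z.card else 1)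
    fun w _ => by split_ifs <;> simp]
  rw [prod_ite_mem, univ_inter, prod_const]

theorem choose_mul_pow_le (n k : ℕ) {a : ℝ} (ha : 0 ≤ a) :
    (n.choose k : ℝ) * a ^ k ≤ (n : ℝ) ^ k * Real.exp a := by
  have h1 : (n.choose k : ℝ) ≤ (n : ℝ) ^ k / k.factorial := Nat.choose_le_pow_div k n
  calc (n.choose k : ℝ) * a ^ k ≤ (n : ℝ) ^ k / k.factorial * a ^ k := by gcongr
    _ = (n : ℝ) ^ k * (a ^ k / k.factorial) := by ring
    _ ≤ _ := by gcongr; exact Real.pow_div_factorial_le_exp a ha k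

end Rows

end Pool.Agent.P.MP_f57657_co
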