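import Mathlib

/-! Switchings as isometries; removal of a vertex from the switching set. -/

open Finset

namespace Pool.Agent.P.MP_f57657_co

variable {X : Type*} [Fintype X] [DecidableEq X] {F H : SimpleGraph X} {S : Finset X}

open Classical in
/-- The neighbours of `t` in `W`. -/
noncomputable def nbr (F : SimpleGraph X) (W : Finset X) (t : X) : Finset X := W.filter (F.Adj t)

omit [Fintype X] [DecidableEq X] in
@[simp] theorem mem_nbr {W : Finset X} {t u : X} : u ∈ nbr F W t ↔ u ∈ W ∧ F.Adj t u := by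
  simp [nbr]

/-- The adjacency operator. -/
noncomputable def ad (F : SimpleGraph X) : (X → ℝ) →ₗ[ℝ] (X → ℝ) where
  toFun v i := ∑ j ∈ nbr F univ i, v j
  map_add' v w := by funext i; simp [sum_add_distrib]
  map_smul' c v := by funext i; simp [mul_sum]

omit [DecidableEq X] in
theorem ad_apply (v : X → ℝ) (i : X) : ad F v i = ∑ j ∈ nbr F univ i, v j := rfl

open Classical in
omit [DecidableEq X] in
theorem ad_ite (v : X → ℝ) (i : X) : ad F v i = ∑ j, if F.Adj i j then v j else 0 := by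
  rw [ad_apply, nbr, sum_filter]

omit [DecidableEq X] in
theorem ad_symm (v w : X → ℝ) : ad F v ⬝ᵥ w = v ⬝ᵥ ad F w := by
  classical
  simp only [dotProduct, ad_ite, sum_mul, mul_sum]
  rw [sum_comm]
  refine sum_congr rfl fun i _ => sum_congr rfl fun j _ => ?_
  by_cases h : F.Adj i j
  · simp [h, h.symm]
  · simp [h, show ¬F.Adj j i from fun h' => h h'.symm]

omit [DecidableEq X] in
theorem ad_pow_symm (k : ℕ) (v w : X → ℝ) : (ad F ^ k) v ⬝ᵥ w = v ⬝ᵥ (ad F ^ k) w := by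
  induction k generalizing v with
  | zero => simp
  | succ k ih => rw [pow_succ, Module.End.mul_apply, ih, ad_symm, ← Module.End.mul_apply,
      ← pow_succ', pow_succ]

/-- The unit vectors. -/
def uv (t : X) : X → ℝ := Pi.single t 1

omit [Fintype X] in
theorem uv_apply (t i : X) : uv t i = if i = t then 1 else 0 := by simp [uv, Pi.single_apply]

@[simp] theorem dot_uv (v : X → ℝ) (t : X) : v ⬝ᵥ uv t = v t := by simp [uv]

@[simp] theorem uv_dot (v : X → ℝ) (t : X) : uv t ⬝ᵥ v = v t := by simp [uv]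

open Classical in
theorem ad_uv (t i : X) : ad F (uv t) i = if F.Adj i t then 1 else 0 := by
  rw [ad_ite, sum_eq_single t] <;> simp +contextual [uv_apply]

/-- `Φ` is an isometry that fixes the unit vectors off `S` and intertwines the adjacency
operators. -/
structure Sw (F H : SimpleGraph X) (S : Finset X) (Φ : (X → ℝ) →ₗ[ℝ] (X → ℝ)) : Prop where
  dot : ∀ v w, Φ v ⬝ᵥ Φ w = v ⬝ᵥ w
  fix : ∀ t ∉ S, Φ (uv t) = uv t
  com : ∀ v, Φ (ad F v) = ad H (Φ v)

variable {Φ : (X → ℝ) →ₗ[ℝ] (X → ℝ)}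

theorem Sw.off (h : Sw F H S Φ) (v : X → ℝ) {t : X} (ht : t ∉ S) : Φ v t = v t := by
  rw [← dot_uv (Φ v), ← h.fix t ht, h.dot, dot_uv]

theorem Sw.pow (h : Sw F H S Φ) (k : ℕ) (v : X → ℝ) : Φ ((ad F ^ k) v) = (ad H ^ k) (Φ v) := by
  induction k with
  | zero => simp
  | succ k ih => rw [pow_succ', pow_succ', Module.End.mul_apply, Module.End.mul_apply, h.com, ih]

theorem Sw.symm (h : Sw F H S Φ) :
    ∃ Ψ, Sw H F S Ψ ∧ (∀ v, Ψ (Φ v) = v) ∧ ∀ v, Φ (Ψ v) = v := by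
  have hi : Function.Injective Φ := by
    rw [injective_iff_map_eq_zero]
    intro v hv
    have := h.dot v v
    rw [hv, zero_dotProduct] at this
    exact dotProduct_self_eq_zero.1 this.symm
  let e := LinearEquiv.ofInjectiveEndo Φ hi
  have h1 : ∀ v, Φ (e.symm v) = v := e.apply_symm_apply
  have h2 : ∀ v, e.symm (Φ v) = v := e.symm_apply_apply
  refine ⟨e.symm, ⟨fun v w => ?_, fun t ht => ?_, fun v => hi ?_⟩, h2, h1⟩
  · rw [← h.dot, LinearEquiv.coe_coe, h1, h1]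
  · rw [← h.fix t ht, LinearEquiv.coe_coe, h2, h.fix t ht]
  · rw [h.com, LinearEquiv.coe_coe, h1, h1]

/-- No isometry of the class sends a unit vector of `S` to a unit vector. -/
def Irr (F H : SimpleGraph X) (S : Finset X) : Prop :=
  (∃ Φ, Sw F H S Φ) ∧ ∀ Φ, Sw F H S Φ → ∀ u ∈ S, ∀ u' ∈ S, Φ (uv u) ≠ uv u'

theorem Irr.symm (h : Irr F H S) : Irr H F S := by
  obtain ⟨⟨Φ, h1⟩, h2⟩ := h
  refine ⟨h1.symm.imp fun _ h => h.1, fun Ψ hΨ u hu u' hu' e => ?_⟩
  obtain ⟨Φ', a1, a2, -⟩ := hΨ.symm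
  exact h2 Φ' a1 u' hu' u hu (by rw [← e, a2])

theorem Sw.erase (h : Sw F H S Φ) {u u' : X} (hu' : u' ∈ S)
    (e : Φ (uv u) = uv u') : ∃ (H' : SimpleGraph X) (Φ' : (X → ℝ) →ₗ[ℝ] (X → ℝ)),
      Nonempty (H' ≃g H) ∧ Sw F H' (S.erase u) Φ' := by
  classical
  let σ := Equiv.swap u u'
  refine ⟨H.comap σ, LinearMap.funLeft ℝ ℝ σ ∘ₗ Φ, ⟨SimpleGraph.Iso.comap σ H⟩,
    fun v w => ?_, fun t ht => ?_, fun v => ?_⟩
  · rw [← h.dot v w]
    exact Equiv.sum_comp σ fun i => Φ v i * Φ w i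
  · funext i
    rw [LinearMap.comp_apply, LinearMap.funLeft_apply]
    by_cases htu : t = u
    · rw [htu, e, uv_apply, uv_apply]
      simp [σ, Equiv.swap_apply_eq_iff]
    · have hts : t ∉ S := fun h' => ht (mem_erase.2 ⟨htu, h'⟩)
      rw [h.fix t hts, uv_apply, uv_apply]
      simp [σ, Equiv.swap_apply_eq_iff,
        Equiv.swap_apply_of_ne_of_ne htu (fun e : t = u' => hts (e ▸ hu'))]
  · funext i
    rw [LinearMap.comp_apply, LinearMap.funLeft_apply, h.com, ad_ite, ad_ite, ← Equiv.sum_comp σ]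
    rfl

theorem exists_irr (h : Sw F H S Φ) : Nonempty (H ≃g F) ∨ ∃ S' ⊆ S, ∃ H' : SimpleGraph X,
    S'.Nonempty ∧ Nonempty (H' ≃g H) ∧ Irr F H' S' := by
  classical
  induction hn : S.card generalizing H S Φ with
  | zero =>
    obtain rfl := card_eq_zero.1 hn
    have : H = F := by
      ext i t
      have h1 := congrFun (h.com (uv t)) i
      rw [h.off _ (notMem_empty i), h.fix t (notMem_empty t), ad_uv, ad_uv] at h1
      by_cases a : H.Adj i t <;> by_cases b : F.Adj i t <;> simp_all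
    exact Or.inl ⟨this ▸ SimpleGraph.Iso.refl⟩
  | succ n ih =>
    by_cases hI : Irr F H S
    · exact Or.inr ⟨S, Subset.rfl, H, card_pos.1 (by omega), ⟨SimpleGraph.Iso.refl⟩, hI⟩
    · simp only [Irr, not_and, not_forall, not_not] at hI
      obtain ⟨Φ', h', u, hu, u', hu', e⟩ := hI ⟨Φ, h⟩
      obtain ⟨H', Φ'', ⟨i⟩, h''⟩ := h'.erase hu' e
      rcases ih h'' (by rw [card_erase_of_mem hu, hn]; rfl) with ⟨⟨j⟩⟩ | ⟨S', a1, H'', a2, ⟨j⟩, a4⟩
      · exact Or.inl ⟨i.symm.trans j⟩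
      · exact Or.inr ⟨S', a1.trans (erase_subset _ _), H'', a2, ⟨j.trans i⟩, a4⟩

omit [DecidableEq X] in
theorem exists_refl (Z : Submodule ℝ (X → ℝ)) : ∃ R : (X → ℝ) →ₗ[ℝ] (X → ℝ),
    (∀ z ∈ Z, R z = -z) ∧ (∀ w, (∀ z ∈ Z, z ⬝ᵥ w = 0) → R w = w) ∧
      ∀ v, ∃ z ∈ Z, ∃ w, (∀ z' ∈ Z, z' ⬝ᵥ w = 0) ∧ v = z + w := by
  let B : LinearMap.BilinForm ℝ (X → ℝ) := dotProductBilin ℝ ℝ
  have hB : ∀ v w, B v w = v ⬝ᵥ w := fun _ _ => rfl
  have hm : ∀ w, w ∈ B.orthogonal Z ↔ ∀ z ∈ Z, z ⬝ᵥ w = 0 := fun w =>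
    LinearMap.BilinForm.mem_orthogonal_iff
  have hc : IsCompl Z (B.orthogonal Z) := by
    rw [LinearMap.BilinForm.isCompl_orthogonal_iff_disjoint
      (fun v w h => by rw [hB] at h ⊢; rwa [dotProduct_comm]), Submodule.disjoint_def]
    exact fun z hz hz' => dotProduct_self_eq_zero.1 ((hm z).1 hz' z hz)
  refine ⟨LinearMap.ofIsCompl hc (-Z.subtype) (B.orthogonal Z).subtype, fun z hz => ?_,
    fun w hw => ?_, fun v => ?_⟩
  · exact LinearMap.ofIsCompl_apply_left hc ⟨z, hz⟩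
  · exact LinearMap.ofIsCompl_apply_right hc ⟨w, (hm w).2 hw⟩
  · obtain ⟨z, hz, w, hw, e⟩ := Submodule.mem_sup.1 (hc.sup_eq_top ▸ Submodule.mem_top (x := v))
    exact ⟨z, hz, w, (hm w).1 hw, e.symm⟩

/-- Two vertices with the same walk counts can be matched. -/
theorem Sw.witt (h : Sw F H S Φ) {u u' : X}
    (h1 : ∀ k, ∀ t ∉ S, (ad F ^ k) (uv t) u = (ad H ^ k) (uv t) u')
    (h2 : ∀ k, (ad F ^ k) (uv u) u = (ad H ^ k) (uv u') u') :
    ∃ Φ', Sw F H S Φ' ∧ Φ' (uv u) = uv u' := by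
  set z := Φ (uv u) - uv u' with hz
  let Z := Submodule.span ℝ (Set.range fun k : ℕ => (ad H ^ k) z)
  have hZ : ∀ w, (∀ k, (ad H ^ k) z ⬝ᵥ w = 0) → ∀ y ∈ Z, y ⬝ᵥ w = 0 := by
    intro w hw y hy
    induction hy using Submodule.span_induction with
    | mem _ h => obtain ⟨k, rfl⟩ := h; exact hw k
    | zero => simp
    | add a b _ _ ha hb => rw [add_dotProduct, ha, hb, add_zero]
    | smul c a _ ha => rw [smul_dotProduct, ha, smul_zero]
  have hinv : ∀ y ∈ Z, ad H y ∈ Z := by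
    intro y hy
    induction hy using Submodule.span_induction with
    | mem _ h =>
      obtain ⟨k, rfl⟩ := h
      exact Submodule.subset_span ⟨k + 1, by simp only [pow_succ', Module.End.mul_apply]⟩
    | zero => simp
    | add a b _ _ ha hb => rw [map_add]; exact Z.add_mem ha hb
    | smul c a _ ha => rw [map_smul]; exact Z.smul_mem c ha
  obtain ⟨R, r1, r2, r3⟩ := exists_refl Z
  have hR : ∀ y ∈ Z, ∀ w, (∀ z' ∈ Z, z' ⬝ᵥ w = 0) → R (y + w) = -y + w := fun y hy w hw => by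
    rw [map_add, r1 y hy, r2 w hw]
  refine ⟨R ∘ₗ Φ, ⟨fun v w => ?_, fun t ht => ?_, fun v => ?_⟩, ?_⟩
  · rw [← h.dot v w, LinearMap.comp_apply, LinearMap.comp_apply]
    obtain ⟨a, ha, b, hb, e⟩ := r3 (Φ v)
    obtain ⟨a', ha', b', hb', e'⟩ := r3 (Φ w)
    rw [e, e', hR a ha b hb, hR a' ha' b' hb']
    simp [add_dotProduct, dotProduct_add, hb' a ha, dotProduct_comm b a', hb a' ha']
  · rw [LinearMap.comp_apply, h.fix t ht]
    refine r2 _ (hZ _ fun k => ?_)
    rw [ad_pow_symm, hz, sub_dotProduct, uv_dot, ← h1 k t ht, ← h.fix t ht, ← h.pow, h.dot,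
      uv_dot, h.fix t ht, sub_self]
  · rw [LinearMap.comp_apply, LinearMap.comp_apply, h.com]
    obtain ⟨a, ha, b, hb, e⟩ := r3 (Φ v)
    rw [e, hR a ha b hb, map_add, hR _ (hinv a ha) _ fun y hy => by
      rw [← ad_symm]; exact hb _ (hinv y hy), map_add, map_neg]
  · have e : Φ (uv u) = (1 / 2 : ℝ) • z + (1 / 2 : ℝ) • (Φ (uv u) + uv u') := by
      rw [hz]; module
    rw [LinearMap.comp_apply, e, hR _ (Z.smul_mem _ (show z ∈ Z from Submodule.subset_span ⟨0, rfl⟩)) _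
      (hZ _ fun k => ?_)]
    · rw [hz]; module
    · rw [dotProduct_smul, hz, map_sub, sub_dotProduct, dotProduct_add, dotProduct_add,
        ad_pow_symm k (uv u') (Φ (uv u)), dotProduct_comm (uv u'), ← h.pow, h.dot]
      simp [h2 k, add_comm]

/-- A path `u 1, …, u d` of vertices of degree two, with its two ends `u 0` and `u (d + 1)`. -/
structure Pth (F : SimpleGraph X) (u : ℕ → X) (d : ℕ) : Prop where
  adj : ∀ i < d, ∀ z, F.Adj (u (i + 1)) z ↔ z = u i ∨ z = u (i + 2)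
  ne : ∀ i < d, u i ≠ u (i + 2)
  inj : ∀ i < d, ∀ j < d, u (i + 1) = u (j + 1) → i = j

theorem Pth.ad_eq {u : ℕ → X} {d : ℕ} (h : Pth F u d) {i : ℕ} (hi : i < d) (v : X → ℝ) :
    ad F v (u (i + 1)) = v (u i) + v (u (i + 2)) := by
  rw [ad_apply, ← sum_pair (h.ne i hi)]
  congr 1
  ext z
  simp [h.adj i hi]

/-- Two paths with the same ends outside `S` contradict irreducibility. -/
theorem Irr.not_match (hI : Irr F H S) {u q : ℕ → X} {d : ℕ} (hd : 0 < d) (hu : Pth F u d)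
    (hq : Pth H q d) (h0 : u 0 = q 0) (h1 : u (d + 1) = q (d + 1)) (s0 : u 0 ∉ S)
    (s1 : u (d + 1) ∉ S) (su : ∀ i < d, u (i + 1) ∈ S) (sq : ∀ i < d, q (i + 1) ∈ S) : False := by
  obtain ⟨⟨Φ, h⟩, hI⟩ := hI
  have key : ∀ v v' : X → ℝ, (∀ k, ∀ t ∉ S, (ad F ^ k) v t = (ad H ^ k) v' t) →
      (∀ i < d, v (u (i + 1)) = v' (q (i + 1))) →
      ∀ k, ∀ i ≤ d + 1, (ad F ^ k) v (u i) = (ad H ^ k) v' (q i) := by
    intro v v' a1 a2 k
    induction k with
    | zero =>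
      intro i hi
      rcases i with _ | i
      · exact h0 ▸ a1 0 _ s0
      · rcases (show i < d ∨ i = d by omega) with hi | rfl
        exacts [a2 i hi, h1 ▸ a1 0 _ s1]
    | succ k ih =>
      intro i hi
      rcases i with _ | i
      · exact h0 ▸ a1 _ _ s0
      · rcases (show i < d ∨ i = d by omega) with hi | rfl
        · rw [pow_succ', pow_succ', Module.End.mul_apply, Module.End.mul_apply, hu.ad_eq hi,
            hq.ad_eq hi, ih i (by omega), ih (i + 2) (by omega)]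
        · exact h1 ▸ a1 _ _ s1
  have k1 : ∀ k, ∀ t ∉ S, (ad F ^ k) (uv t) (u 1) = (ad H ^ k) (uv t) (q 1) := by
    intro k t ht
    refine key _ _ (fun k t' ht' => ?_) (fun i hi => ?_) k 1 (by omega)
    · rw [← h.off ((ad F ^ k) _) ht', h.pow, h.fix t ht]
    · rw [uv_apply, uv_apply, if_neg fun e : u (i + 1) = t => ht (e ▸ su i hi),
        if_neg fun e : q (i + 1) = t => ht (e ▸ sq i hi)]
  obtain ⟨Φ', a1, a2⟩ := h.witt k1 fun k => key _ _ (fun k t ht => by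
    rw [← dot_uv ((ad F ^ k) _), ← dot_uv ((ad H ^ k) _), ad_pow_symm, ad_pow_symm, uv_dot, uv_dot, k1 k t ht])
    (fun i hi => by
      rw [uv_apply, uv_apply]
      by_cases e : i = 0
      · simp [e]
      · rw [if_neg fun e' => e (hu.inj i hi 0 hd e'), if_neg fun e' => e (hq.inj i hi 0 hd e')])
    k 1 (by omega)
  exact hI Φ' a1 _ (su 0 hd) _ (sq 0 hd) a2

/-- The projection to the coordinates in `S`. -/
def pj (S : Finset X) : (X → ℝ) →ₗ[ℝ] (X → ℝ) where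
  toFun v i := if i ∈ S then v i else 0
  map_add' v w := by funext i; by_cases h : i ∈ S <;> simp [h]
  map_smul' c v := by funext i; by_cases h : i ∈ S <;> simp [h]

omit [Fintype X] in
theorem pj_apply (v : X → ℝ) (i : X) : pj S v i = if i ∈ S then v i else 0 := rfl

theorem Sw.proj (h : Sw F H S Φ) (v : X → ℝ) : Φ (pj S v) = pj S (Φ v) := by
  have e : ∀ w : X → ℝ, pj S w = w - ∑ t ∈ Sᶜ, w t • uv t := by
    intro w
    funext i
    simp only [pj_apply, Pi.sub_apply, Finset.sum_apply, Pi.smul_apply, uv_apply, smul_eq_mul, mul_ite,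
      mul_one, mul_zero, sum_ite_eq, mem_compl]
    by_cases hi : i ∈ S <;> simp [hi]
  rw [e, e, map_sub, map_sum]
  congr 1
  exact sum_congr rfl fun t ht => by
    rw [map_smul, h.fix t (mem_compl.1 ht), h.off _ (mem_compl.1 ht)]

theorem pj_ad_uv (t : X) : pj S (ad F (uv t)) = ∑ u ∈ nbr F S t, uv u := by
  classical
  funext i
  simp only [pj_apply, ad_uv, Finset.sum_apply, uv_apply, sum_ite_eq, mem_nbr, F.adj_comm i t]
  by_cases h : i ∈ S <;> simp [h]

theorem Sw.row (h : Sw F H S Φ) {t : X} (ht : t ∉ S) :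
    Φ (∑ u ∈ nbr F S t, uv u) = ∑ u ∈ nbr H S t, uv u := by
  rw [← pj_ad_uv, ← pj_ad_uv, h.proj, h.com, h.fix t ht]

theorem sum_uv_dot (W : Finset X) : (∑ u ∈ W, uv u) ⬝ᵥ (∑ u ∈ W, uv u) = W.card := by
  rw [sum_dotProduct, card_eq_sum_ones, Nat.cast_sum]
  exact sum_congr rfl fun u hu => by simp [uv_apply, hu]

theorem Sw.card_nbr (h : Sw F H S Φ) {t : X} (ht : t ∉ S) :
    (nbr H S t).card = (nbr F S t).card := by
  have := h.dot (∑ u ∈ nbr F S t, uv u) (∑ u ∈ nbr F S t, uv u)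
  rw [h.row ht, sum_uv_dot, sum_uv_dot] at this
  exact_mod_cast this

/-- No vertex outside `S` has exactly one neighbour in `S`. -/
theorem Irr.ne_one (hI : Irr F H S) {t : X} (ht : t ∉ S) : (nbr F S t).card ≠ 1 := by
  obtain ⟨⟨Φ, h⟩, hI⟩ := hI
  intro e
  obtain ⟨u, hu⟩ := card_eq_one.1 e
  obtain ⟨u', hu'⟩ := card_eq_one.1 ((h.card_nbr ht).trans e)
  have := h.row ht
  rw [hu, hu', sum_singleton, sum_singleton] at this
  exact hI Φ h u (mem_nbr.1 (hu ▸ mem_singleton_self u)).1 u'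
    (mem_nbr.1 (hu' ▸ mem_singleton_self u')).1 this

end Pool.Agent.P.MP_f57657_co
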