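import Pool.Agent.P.MP_f57657_co.Forest

/-! A switching of the 2-core that is not an isomorphism forces one of the rare events. -/

open Finset Relation

namespace Pool.Agent.P.MP_f57657_co

variable {V : Type*} [Fintype V] [DecidableEq V] {X : Set V} [Fintype X] [DecidableEq X]
  {ω : Sym2 V → Bool} {p : ℝ}

/-- A set of core vertices as a set of vertices. -/
def up (S : Finset X) : Finset V := S.map (Function.Embedding.subtype _)

omit [Fintype V] [DecidableEq V] [Fintype X] [DecidableEq X] in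
theorem mem_up {S : Finset X} {v : V} : v ∈ up S ↔ ∃ h : v ∈ X, ⟨v, h⟩ ∈ S := by simp [up]

omit [Fintype V] [DecidableEq V] [Fintype X] [DecidableEq X] in
theorem coe_mem_up {S : Finset X} {v : X} : v.1 ∈ up S ↔ v ∈ S := by simp [up]

omit [Fintype V] [DecidableEq V] [Fintype X] [DecidableEq X] in
theorem card_up (S : Finset X) : (up S).card = S.card := card_map _

omit [Fintype V] [DecidableEq V] [Fintype X] [DecidableEq X] in
theorem up_sub (S : Finset X) : ↑(up S) ⊆ X := fun _ h => (mem_up.1 h).1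

omit [Fintype V] [DecidableEq V] [Fintype X] [DecidableEq X] in
theorem row_up {R : Finset X} {t : X} (ht : t ∉ R) :
    row ω (up R) t = up (nbr ((gr ω).induce X) R t) := by
  ext u
  rw [mem_row (mt coe_mem_up.1 ht), mem_up, mem_up]
  exact ⟨fun ⟨⟨a, b⟩, c⟩ => ⟨a, mem_nbr.2 ⟨b, c⟩⟩,
    fun ⟨a, b⟩ => ⟨⟨a, (mem_nbr.1 b).1⟩, (mem_nbr.1 b).2⟩⟩

variable {S : Finset X} {P : Finset V}

omit [Fintype V] [Fintype X] [DecidableEq X] in
theorem row_out (hP : ∀ w, w ∈ P ↔ w ∈ Pn (gr ω) X (up S)) {R : Finset V} (hR : R ⊆ up S ∪ P)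
    {t : V} (ht : t ∉ up S ∪ P) (hX : t ∉ X) : row ω R t = ∅ :=
  eq_empty_of_forall_notMem fun u hu => by
    obtain ⟨a, b⟩ := (mem_row fun c => ht (hR c)).1 hu
    exact ht (mem_union_right _ ((hP t).2
      (Pn_adj ((mem_union.1 (hR a)).imp_right (hP u).1) hX b)))

omit [Fintype V] [Fintype X] [DecidableEq X] in
theorem Core.row_in (h : Core (gr ω) X) (hP : ∀ w, w ∈ P ↔ w ∈ Pn (gr ω) X (up S)) {t : X}
    (ht : t.1 ∉ up S ∪ P) : row ω (up S ∪ P) t = up (nbr ((gr ω).induce X) S t) := by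
  have h1 : t.1 ∉ up S := fun a => ht (mem_union_left _ a)
  rw [← row_up (mt coe_mem_up.2 h1)]
  ext u
  rw [mem_row ht, mem_row h1, mem_union]
  refine ⟨fun ⟨a, b⟩ => ⟨a.resolve_right fun c => ht (mem_union.2 ?_), b⟩, .imp_left Or.inl⟩
  exact (h.pn_adj (up_sub S) ((hP u).1 c) b.symm).imp_right (hP _).2

omit [Fintype V] [Fintype X] in
theorem sum_nbr_le (T : Finset X) :
    ∑ u ∈ T, (nbr ((gr ω).induce X) T u).card ≤ 2 * nb (up T).sym2 ω := by
  have : ∑ u ∈ T, (nbr ((gr ω).induce X) T u).card =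
      (T.biUnion fun u => (nbr ((gr ω).induce X) T u).image fun v => (u, v)).card := by
    rw [card_biUnion]
    · exact sum_congr rfl fun u _ => (card_image_of_injective _ (Prod.mk_right_injective u)).symm
    · intro a _ b _ hab
      simp only [Function.onFun, disjoint_left, mem_image]
      rintro _ ⟨v, -, rfl⟩ ⟨v', -, e⟩
      exact hab (congrArg Prod.fst e).symm
  rw [this]
  refine card_le_mul_card_image_of_maps_to (f := fun x : X × X => s(x.1.1, x.2.1))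
    (fun x hx => ?_) 2 fun e _ => ?_
  · obtain ⟨u, u1, u2⟩ := mem_biUnion.1 hx
    obtain ⟨v, v1, rfl⟩ := mem_image.1 u2
    exact mem_filter.2 ⟨mk_mem_sym2_iff.2 ⟨coe_mem_up.2 u1, coe_mem_up.2 (mem_nbr.1 v1).1⟩,
      (gr_adj.1 (mem_nbr.1 v1).2).1⟩
  · refine le_of_not_gt fun a => ?_
    obtain ⟨x, hx⟩ := card_pos.1 (lt_trans two_pos a)
    refine a.not_ge ((card_le_card (t := {x, x.swap}) fun y hy => ?_).trans card_le_two)
    have := (mem_filter.1 hy).2.trans (mem_filter.1 hx).2.symm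
    rw [mem_insert, mem_singleton]
    exact (Sym2.eq_iff.1 this).imp (fun e => Prod.ext (Subtype.ext e.1) (Subtype.ext e.2))
      fun e => Prod.ext (Subtype.ext e.1) (Subtype.ext e.2)

theorem Core.evA (h : Core (gr ω) X) (hP : ∀ w, w ∈ P ↔ w ∈ Pn (gr ω) X (up S))
    (hA : Alpha ((gr ω).induce X) S) {θ : ℝ} (hθ : ((up S ∪ P).card : ℝ) * p ≤ θ ^ (2 * 44 + 1)) :
    EvA p θ 44 ω := by
  obtain ⟨⟨u₀, h0⟩, a1, Rt, a2, E, a3, a4, a5, a6⟩ := hA
  have mY : ∀ w, w ∈ up S ∪ P ↔ w ∈ ↑(up S) ∪ Pn (gr ω) X (up S) := fun w => by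
    rw [mem_union, hP]; rfl
  obtain ⟨par, ht, hp⟩ := exists_par (fun a b => (gr ω).Adj a b ∧ b ∈ up S ∪ P) (up Rt)
  obtain ⟨f, f1, f2, f3⟩ := exists_maps (ω := ω) (ht := ht) (par := par)
    (W := (up S ∪ P) \ up Rt) (Z := up S ∪ P) fun w hw => by
      obtain ⟨s, s1, s2⟩ := h.pn_reach (up_sub S) ((mY w).1 (mem_sdiff.1 hw).1)
      obtain ⟨s3, s4⟩ := mem_up.1 s1
      obtain ⟨r, r1, r2⟩ := a6 _ s4
      have := hp w (mem_sdiff.1 hw).2 ⟨r, coe_mem_up.2 r1,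
        (ReflTransGen.mono (fun a b c => ⟨c.1, (mY b).2 c.2⟩) _ _ s2).trans (ReflTransGen.lift
          Subtype.val (fun a b c => ⟨c.1, mem_union_left _ (coe_mem_up.2 c.2.2)⟩) _ _ r2)⟩
      exact ⟨this.1.2, this.1.1, this.2⟩
  refine ⟨up S ∪ P, up Rt, ⟨u₀, mem_union_left _ (coe_mem_up.2 h0)⟩, hθ,
    (map_subset_map.2 a2).trans subset_union_left, f, f1, f2, f3, fun t ht => ?_, (E + 1) / 2,
    by omega, by rw [card_up]; omega, ?_⟩
  · by_cases hX : t ∈ X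
    · rw [h.row_in hP (t := ⟨t, hX⟩) ht, card_up]
      exact a1 _ fun a => ht (mem_union_left _ (coe_mem_up.2 a))
    · simp [row_out hP Subset.rfl ht hX]
  · have e1 : ∑ t ∈ Sᶜ, ((nbr ((gr ω).induce X) S t).card - 1) ≤
        ∑ t ∈ (up S ∪ P)ᶜ, ((row ω (up S ∪ P) t).card - 1) := by
      have : ∀ t ∈ Sᶜ, t.1 ∉ up S ∪ P := fun t ht a => (mem_union.1 a).elim
        (fun b => mem_compl.1 ht (coe_mem_up.1 b)) fun b => ((hP _).1 b).1 t.2
      refine le_trans (le_of_eq ?_) (sum_le_sum_of_subset (s := up Sᶜ) fun t ht =>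
        mem_compl.2 (this _ (mem_up.1 ht).2))
      rw [up, sum_map]
      exact sum_congr rfl fun t ht => by
        rw [← card_up, ← h.row_in hP (this t ht)]; rfl
    obtain ⟨q, ht', hq⟩ := h.par (up_sub S)
    have e2 : nb (up S).sym2 ω + P.card ≤ nb (up S ∪ P).sym2 ω := by
      rw [← card_fe (par := q) (ht := ht') fun w hw => (hq w ((hP w).1 hw)).2, nb,
        ← card_union_of_disjoint]
      · refine card_le_card (union_subset (filter_subset_filter _ (sym2_mono subset_union_left))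
          fun e he => ?_)
        obtain ⟨w, hw, rfl⟩ := mem_image.1 he
        have := (hq w ((hP w).1 hw)).1
        exact mem_filter.2 ⟨mk_mem_sym2_iff.2 ⟨mem_union_right _ hw,
          (mY _).2 (h.pn_adj (up_sub S) ((hP w).1 hw) this)⟩, (gr_adj.1 this).1⟩
      · refine disjoint_right.2 fun e he a => ?_
        obtain ⟨w, hw, rfl⟩ := mem_image.1 he
        exact ((hP w).1 hw).1 (up_sub S (mk_mem_sym2_iff.1 (mem_filter.1 a).1).1)
    have e3 := sum_nbr_le (ω := ω) S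
    have e4 := card_union_le (up S) P
    rw [card_up] at e4
    omega

omit [Fintype V] [DecidableEq X] [Fintype X] in
theorem Core.evC (h : Core (gr ω) X) (hP : ∀ w, w ∈ P ↔ w ∈ Pn (gr ω) X (up S)) {k K : ℕ}
    (hB : Beta ((gr ω).induce X) S k) {δ : ℝ} (h0 : 0 ≤ p) (h1 : δ ≤ k * p) (h2 : k * p ≤ 1)
    (hK : (up S ∪ P).card ≤ K) : EvC p δ K ω := by
  classical
  obtain ⟨R, a1, a2, a3, a4⟩ := hB
  have hR : up R ⊆ up S ∪ P := (map_subset_map.2 a1).trans subset_union_left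
  have b2 : (k : ℝ) ≤ R.card := by exact_mod_cast a2
  have b3 : (R.card : ℝ) ≤ 2 * k := by exact_mod_cast a3
  refine ⟨up S ∪ P, up R, hK, hR, by rw [card_up]; nlinarith, by rw [card_up]; nlinarith,
    a4.imp (fun a t ht => ?_) fun ⟨ρ, c1, c2⟩ =>
      ⟨fun v => if h : v ∈ X then ρ ⟨v, h⟩ else 0, fun u hu => ?_, fun t ht => ?_⟩⟩
  · by_cases hX : t ∈ X
    · rw [row_up (t := ⟨t, hX⟩) fun b => ht (hR (coe_mem_up.2 b)), card_up]
      exact a _ fun b => ht (mem_union_left _ (coe_mem_up.2 b))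
    · simp [row_out hP hR ht hX]
  · obtain ⟨u1, u2⟩ := mem_up.1 hu
    simpa only [dif_pos u1, IsInt] using c1 _ u2
  · by_cases hX : t ∈ X
    · rw [h.row_in hP (t := ⟨t, hX⟩) ht, up, sum_map]
      simpa using c2 ⟨t, hX⟩ fun b => ht (mem_union_left _ (coe_mem_up.2 b))
    · simp [row_out hP Subset.rfl ht hX]

theorem Core.bad (h : Core (gr ω) X) {H : SimpleGraph X} {Φ : (X → ℝ) →ₗ[ℝ] (X → ℝ)}
    (hS : Sw ((gr ω).induce X) H S Φ) (hn : ¬Nonempty (H ≃g (gr ω).induce X)) {θ δ : ℝ}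
    {s₀ L₀ s₁ L₁ : ℕ} (h0 : 0 ≤ p) (h1 : S.card ≤ s₁) (h2 : (s₀ + L₀) * p ≤ θ ^ (2 * 44 + 1))
    (h3 : δ ≤ (s₀ + 1) * p) (h4 : (s₀ + 1) * p ≤ 1) :
    EvA p θ 44 ω ∨ (1 ≤ s₀ ∧ EvB s₀ L₀ ω) ∨ EvC p δ (s₁ + L₁) ω ∨ EvB s₁ L₁ ω := by
  classical
  obtain ⟨S', a1, -, ⟨T, a2, a3⟩, a4⟩ := det hS h.pre (fun x => by
    obtain ⟨a, b1, b, b2, b3, b4, b5⟩ := h.two x x.2
    exact one_lt_card.2 ⟨⟨a, b1⟩, mem_nbr.2 ⟨mem_univ _, b4⟩, ⟨b, b2⟩,
      mem_nbr.2 ⟨mem_univ _, b5⟩, fun e => b3 (congrArg Subtype.val e)⟩) hn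
  have hP : ∀ T : Finset X, ∃ P : Finset V, ∀ w, w ∈ P ↔ w ∈ Pn (gr ω) X (up T) :=
    fun T => ⟨univ.filter (· ∈ Pn (gr ω) X (up T)), by simp⟩
  by_cases hc : S'.card ≤ s₀
  · obtain ⟨P, hP⟩ := hP T
    have hT : (up T).card ≤ s₀ := (card_up T).trans_le ((card_le_card a2).trans hc)
    by_cases hL : L₀ < P.card
    · exact Or.inr (Or.inl ⟨(card_pos.2 a3.1).trans_le (card_up T ▸ hT),
        h.evB (up_sub T) hP hT hL⟩)
    · refine Or.inl (h.evA hP a3 (le_trans (mul_le_mul_of_nonneg_right ?_ h0) h2))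
      have := card_union_le (up T) P
      exact_mod_cast (by omega : (up T ∪ P).card ≤ s₀ + L₀)
  · obtain ⟨P, hP⟩ := hP S'
    have hT : (up S').card ≤ s₁ := (card_up S').trans_le ((card_le_card a1).trans h1)
    by_cases hL : L₁ < P.card
    · exact Or.inr (Or.inr (Or.inr (h.evB (up_sub S') hP hT hL)))
    · have := card_union_le (up S') P
      exact Or.inr (Or.inr (Or.inl (h.evC hP (a4 (s₀ + 1) (by omega) (by omega)) h0
        (by exact_mod_cast h3) (by exact_mod_cast h4) (by omega))))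

end Pool.Agent.P.MP_f57657_co
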