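import Pool.Agent.P.MP_f57657_co.Chain

/-! The case of excess zero. -/

open Finset

namespace Pool.Agent.P.MP_f57657_co

variable {X : Type*} [Fintype X] [DecidableEq X] {F H : SimpleGraph X} {S : Finset X}
  {Φ : (X → ℝ) →ₗ[ℝ] (X → ℝ)}

theorem ad_uv_dot (t : X) : ad F (uv t) ⬝ᵥ ad F (uv t) = (nbr F univ t).card := by
  have := pj_ad_uv (F := F) (S := univ) t
  rw [show pj univ (ad F (uv t)) = ad F (uv t) from funext fun i => by simp [pj_apply]] at this
  rw [this, sum_uv_dot]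

theorem Sw.sum_deg (h : Sw F H S Φ) :
    ∑ i ∈ S, (nbr H univ i).card = ∑ i ∈ S, (nbr F univ i).card := by
  obtain ⟨Ψ, h', a1, a2⟩ := h.symm
  have e1 : ∑ i, (nbr H univ i).card = ∑ i, (nbr F univ i).card := by
    have : ∑ i, ad H (uv i) ⬝ᵥ ad H (uv i) = ∑ j, ad F (uv j) ⬝ᵥ ad F (uv j) := by
      have b : ∀ i j, Ψ (ad H (uv i)) j = Φ (ad F (uv j)) i := fun i j => by
        rw [h'.com, ← dot_uv (ad F _), ad_symm, ← h.dot, a2, uv_dot]
      rw [sum_congr rfl fun i _ => (h'.dot _ _).symm,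
        sum_congr rfl fun j _ => (h.dot (ad F (uv j)) _).symm]
      simp only [dotProduct, b]
      exact sum_comm
    simp only [ad_uv_dot] at this
    exact_mod_cast this
  have e2 : ∑ i ∈ Sᶜ, (nbr H univ i).card = ∑ i ∈ Sᶜ, (nbr F univ i).card :=
    sum_congr rfl fun t ht => by
      have := h.dot (ad F (uv t)) (ad F (uv t))
      rw [h.com, h.fix t (mem_compl.1 ht), ad_uv_dot, ad_uv_dot] at this
      exact_mod_cast this
  rw [← sum_add_sum_compl S, ← sum_add_sum_compl S fun i => (nbr F univ i).card] at e1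
  omega

omit [DecidableEq X] in
theorem lap_zero {v : X → ℝ} (h1 : ∀ i, v i ≠ 0 → (nbr F univ i).card = 2)
    (h2 : v ⬝ᵥ ad F v = 2 * v ⬝ᵥ v) {i j : X} (h : F.Adj i j) : v i = v j := by
  classical
  have e0 : ∀ i, ∑ j, (if F.Adj i j then v i ^ 2 else 0) = 2 * (v i * v i) := by
    intro i
    by_cases hv : v i = 0
    · simp [hv]
    · rw [← sum_filter, sum_const, show (univ.filter (F.Adj i)).card = 2 by
        rw [← h1 i hv, nbr]]
      simp [sq]
  have e1 : ∑ i, ∑ j, (if F.Adj i j then (v i - v j) ^ 2 else 0) = 0 := by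
    have : ∀ i j, (if F.Adj i j then (v i - v j) ^ 2 else 0) = (if F.Adj i j then v i ^ 2 else 0) +
        (if F.Adj j i then v j ^ 2 else 0) - 2 * (v i * if F.Adj i j then v j else 0) := by
      intro i j
      rw [F.adj_comm j i]
      split_ifs <;> ring
    simp only [this, sum_sub_distrib, sum_add_distrib]
    rw [sum_comm (f := fun i j => if F.Adj j i then v j ^ 2 else 0)]
    simp only [e0, ← mul_sum, ← ad_ite]
    simp only [dotProduct] at h2
    linarith
  have nn : ∀ i j, 0 ≤ if F.Adj i j then (v i - v j) ^ 2 else 0 := fun i j => by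
    split_ifs <;> positivity
  have := (sum_eq_zero_iff_of_nonneg fun j _ => nn i j).1 ((sum_eq_zero_iff_of_nonneg
    fun i _ => sum_nonneg fun j _ => nn i j).1 e1 i (mem_univ _)) j (mem_univ _)
  rw [if_pos h] at this
  exact sub_eq_zero.1 (pow_eq_zero_iff two_ne_zero |>.1 this)

theorem pj_dot (v w : X → ℝ) : pj S v ⬝ᵥ w = v ⬝ᵥ pj S w :=
  sum_congr rfl fun i _ => by simp only [pj_apply]; split_ifs <;> simp

omit [Fintype X] in
theorem pj_pj (v : X → ℝ) : pj S (pj S v) = pj S v := by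
  funext i; simp only [pj_apply]; split_ifs <;> rfl

theorem ad_ind (W : Finset X) (i : X) : ad F (pj W 1) i = (nbr F W i).card := by
  classical
  rw [ad_ite, nbr, card_filter]
  push_cast
  rw [← sum_ite_mem_eq W]
  refine sum_congr rfl fun j _ => ?_
  simp only [pj_apply]
  split_ifs <;> simp

theorem ind_dot (W : Finset X) (v : X → ℝ) : pj W 1 ⬝ᵥ v = ∑ i ∈ W, v i := by
  rw [← sum_ite_mem_eq W]
  exact sum_congr rfl fun j _ => by simp only [pj_apply]; split_ifs <;> simp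

theorem card_nbr_compl (W : Finset X) (i : X) :
    (nbr F univ i).card = (nbr F W i).card + (nbr F Wᶜ i).card := by
  classical
  simp only [nbr, card_filter]
  exact (sum_add_sum_compl W _).symm

omit [Fintype X] [DecidableEq X] in
theorem sum_nbr_comm (A B : Finset X) :
    ∑ i ∈ A, (nbr F B i).card = ∑ j ∈ B, (nbr F A j).card := by
  classical
  simp only [nbr, card_filter]
  rw [sum_comm]
  exact sum_congr rfl fun j _ => sum_congr rfl fun i _ => by simp only [F.adj_comm i j]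

theorem Sw.deg_two (h : Sw F H S Φ) (h2 : ∀ u ∈ S, (nbr F univ u).card = 2) :
    ∀ u ∈ S, (nbr H univ u).card = 2 := by
  obtain ⟨Ψ, h', a1, a2⟩ := h.symm
  have τ : Ψ (pj Sᶜ 1) = pj Sᶜ 1 := by
    have : pj Sᶜ (1 : X → ℝ) = ∑ t ∈ Sᶜ, uv t := by
      funext i; simp [pj_apply, Finset.sum_apply, uv_apply]
    rw [this, map_sum]
    exact sum_congr rfl fun t ht => h'.fix t (mem_compl.1 ht)
  set y := Ψ (pj S 1) with hy
  have hyS : pj S y = y := by rw [hy, ← h'.proj, pj_pj]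
  have c1 : ∑ i ∈ S, (nbr H Sᶜ i).card = ∑ i ∈ S, (nbr F Sᶜ i).card := by
    rw [sum_nbr_comm, sum_nbr_comm S]
    exact sum_congr rfl fun t ht => h.card_nbr (mem_compl.1 ht)
  have c2 : ∑ i ∈ S, (nbr H S i).card = ∑ i ∈ S, (nbr F S i).card := by
    have := h.sum_deg
    simp only [card_nbr_compl S, sum_add_distrib] at this
    omega
  have c3 : ∑ i ∈ S, (nbr F S i).card + ∑ i ∈ S, (nbr F Sᶜ i).card = 2 * S.card := by
    rw [← sum_add_distrib, sum_congr rfl fun i hi => (card_nbr_compl S i).symm.trans (h2 i hi)]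
    simp [mul_comm]
  have c1' : ∑ i ∈ S, ((nbr H Sᶜ i).card : ℝ) = ∑ i ∈ S, ((nbr F Sᶜ i).card : ℝ) := by
    exact_mod_cast c1
  have c2' : ∑ i ∈ S, ((nbr H S i).card : ℝ) = ∑ i ∈ S, ((nbr F S i).card : ℝ) := by
    exact_mod_cast c2
  have c3' : ∑ i ∈ S, ((nbr F S i).card : ℝ) + ∑ i ∈ S, ((nbr F Sᶜ i).card : ℝ) = 2 * S.card := by
    exact_mod_cast c3
  have d0 : pj S (1 : X → ℝ) ⬝ᵥ pj S 1 = S.card := by
    rw [ind_dot, sum_congr rfl (g := fun _ => 1) fun i hi => by simp [pj_apply, hi]]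
    simp
  have d1 : y ⬝ᵥ y = S.card := by rw [hy, h'.dot, d0]
  have d2 : y ⬝ᵥ ad F y = ∑ i ∈ S, ((nbr F S i).card : ℝ) := by
    rw [hy, ← h'.com, h'.dot, ind_dot, ← c2']
    simp only [ad_ind]
  have d3 : pj S 1 ⬝ᵥ ad F (pj S 1) = ∑ i ∈ S, ((nbr F S i).card : ℝ) := by
    rw [ind_dot]
    simp only [ad_ind]
  have d4 : y ⬝ᵥ ad F (pj Sᶜ 1) = ∑ i ∈ S, ((nbr F Sᶜ i).card : ℝ) := by
    rw [hy, ← τ, ← h'.com, h'.dot, ind_dot, ← c1']
    simp only [ad_ind]
  have d5 : pj S (ad F (pj S 1)) + pj S (ad F (pj Sᶜ 1)) = (2 : ℝ) • pj S 1 := by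
    funext i
    simp only [Pi.add_apply, pj_apply, ad_ind, Pi.smul_apply]
    split_ifs with hi
    · rw [← Nat.cast_add, ← card_nbr_compl, h2 i hi]; simp
    · simp
  have d6 : y ⬝ᵥ ad F (pj S 1) + y ⬝ᵥ ad F (pj Sᶜ 1) = 2 * y ⬝ᵥ pj S 1 := by
    rw [← smul_eq_mul, ← dotProduct_smul, ← d5, dotProduct_add, ← pj_dot, ← pj_dot, hyS]
  have hv : ∀ i, (y - pj S 1) i ≠ 0 → i ∈ S := fun i hi => by
    by_contra hc
    exact hi (by rw [← hyS]; simp [pj_apply, hc])
  have key := fun i j => lap_zero (F := F) (v := y - pj S 1) (fun i hi => h2 i (hv i hi)) (by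
    simp only [map_sub, sub_dotProduct, dotProduct_sub]
    rw [← ad_symm (pj S 1) y, dotProduct_comm (ad F _) y, dotProduct_comm (pj S 1) y]
    linarith) (i := i) (j := j)
  have d7 : pj S (ad F (y - pj S 1)) = (2 : ℝ) • (y - pj S 1) := by
    funext i
    rw [pj_apply]
    split_ifs with hi
    · rw [ad_apply, sum_congr rfl fun j hj => (key i j (mem_nbr.1 hj).2).symm, sum_const, h2 i hi]
      simp
    · simp [not_imp_comm.1 (hv i) hi]
  have d8 : pj S (ad F y) + pj S (ad F (pj Sᶜ 1)) = (2 : ℝ) • y := by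
    rw [map_sub, map_sub, smul_sub] at d7
    linear_combination (exp := 1) d7 + d5
  have d9 := congrArg Φ d8
  rw [map_add, map_smul, h.proj, h.proj, h.com, h.com, hy, a2, ← τ, a2] at d9
  intro u hu
  have := congrFun d9 u
  simp only [Pi.add_apply, pj_apply, ad_ind, Pi.smul_apply, if_pos hu, Pi.one_apply, smul_eq_mul,
    mul_one] at this
  rw [card_nbr_compl S]
  exact_mod_cast this

omit [Fintype X] [DecidableEq X] in
theorem closed_all (hF : F.Preconnected) {Ω : X → Prop} {a : X} (ha : Ω a)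
    (h : ∀ x y, Ω x → F.Adj x y → Ω y) (x : X) : Ω x := by
  have := (SimpleGraph.reachable_iff_reflTransGen a x).1 (hF a x)
  induction this with
  | refl => exact ha
  | tail _ h2 ih => exact h _ _ ih h2

theorem Sw.preconnected (h : Sw F H S Φ) (hF : F.Preconnected)
    (h2 : ∀ u, (nbr F univ u).card = 2) (h2' : ∀ u, (nbr H univ u).card = 2) : H.Preconnected := by
  classical
  obtain ⟨Ψ, h', -⟩ := h.symm
  have key : ∀ x : X, ∃ c : ℝ, c ≠ 0 ∧ Ψ (pj (univ.filter (H.Reachable x)) 1) = fun _ => c := by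
    intro x
    set W := univ.filter (H.Reachable x) with hW
    have e : ad H (pj W 1) = (2 : ℝ) • pj W 1 := by
      funext i
      rw [ad_ind, Pi.smul_apply, pj_apply]
      split_ifs with hi
      · rw [show nbr H W i = nbr H univ i from ext fun j => by
          simpa [hW] using fun a => (mem_filter.1 hi).2.trans a.reachable, h2' i]
        simp
      · rw [show nbr H W i = ∅ from eq_empty_of_forall_notMem fun j hj => hi (by
          simpa [hW] using (mem_filter.1 (mem_nbr.1 hj).1).2.trans (mem_nbr.1 hj).2.symm.reachable)]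
        simp
    have e' : Ψ (pj W 1) = fun _ => Ψ (pj W 1) x := funext fun y =>
      closed_all hF (Ω := fun y => Ψ (pj W 1) y = Ψ (pj W 1) x) rfl (fun a b ha hab =>
        (lap_zero (fun i _ => h2 i) (by
          rw [← h'.com, e, map_smul, dotProduct_smul, smul_eq_mul]) hab).symm.trans ha) y
    refine ⟨_, fun e0 => ?_, e'⟩
    have := h'.dot (pj W 1) (pj W 1)
    rw [e', e0] at this
    have := congrFun (dotProduct_self_eq_zero.1 (this.symm.trans (by simp [dotProduct]))) x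
    simp [pj_apply, hW] at this
  intro x y
  by_contra hc
  obtain ⟨c, c0, e⟩ := key x
  obtain ⟨c', c0', e'⟩ := key y
  have := h'.dot (pj (univ.filter (H.Reachable x)) 1) (pj (univ.filter (H.Reachable y)) 1)
  rw [e, e', ind_dot, sum_eq_zero fun i hi => by
    rw [pj_apply, if_neg fun a => hc ((mem_filter.1 hi).2.trans (mem_filter.1 a).2.symm)]] at this
  have hpos : (Fintype.card X : ℝ) ≠ 0 := by exact_mod_cast (Fintype.card_pos_iff.2 ⟨x⟩).ne'
  rw [dotProduct, sum_const, card_univ, nsmul_eq_mul] at this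
  exact mul_ne_zero hpos (mul_ne_zero c0 c0') this

theorem cyc_seq (hF : F.Preconnected) (h2 : ∀ u, (nbr F univ u).card = 2) (a : X) :
    ∃ (u : ℕ → X) (d : ℕ), Pth F u d ∧ u (d + 1) = u 0 ∧
      Function.Bijective fun i : Fin (d + 1) => u i := by
  obtain ⟨b, hb⟩ := card_pos.1 (show 0 < (nbr F univ a).card by rw [h2]; norm_num)
  obtain ⟨u, d, h, rfl, rfl⟩ := exists_chain (P := (· ≠ a)) (fun x _ => h2 x) (by simp)
    (mem_nbr.1 hb).2
  have e : u (d + 1) = u 0 := not_not.1 h.s1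
  refine ⟨u, d, h.toPth, e, fun ⟨i, hi⟩ ⟨j, hj⟩ hij => Fin.ext ?_, fun x => ?_⟩
  · rcases i with _ | i <;> rcases j with _ | j
    exacts [rfl, absurd hij.symm (h.mem j (by omega)), absurd hij (h.mem i (by omega)),
      congrArg (· + 1) (h.inj i (by omega) j (by omega) hij)]
  · refine closed_all hF (Ω := fun x => ∃ i : Fin (d + 1), u i = x) ⟨0, rfl⟩ ?_ x
    rintro _ y ⟨⟨i, hi⟩, rfl⟩ hy
    rcases i with _ | i
    · obtain ⟨z, -, -, -, hz⟩ := exists_other (h2 (u 0)) (mem_univ _) h.a0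
      rcases d with _ | _ | d
      · exact absurd e.symm h.a0.ne
      · exact absurd e.symm (h.ne 0 one_pos)
      · have hl := (h.toPth.step h.a0 le_rfl).symm
        rw [e] at hl
        rcases hz y (mem_univ _) hy with rfl | rfl
        · exact ⟨⟨1, by omega⟩, rfl⟩
        · rcases hz _ (mem_univ _) hl with a | a
          · have := h.inj (d + 1) (by omega) 0 (by omega) a
            omega
          · exact ⟨⟨d + 2, by omega⟩, a⟩
    · rcases (h.adj i (by omega) y).1 hy with rfl | rfl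
      · exact ⟨⟨i, by omega⟩, rfl⟩
      · rcases (show i + 1 < d ∨ i + 1 = d by omega) with a | rfl
        exacts [⟨⟨i + 2, by omega⟩, rfl⟩, ⟨0, e.symm⟩]

omit [Fintype X] [DecidableEq X] in
theorem cyc_adj {u q : ℕ → X} {d : ℕ} (hu : Pth F u d) (hq : Pth H q d) (eu : u (d + 1) = u 0)
    (eq : q (d + 1) = q 0) (iu : Function.Injective fun i : Fin (d + 1) => u i)
    (i j : Fin (d + 1)) (h : F.Adj (u i) (u j)) : H.Adj (q i) (q j) := by
  have key : ∀ i < d, ∀ j : Fin (d + 1), F.Adj (u (i + 1)) (u j) → H.Adj (q (i + 1)) (q j) := by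
    intro i hi j h
    refine (hq.adj i hi _).2 (((hu.adj i hi _).1 h).imp (fun e => ?_) fun e => ?_)
    · rw [iu (a₂ := ⟨i, by omega⟩) e]
    · rcases (show i + 1 < d ∨ i + 1 = d by omega) with a | rfl
      · rw [iu (a₂ := ⟨i + 2, by omega⟩) e]
      · rw [iu (a₂ := 0) (e.trans eu)]; exact eq.symm
  obtain ⟨_ | i, hi⟩ := i
  · obtain ⟨_ | j, hj⟩ := j
    exacts [absurd rfl h.ne, (key j (by omega) 0 h.symm).symm]
  · exact key i (by omega) j h

theorem cyc_iso (hF : F.Preconnected) (hH : H.Preconnected) (h2 : ∀ u, (nbr F univ u).card = 2)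
    (h2' : ∀ u, (nbr H univ u).card = 2) (a : X) : Nonempty (H ≃g F) := by
  obtain ⟨u, d, a1, a2, a3⟩ := cyc_seq hF h2 a
  obtain ⟨q, d', b1, b2, b3⟩ := cyc_seq hH h2' a
  obtain rfl : d = d' := by
    simpa using (Fintype.card_of_bijective a3).trans (Fintype.card_of_bijective b3).symm
  refine ⟨⟨(Equiv.ofBijective _ b3).symm.trans (Equiv.ofBijective _ a3), fun {x y} => ?_⟩⟩
  obtain ⟨i, rfl⟩ := (Equiv.ofBijective _ b3).surjective x
  obtain ⟨j, rfl⟩ := (Equiv.ofBijective _ b3).surjective y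
  simp only [Equiv.trans_apply, Equiv.symm_apply_apply]
  exact ⟨cyc_adj a1 b1 a2 b2 a3.1 i j, cyc_adj b1 a1 b2 a2 b3.1 i j⟩

/-- Chebyshev vectors. -/
noncomputable def cb (F : SimpleGraph X) (S : Finset X) (t : X) : ℕ → X → ℝ
  | 0 => 0
  | 1 => pj S (ad F (uv t))
  | k + 2 => pj S (ad F (cb F S t (k + 1))) - cb F S t k

theorem Sw.cb (h : Sw F H S Φ) {t : X} (ht : t ∉ S) (k : ℕ) :
    Φ (cb F S t k) = cb H S t k ∧ Φ (cb F S t (k + 1)) = cb H S t (k + 1) := by
  induction k with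
  | zero => exact ⟨map_zero _, by rw [MP_f57657_co.cb, MP_f57657_co.cb, h.proj, h.com, h.fix t ht]⟩
  | succ k ih =>
    exact ⟨ih.2, by rw [MP_f57657_co.cb, MP_f57657_co.cb, map_sub, h.proj, h.com, ih.1, ih.2]⟩

theorem Pth.ad_uv {u : ℕ → X} {d : ℕ} (h : Pth F u d) {i : ℕ} (hi : i < d) :
    ad F (uv (u (i + 1))) = uv (u i) + uv (u (i + 2)) := by
  funext x
  rw [← dot_uv (ad F _), ad_symm, uv_dot, h.ad_eq hi]
  simp only [Pi.add_apply, uv_apply, eq_comm]

omit [Fintype X] in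
theorem pj_uv {x : X} (hx : x ∈ S) : pj S (uv x) = uv x := by
  funext i
  simp only [pj_apply, uv_apply]
  split_ifs with a b <;> simp_all

theorem cb_eq {u v : ℕ → X} {d d' : ℕ} (hu : Ch F S u d) (hv : Ch F S v d') (e : v 0 = u 0)
    (hn : nbr F S (u 0) = {u 1, v 1}) (hne : u 1 ≠ v 1) (k : ℕ) (h1 : k < d) (h2 : k < d') :
    cb F S (u 0) k = pj S (uv (u k) + uv (v k)) ∧
      cb F S (u 0) (k + 1) = uv (u (k + 1)) + uv (v (k + 1)) := by
  induction k with
  | zero =>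
    refine ⟨funext fun i => ?_, by rw [cb, pj_ad_uv, hn, sum_pair hne]⟩
    simp only [cb, pj_apply, Pi.add_apply, uv_apply, e]
    split_ifs with a b
    exacts [absurd (b ▸ a) hu.s0, by simp, rfl]
  | succ k ih =>
    obtain ⟨a, b⟩ := ih (by omega) (by omega)
    refine ⟨by rw [b, map_add, pj_uv (hu.mem k (by omega)), pj_uv (hv.mem k (by omega))], ?_⟩
    rw [cb, a, b, map_add, hu.toPth.ad_uv (by omega), hv.toPth.ad_uv (by omega)]
    simp only [map_add, pj_uv (hu.mem _ h1), pj_uv (hv.mem _ h2)]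
    abel

/-- All vertices of `S` have degree two, the others have zero or two neighbours in `S`. -/
def Zero (F : SimpleGraph X) (S : Finset X) : Prop :=
  (∀ u ∈ S, (nbr F univ u).card = 2) ∧ ∀ t ∉ S, (nbr F S t).card = 0 ∨ (nbr F S t).card = 2

theorem zero_false (d : ℕ) : ∀ {F H : SimpleGraph X} {u : ℕ → X}, Irr F H S → Zero F S →
    Zero H S → 0 < d → Ch F S u d → False := by
  induction d using Nat.strong_induction_on with
  | _ d ih =>
  intro F H u hI hF hH hd hu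
  obtain ⟨Φ, h⟩ := hI.1
  obtain ⟨c, rfl⟩ : ∃ c, d = c + 1 := ⟨d - 1, by omega⟩
  have long : ∀ {F H : SimpleGraph X}, Irr F H S → Zero F S → Zero H S → ∀ b ∈ nbr F S (u 0),
      ∃ v d', Ch F S v d' ∧ v 0 = u 0 ∧ v 1 = b ∧ c < d' := by
    intro F H hI hF hH b hb
    obtain ⟨v, d', a1, a2, a3⟩ := exists_chain (P := (· ∈ S)) hF.1 hu.s0 (mem_nbr.1 hb).2
    refine ⟨v, d', a1, a2, a3, lt_of_not_ge fun a => ih d' (by omega) hI hF hH
      (Nat.pos_of_ne_zero fun e => a1.s1 ?_) a1⟩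
    rw [e, a3]
    exact (mem_nbr.1 hb).1
  have m1 : u 1 ∈ nbr F S (u 0) := mem_nbr.2 ⟨hu.mem 0 hd, hu.a0⟩
  have n2 : (nbr F S (u 0)).card = 2 :=
    (hF.2 _ hu.s0).resolve_left (card_pos.2 ⟨_, m1⟩).ne'
  obtain ⟨y, y0, y1, y2, y3⟩ := exists_other n2 (hu.mem 0 hd) hu.a0
  obtain ⟨v, d₁, v1, v2, rfl, v4⟩ := long hI hF hH y (mem_nbr.2 ⟨y0, y2⟩)
  have f1 := (cb_eq hu v1 v2 (ext fun z => by
    simp only [mem_nbr, mem_insert, mem_singleton]
    exact ⟨fun a => y3 z a.1 a.2, by rintro (rfl | rfl); exacts [mem_nbr.1 m1, ⟨y0, y2⟩]⟩)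
    y1.symm c (by omega) v4).2
  obtain ⟨a, b, hab, e⟩ := card_eq_two.1 ((h.card_nbr hu.s0).trans n2)
  obtain ⟨p, d₂, p1, p2, rfl, p4⟩ := long hI.symm hH hF a (by simp [e])
  obtain ⟨q, d₃, q1, q2, rfl, q4⟩ := long hI.symm hH hF b (by simp [e])
  have f2 := (cb_eq p1 q1 (q2.trans p2.symm) (p2 ▸ e) hab c p4 q4).2
  have f3 := h.off (ad F (cb F S (u 0) (c + 1))) hu.s1
  rw [h.com, (h.cb hu.s0 c).2, f1, ← p2, f2, map_add, map_add, Pi.add_apply, Pi.add_apply, ad_uv,
    ad_uv, ad_uv, ad_uv, if_pos (hu.toPth.step hu.a0 le_rfl).symm] at f3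
  have fin : ∀ {p : ℕ → X} {d₂ : ℕ}, Ch H S p d₂ → p 0 = u 0 → c < d₂ →
      ¬H.Adj (u (c + 1 + 1)) (p (c + 1)) := by
    intro p d₂ p1 p2 p4 ha
    rcases p1.att p4 hu.s1 ha with ⟨rfl, e⟩ | ⟨rfl, e⟩
    · exact hu.ne 0 hd (e.trans p2).symm
    · exact hI.not_match hd hu.toPth p1.toPth p2.symm e hu.s0 hu.s1 hu.mem p1.mem
  rw [if_neg (fin p1 p2 p4), if_neg (fin q1 q2 q4)] at f3
  split_ifs at f3 <;> norm_num at f3

theorem Irr.zero (hI : Irr F H S) (hc : F.Preconnected) (hS : S.Nonempty) (hF : Zero F S) :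
    Nonempty (H ≃g F) := by
  obtain ⟨Φ, h⟩ := hI.1
  have h2 := h.deg_two hF.1
  by_cases hex : ∃ t ∉ S, ∃ b ∈ S, F.Adj t b
  · obtain ⟨t, ht, b, hb, hab⟩ := hex
    obtain ⟨v, d, a1, a2, a3⟩ := exists_chain (P := (· ∈ S)) hF.1 ht hab
    exact (zero_false d hI hF ⟨h2, fun t ht => h.card_nbr ht ▸ hF.2 t ht⟩
      (Nat.pos_of_ne_zero fun e => a1.s1 (by rw [e, a3]; exact hb)) a1).elim
  · obtain ⟨a, ha⟩ := hS
    have all := closed_all hc (Ω := (· ∈ S)) ha fun x y hx hxy => by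
      by_contra hy
      exact hex ⟨y, hy, x, hx, hxy.symm⟩
    exact cyc_iso hc (h.preconnected hc (fun u => hF.1 u (all u)) fun u => h2 u (all u))
      (fun u => hF.1 u (all u)) (fun u => h2 u (all u)) a

end Pool.Agent.P.MP_f57657_co
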